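import Pool.Agent.Work.MP_c146e2_gt.RunA

/-! Labellings in context, and maps of labellings. -/

set_option autoImplicit false

namespace RankGenus

open Kind

theorem runb_split {α : Type} {L : List α} {i : ℕ} (h : i ≤ L.length) :
    ∃ A B, L = A ++ B ∧ A.length = i :=
  ⟨L.take i, L.drop i, (List.take_append_drop i L).symm, List.length_take_of_le h⟩

theorem runb_split2 {α : Type} {L : List α} {i : ℕ} (h : i + 2 ≤ L.length) :
    ∃ A a b B, L = A ++ a :: b :: B ∧ A.length = i := by
  obtain ⟨A, B, rfl, rfl⟩ := runb_split (le_of_add_le_left h)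
  rw [List.length_append] at h
  match B, h with
  | a :: b :: B, _ => exact ⟨A, a, b, B, rfl, rfl⟩
  | [a], h => simp at h
  | [], h => simp at h

theorem runb_width {p n r : ℕ} {w : Word} (h : width (p + n) (shift p w) = some r) :
    ∃ m, width n w = some m := by
  induction w generalizing n with
  | nil => exact ⟨n, rfl⟩
  | cons g w ih =>
    obtain ⟨k, i⟩ := g
    simp only [width, shift, List.map_cons] at h ⊢
    split_ifs at h with h1
    rw [show p + n - k.inn + k.out = p + (n - k.inn + k.out) by omega] at h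
    rw [if_pos (by omega)]
    exact ih h

namespace Run
variable {α β : Type} {S : Sys α} {S' : Sys β} {L M N cs ds : List α} {w w' : Word}

theorem shift (P : List α) {p : ℕ} (hp : P.length = p) (h : Run S L w cs M) :
    Run S (P ++ L) (shift p w) cs (P ++ M) := by
  have hl : ∀ A : List α, (P ++ A).length = A.length + p := fun A => by
    rw [List.length_append, hp, add_comm]
  induction h with
  | nil => exact Run.nil _
  | cre A B x _ ih =>
    rw [← List.append_assoc] at ih ⊢
    exact (cre_iff _ _ (hl A)).2 ⟨x, _, rfl, ih⟩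
  | ann A B x _ ih =>
    rw [← List.append_assoc] at ih ⊢
    exact (ann_iff _ _ _ _ (hl A)).2 ⟨rfl, ih⟩
  | ov A B a b _ ih =>
    rw [← List.append_assoc] at ih ⊢
    exact (ov_iff _ _ _ _ (hl A)).2 ih
  | un A B a b _ ih =>
    rw [← List.append_assoc] at ih ⊢
    exact (un_iff _ _ _ _ (hl A)).2 ih

theorem runb_ctx (P Q : List α) {p n : ℕ} (hp : P.length = p) (hw : width L.length w = some n)
    (h : Run S (P ++ L ++ Q) (RankGenus.shift p w) cs N) :
    ∃ M, N = P ++ M ++ Q ∧ Run S L w cs M := by
  have hl : ∀ A : List α, (P ++ A).length = A.length + p := fun A => by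
    rw [List.length_append, hp, add_comm]
  have e : ∀ A B : List α, P ++ (A ++ B) ++ Q = P ++ A ++ (B ++ Q) := fun A B => by
    simp only [List.append_assoc]
  induction w generalizing L cs with
  | nil =>
    obtain ⟨rfl, rfl⟩ := nil_iff.1 h
    exact ⟨L, rfl, Run.nil _⟩
  | cons g w ih =>
    obtain ⟨k, i⟩ := g
    simp only [width] at hw
    split_ifs at hw with h1
    have hw' : ∀ L' : List α, L'.length + k.inn = L.length + k.out →
        width L'.length w = some n := fun L' h2 => by
      rw [← hw]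
      congr 1
      omega
    cases k with
    | cre =>
      obtain ⟨A, B, rfl, rfl⟩ := runb_split h1
      rw [e] at h
      obtain ⟨x, cs', rfl, h2⟩ := (cre_iff _ _ (hl A)).1 h
      obtain ⟨M, rfl, h3⟩ := ih (hw' (A ++ x :: S.dual x :: B)
        (by simp [Kind.inn, Kind.out, add_assoc])) (by rw [e]; exact h2)
      exact ⟨M, rfl, Run.cre A B x h3⟩
    | ann =>
      obtain ⟨A, a, b, B, rfl, rfl⟩ := runb_split2 h1
      rw [e] at h
      obtain ⟨rfl, h2⟩ := (ann_iff _ _ _ _ (hl A)).1 h
      obtain ⟨M, rfl, h3⟩ := ih (hw' (A ++ B)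
        (by simp [Kind.inn, Kind.out, add_assoc])) (by rw [e]; exact h2)
      exact ⟨M, rfl, Run.ann A B a h3⟩
    | ov =>
      obtain ⟨A, a, b, B, rfl, rfl⟩ := runb_split2 h1
      rw [e] at h
      obtain ⟨M, rfl, h3⟩ := ih (hw' (A ++ S.o a b :: a :: B)
        (by simp [Kind.inn, Kind.out])) (by rw [e]; exact (ov_iff _ _ _ _ (hl A)).1 h)
      exact ⟨M, rfl, Run.ov A B a b h3⟩
    | un =>
      obtain ⟨A, a, b, B, rfl, rfl⟩ := runb_split2 h1
      rw [e] at h
      obtain ⟨M, rfl, h3⟩ := ih (hw' (A ++ b :: S.u a b :: B)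
        (by simp [Kind.inn, Kind.out])) (by rw [e]; exact (un_iff _ _ _ _ (hl A)).1 h)
      exact ⟨M, rfl, Run.un A B a b h3⟩
    | spl => exact (not_spl h).elim
    | mrg => exact (not_mrg h).elim

theorem of_shift (P : List α) {p : ℕ} (hp : P.length = p)
    (h : Run S (P ++ L) (RankGenus.shift p w) cs N) : ∃ M, N = P ++ M ∧ Run S L w cs M := by
  have hw := h.width_eq
  rw [List.length_append, hp] at hw
  obtain ⟨n, hn⟩ := runb_width hw
  simpa only [List.append_nil] using runb_ctx P [] hp hn ((List.append_nil _).symm ▸ h)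

theorem suffix (Q : List α) (h : Run S L w cs M) : Run S (L ++ Q) w cs (M ++ Q) := by
  induction h with
  | nil => exact Run.nil _
  | cre A B x _ ih =>
    rw [List.append_assoc] at ih ⊢
    exact Run.cre A _ x ih
  | ann A B x _ ih =>
    rw [List.append_assoc] at ih ⊢
    exact Run.ann A _ x ih
  | ov A B a b _ ih =>
    rw [List.append_assoc] at ih ⊢
    exact Run.ov A _ a b ih
  | un A B a b _ ih =>
    rw [List.append_assoc] at ih ⊢
    exact Run.un A _ a b ih

theorem of_suffix (Q : List α) {n : ℕ} (hw : width L.length w = some n)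
    (h : Run S (L ++ Q) w cs N) : ∃ M, N = M ++ Q ∧ Run S L w cs M :=
  runb_ctx [] Q rfl hw ((shift_zero w).symm ▸ h)

/-- A sub-diagram in the middle of a level, followed by the rest. -/
theorem of_mid (P Q : List α) {p n : ℕ} (hp : P.length = p) (hw : width L.length w = some n)
    (h : Run S (P ++ L ++ Q) (RankGenus.shift p w ++ w') cs N) :
    ∃ M c1 c2, cs = c1 ++ c2 ∧ Run S L w c1 M ∧ Run S (P ++ M ++ Q) w' c2 N := by
  obtain ⟨M', c1, c2, e, h1, h2⟩ := h.split
  obtain ⟨M, rfl, h3⟩ := runb_ctx P Q hp hw h1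
  exact ⟨M, c1, c2, e, h3, h2⟩

theorem all {P : α → Prop} (hP : S.Closed P) (h : Run S L w cs M) (hL : ∀ x ∈ L, P x)
    (hc : ∀ x ∈ cs, P x) : ∀ x ∈ M, P x := by
  induction h with
  | nil => exact hL
  | cre A B x _ ih =>
    simp only [List.forall_mem_append, List.forall_mem_cons] at ih hL hc
    exact ih ⟨hL.1, hc.1, hP.dual _ hc.1, hL.2⟩ hc.2
  | ann A B x _ ih =>
    simp only [List.forall_mem_append, List.forall_mem_cons] at ih hL
    exact ih ⟨hL.1, hL.2.2.2⟩ hc
  | ov A B a b _ ih =>
    simp only [List.forall_mem_append, List.forall_mem_cons] at ih hL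
    exact ih ⟨hL.1, hP.o _ _ hL.2.1 hL.2.2.1, hL.2.1, hL.2.2.2⟩ hc
  | un A B a b _ ih =>
    simp only [List.forall_mem_append, List.forall_mem_cons] at ih hL
    exact ih ⟨hL.1, hL.2.2.1, hP.u _ _ hL.2.1 hL.2.2.1, hL.2.2.2⟩ hc

theorem map {P : α → Prop} (hP : S.Closed P) (f : α → β)
    (hd : ∀ x, P x → f (S.dual x) = S'.dual (f x))
    (ho : ∀ a b, P a → P b → f (S.o a b) = S'.o (f a) (f b))
    (hu : ∀ a b, P a → P b → f (S.u a b) = S'.u (f a) (f b))
    (h : Run S L w cs M) (hL : ∀ x ∈ L, P x) (hc : ∀ x ∈ cs, P x) :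
    Run S' (L.map f) w (cs.map f) (M.map f) := by
  induction h with
  | nil => exact Run.nil _
  | cre A B x _ ih =>
    simp only [List.forall_mem_append, List.forall_mem_cons, List.map_append, List.map_cons]
      at ih hL hc ⊢
    exact (cre_iff _ _ (List.length_map f)).2
      ⟨_, _, rfl, hd x hc.1 ▸ ih ⟨hL.1, hc.1, hP.dual _ hc.1, hL.2⟩ hc.2⟩
  | ann A B x _ ih =>
    simp only [List.forall_mem_append, List.forall_mem_cons, List.map_append, List.map_cons]
      at ih hL ⊢
    exact (ann_iff _ _ _ _ (List.length_map f)).2 ⟨hd x hL.2.1, ih ⟨hL.1, hL.2.2.2⟩ hc⟩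
  | ov A B a b _ ih =>
    simp only [List.forall_mem_append, List.forall_mem_cons, List.map_append, List.map_cons]
      at ih hL ⊢
    exact (ov_iff _ _ _ _ (List.length_map f)).2 (ho a b hL.2.1 hL.2.2.1 ▸
      ih ⟨hL.1, hP.o _ _ hL.2.1 hL.2.2.1, hL.2.1, hL.2.2.2⟩ hc)
  | un A B a b _ ih =>
    simp only [List.forall_mem_append, List.forall_mem_cons, List.map_append, List.map_cons]
      at ih hL ⊢
    exact (un_iff _ _ _ _ (List.length_map f)).2 (hu a b hL.2.1 hL.2.2.1 ▸
      ih ⟨hL.1, hL.2.2.1, hP.u _ _ hL.2.1 hL.2.2.1, hL.2.2.2⟩ hc)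

theorem zip {L' cs' M' : List β} (h : Run S L w cs M) (h' : Run S' L' w cs' M')
    (hl : L.length = L'.length) :
    Run (S.prod S') (L.zip L') w (cs.zip cs') (M.zip M') := by
  have hz : ∀ {A : List α} {A' : List β}, A.length = A'.length → (A.zip A').length = A'.length :=
    fun h => by rw [List.length_zip, h, min_self]
  induction h generalizing L' cs' with
  | nil =>
    obtain ⟨rfl, rfl⟩ := nil_iff.1 h'
    exact Run.nil _
  | cre A B x _ ih =>
    generalize hq : A.length = q at h'
    cases h' with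
    | cre A' B' x' h' =>
      have h := ih h' (by simp only [List.length_append, List.length_cons] at hl ⊢; omega)
      rw [List.zip_append hq] at h ⊢
      exact (cre_iff _ _ (hz hq)).2 ⟨(x, x'), _, rfl, h⟩
  | ann A B x _ ih =>
    generalize hq : A.length = q at h'
    cases h' with
    | ann A' B' x' h' =>
      have h := ih h' (by simp only [List.length_append, List.length_cons] at hl ⊢; omega)
      rw [List.zip_append hq] at h ⊢
      exact (ann_iff _ _ _ _ (hz hq)).2 ⟨rfl, h⟩
  | ov A B a b _ ih =>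
    generalize hq : A.length = q at h'
    cases h' with
    | ov A' B' a' b' h' =>
      have h := ih h' (by simp only [List.length_append, List.length_cons] at hl ⊢; omega)
      rw [List.zip_append hq] at h ⊢
      exact (ov_iff _ _ _ _ (hz hq)).2 h
  | un A B a b _ ih =>
    generalize hq : A.length = q at h'
    cases h' with
    | un A' B' a' b' h' =>
      have h := ih h' (by simp only [List.length_append, List.length_cons] at hl ⊢; omega)
      rw [List.zip_append hq] at h ⊢
      exact (un_iff _ _ _ _ (hz hq)).2 h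

theorem prod_eq {H : Type} [Group H] {L cs M : List H} (h : Run (grpSys H) L w cs M) :
    M.prod = L.prod := by
  induction h with
  | nil => rfl
  | _ =>
    rename_i ih
    rw [ih]
    simp only [grpSys, List.prod_append, List.prod_cons]
    group

/-- The meridian at the bottom of a long knot equals the meridian at the top. -/
theorem hol_fst {H : Type} [Group H] {a b : H × H} {cs : List (H × H)}
    (h : Run (holSys H) [a] w cs [b]) : b.1 = a.1 := by
  have h1 := (h.map (S' := grpSys H) (Sys.closed_true _) Prod.fst (fun _ _ => rfl)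
    (fun _ _ _ _ => rfl) (fun _ _ _ _ => rfl) (fun _ _ => trivial) fun _ _ => trivial).prod_eq
  simpa using h1

end Run

theorem IsKnot.width {T : Word} (h : IsKnot T) : width 1 T = some 1 :=
  h.1.choose_spec.width_eq

theorem IsKnot.out {T : Word} (h : IsKnot T) {α : Type} {S : Sys α} {a : α} {cs M : List α}
    (hr : Run S [a] T cs M) : ∃ b, M = [b] :=
  List.length_eq_one_iff.1 (Option.some.inj (hr.width_eq.symm.trans h.width))

/-- A property that is constant along strands holds everywhere on a knot. -/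
theorem IsKnot.use {T : Word} (hT : IsKnot T) {α : Type} {S : Sys α} {P : α → Prop}
    (hP : S.Closed P) (G : α → Prop) (hd : ∀ x, P x → (G (S.dual x) ↔ G x))
    (ho : ∀ a b, P a → P b → (G (S.o a b) ↔ G b)) (hu : ∀ a b, P a → P b → (G (S.u a b) ↔ G a))
    {a : α} {cs M : List α} (h : Run S [a] T cs M) (ha : P a) (hc : ∀ c ∈ cs, P c) (hG : G a) :
    (∀ c ∈ cs, G c) ∧ ∀ x ∈ M, G x := by
  classical
  have h1 := h.map (S' := boolSys) hP (fun x => decide (¬ G x))
    (fun x hx => decide_eq_decide.2 (hd x hx).not)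
    (fun a b h h' => decide_eq_decide.2 (ho a b h h').not)
    (fun a b h h' => decide_eq_decide.2 (hu a b h h').not)
    (List.forall_mem_singleton.2 ha) hc
  rw [List.map_singleton, decide_eq_false (not_not.2 hG)] at h1
  have h2 := hT.2 _ _ h1
  have h3 := h1.all (P := fun b => b = false) ⟨fun _ h => h, fun _ _ _ h => h, fun _ _ h _ => h⟩
    (List.forall_mem_singleton.2 rfl) h2
  exact ⟨fun c hc => not_not.1 (of_decide_eq_false (h2 _ (List.mem_map_of_mem hc))),
    fun x hx => not_not.1 (of_decide_eq_false (h3 _ (List.mem_map_of_mem hx)))⟩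

end RankGenus
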