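import Pool.Agent.Work.MP_c146e2_gt.Tab
import Pool.Agent.Work.MP_c146e2_gt.RunB

/-! The model of total charges on a connected diagram. -/

set_option autoImplicit false

namespace RankGenus

open Cy Kind

theorem cabb_mem {σ Λ : Type} (S : LS σ Λ) (k : Kind) (i : ℕ) : ∀ (l : Λ) (c : List σ)
    (p : Cy × List σ), p ∈ S.act k i l c → ∃ P a Q l' q, c = P ++ (a ++ Q) ∧ P.length = i ∧
      a.length = k.inn ∧ q ∈ S.rule k l' a ∧ p.2 = P ++ (q.2 ++ Q) := by
  induction i with
  | zero =>
    intro l c p hp
    rw [LS.act] at hp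
    split_ifs at hp with h
    · obtain ⟨q, hq, rfl⟩ := List.mem_map.1 hp
      exact ⟨[], c.take k.inn, c.drop k.inn, l, q, (List.take_append_drop _ _).symm, rfl,
        List.length_take_of_le h, hq, rfl⟩
    · exact absurd hp List.not_mem_nil
  | succ i ih =>
    rintro l (_ | ⟨s, t⟩) p hp
    · exact absurd hp List.not_mem_nil
    · obtain ⟨r, hr, rfl⟩ := List.mem_map.1 hp
      obtain ⟨P, a, Q, l', q, rfl, rfl, h1, h2, h3⟩ := ih _ _ _ hr
      exact ⟨s :: P, a, Q, l', q, rfl, rfl, h1, h2, congrArg (s :: ·) h3⟩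

theorem cabb_kinds (k : Kind) : k ∈ [cre, ann, ov, un, spl, mrg] := by cases k <;> simp

theorem cabb_shape0 : ∀ k ∈ [cre, ann, ov, un, spl, mrg], ∀ l ∈ eB, ∀ a ∈ allL eB2 k.inn,
    ∀ q ∈ sysE.rule k l a, ∃ x y : Bool, (k = cre ∧ cols a = [] ∧ cols q.2 = [x, x]) ∨
      (k = ann ∧ cols a = [x, x] ∧ cols q.2 = []) ∨
      ((k = ov ∨ k = un) ∧ cols a = [x, y] ∧ cols q.2 = [y, x]) := by decide +kernel

theorem cabb_shape {k : Kind} {i : ℕ} {l : Bool} {c : List B2} {p : Cy × List B2}
    (hp : p ∈ sysE.act k i l c) : ∃ (P Q : List Bool) (x y : Bool), P.length = i ∧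
      ((k = cre ∧ cols c = P ++ Q ∧ cols p.2 = P ++ x :: x :: Q) ∨
      (k = ann ∧ cols c = P ++ x :: x :: Q ∧ cols p.2 = P ++ Q) ∨
      ((k = ov ∨ k = un) ∧ cols c = P ++ x :: y :: Q ∧ cols p.2 = P ++ y :: x :: Q)) := by
  obtain ⟨P, a, Q, l', q, rfl, rfl, h1, h2, h3⟩ := cabb_mem _ _ _ _ _ _ hp
  obtain ⟨x, y, h⟩ := cabb_shape0 k (cabb_kinds k) l' (mem_eB _) a (h1 ▸ mem_allL mem_eB2 a) q h2
  refine ⟨cols P, cols Q, x, y, List.length_map _, ?_⟩
  have e1 : cols (P ++ (a ++ Q)) = cols P ++ (cols a ++ cols Q) := by simp [cols]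
  have e2 : cols p.2 = cols P ++ (cols q.2 ++ cols Q) := by simp [h3, cols]
  rw [e1, e2]
  rcases h with ⟨h4, h5, h6⟩ | ⟨h4, h5, h6⟩ | ⟨h4, h5, h6⟩
  · exact Or.inl ⟨h4, by rw [h5]; rfl, by rw [h6]; rfl⟩
  · exact Or.inr (Or.inl ⟨h4, by rw [h5]; rfl, by rw [h6]; rfl⟩)
  · exact Or.inr (Or.inr ⟨h4, by rw [h5]; rfl, by rw [h6]; rfl⟩)

/-- The colours of the outcomes of one slice follow the strands. -/
theorem actE_run {k : Kind} {i : ℕ} {l : Bool} {c : List B2} {p : Cy × List B2}
    (hp : p ∈ sysE.act k i l c) {w : Word} {cs M : List Bool}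
    (h : Run boolSys (cols p.2) w cs M) :
    Run boolSys (cols c) ((k, i) :: w)
      ((if k = cre then [(cols p.2).getD i false] else []) ++ cs) M := by
  obtain ⟨P, Q, x, y, rfl, ⟨rfl, h1, h2⟩ | ⟨rfl, h1, h2⟩ | ⟨rfl | rfl, h1, h2⟩⟩ := cabb_shape hp
  · rw [h2] at h ⊢
    rw [h1, if_pos rfl, show (P ++ x :: x :: Q).getD P.length false = x by simp]
    exact Run.cre P Q x h
  · rw [h2] at h
    rw [h1]
    exact Run.ann P Q x h
  · rw [h2] at h
    rw [h1]
    exact Run.ov P Q x y h
  · rw [h2] at h
    rw [h1]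
    exact Run.un P Q x y h

theorem backE_zero (w : Word) (l : Bool) (f : List B2 → Cy) :
    ∀ c : List B2, (¬ ∃ cs M, Run boolSys (cols c) w cs M) → sysE.back w l f c = 0 := by
  induction w with
  | nil => exact fun c h => absurd ⟨_, _, Run.nil _⟩ h
  | cons g w ih =>
    intro c h
    exact (pair_congr fun p hp => ih _ fun ⟨_, _, hr⟩ => h ⟨_, _, actE_run hp hr⟩).trans
      (pair_zero _)

theorem cabb_filter {β : Type} (L : List (Cy × β)) (φ : Cy × β → Bool) (F : β → Cy)
    (h : ∀ p ∈ L, ¬ φ p = true → F p.2 = 0) : pair L F = pair (L.filter φ) F := by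
  induction L with
  | nil => rfl
  | cons p L ih =>
    have h1 := ih fun q hq => h q (List.mem_cons_of_mem _ hq)
    by_cases hp : φ p = true
    · rw [List.filter_cons_of_pos hp, pair_cons, pair_cons, h1]
    · rw [List.filter_cons_of_neg hp, pair_cons, h p List.mem_cons_self hp, h1, mul_zero, zero_add]

theorem cabb_van {b : Bool} {k : Kind} {i : ℕ} {w : Word} (l : Bool) (f : List B2 → Cy)
    {c : List B2} (hc : ∀ x ∈ cols c, x = b)
    (h : ∀ cs M, Run boolSys (cols c) ((k, i) :: w) cs M → ∀ x ∈ cs, x = b) :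
    sysE.back ((k, i) :: w) l f c =
      pair ((sysE.act k i l c).filter fun p => (cols p.2).all (· == b)) (sysE.back w l f) := by
  refine cabb_filter _ _ _ fun p hp hn => backE_zero w l f _ ?_
  rintro ⟨cs, M, hr⟩
  have h1 := h _ _ (actE_run hp hr)
  refine hn (List.all_eq_true.2 fun z hz => beq_iff_eq.2 ?_)
  obtain ⟨P, Q, x, y, rfl, ⟨rfl, h2, h3⟩ | ⟨rfl, h2, h3⟩ | ⟨-, h2, h3⟩⟩ := cabb_shape hp
  · rw [h3] at h1 hz
    rw [h2] at hc
    have h4 : x = b := h1 x (by simp)
    simp only [List.mem_append, List.mem_cons] at hz hc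
    rcases hz with hz | rfl | rfl | hz
    exacts [hc _ (Or.inl hz), h4, h4, hc _ (Or.inr hz)]
  · rw [h3] at hz
    rw [h2] at hc
    refine hc z ?_
    simp only [List.mem_append, List.mem_cons] at hz ⊢
    tauto
  · rw [h3] at hz
    rw [h2] at hc
    refine hc z ?_
    simp only [List.mem_append, List.mem_cons] at hz ⊢
    tauto

theorem cabb_true0 : ∀ k ∈ [cre, ann, ov, un, spl, mrg], ∀ l ∈ eB, ∀ a ∈ allL eB k.inn,
    (sysE.rule k l (a.map fun x => (true, x))).filter (fun p => (cols p.2).all (· == true)) =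
      (sysU.rule k l a).map fun q => (q.1, q.2.map fun x => (true, x)) := by decide +kernel

theorem cabb_true (k : Kind) (i : ℕ) : ∀ (l : Bool) (a : List Bool),
    (sysE.act k i l (a.map fun x => (true, x))).filter (fun p => (cols p.2).all (· == true)) =
      (sysU.act k i l a).map fun q => (q.1, q.2.map fun x => (true, x)) := by
  induction i with
  | zero =>
    intro l a
    rw [LS.act, LS.act, List.length_map]
    split_ifs with h
    · have h1 := cabb_true0 k (cabb_kinds k) l (mem_eB _) (a.take k.inn) (by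
        have h2 := mem_allL mem_eB (a.take k.inn)
        rwa [List.length_take_of_le h] at h2)
      rw [List.filter_map, ← List.map_take, ← List.map_drop, List.filter_congr
        (q := fun p => (cols p.2).all (· == true)) fun p _ => by simp [cols, -List.map_drop], h1]
      simp [Function.comp_def]
    · rfl
  | succ i ih =>
    rintro l (_ | ⟨s, t⟩)
    · rfl
    · rw [List.map_cons, LS.act, LS.act, List.filter_map, List.filter_congr
        (q := fun p => (cols p.2).all (· == true)) fun p _ => by simp [cols]]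
      refine (congrArg _ (ih s t)).trans ?_
      simp [Function.comp_def, sysU]

theorem cabb_cols (a : List Bool) :
    cols (a.map fun x => (true, x)) = List.replicate a.length true := by
  simp [cols, Function.comp_def]

def cabbCf : Kind → Cy
  | cre => phi
  | ann => ph
  | _ => 1

theorem cabb_false0 : ∀ k ∈ [cre, ann, ov, un], ∀ l ∈ eB,
    (sysE.rule k l (List.replicate k.inn (false, l))).filter
      (fun p => (cols p.2).all (· == false)) = [(cabbCf k, List.replicate k.out (false, l))] := by
  decide +kernel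

theorem cabb_false {k : Kind} (hk : k ∈ [cre, ann, ov, un]) (l : Bool) (i : ℕ) : ∀ n : ℕ,
    i + k.inn ≤ n → (sysE.act k i l (List.replicate n (false, l))).filter
      (fun p => (cols p.2).all (· == false)) =
      [(cabbCf k, List.replicate (n - k.inn + k.out) (false, l))] := by
  induction i with
  | zero =>
    intro n h
    rw [zero_add] at h
    rw [LS.act, List.length_replicate, if_pos h, List.filter_map, List.take_replicate,
      min_eq_left h, List.filter_congr
        (q := fun p => (cols p.2).all (· == false)) fun p _ => by simp [cols],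
      cabb_false0 k hk l (mem_eB _)]
    simp [add_comm]
  | succ i ih =>
    rintro (_ | n) h
    · omega
    · rw [List.replicate_succ, LS.act, List.filter_map, List.filter_congr
        (q := fun p => (cols p.2).all (· == false)) fun p _ => by simp [cols]]
      refine (congrArg _ (ih n (by omega))).trans ?_
      rw [show n + 1 - k.inn + k.out = n - k.inn + k.out + 1 by omega]
      rfl

theorem cabb_inv {L cs M : List Bool} {k : Kind} {i : ℕ} {w : Word}
    (h : Run boolSys L ((k, i) :: w) cs M) (hL : ∀ x ∈ L, x = false) (hc : ∀ x ∈ cs, x = false) :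
    k ∈ [cre, ann, ov, un] ∧ i + k.inn ≤ L.length ∧
      ∃ cs', Run boolSys (List.replicate (L.length - k.inn + k.out) false) w cs' M := by
  have key : ∀ {L' cs' : List Bool} {n : ℕ}, Run boolSys L' w cs' M → L'.length = n →
      (∀ x ∈ L', x = false) → ∃ cs', Run boolSys (List.replicate n false) w cs' M :=
    fun h h1 h2 => ⟨_, List.eq_replicate_iff.2 ⟨h1, h2⟩ ▸ h⟩
  cases h with
  | cre P Q x h =>
    refine ⟨by simp, by simp [Kind.inn], key h ?_ ?_⟩
    · simp [Kind.inn, Kind.out]
      omega
    · have h1 := hc x List.mem_cons_self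
      simp only [List.mem_append, List.mem_cons, boolSys, id] at hL ⊢
      rintro z (hz | rfl | rfl | hz)
      exacts [hL _ (Or.inl hz), h1, h1, hL _ (Or.inr hz)]
  | _ =>
    rename_i h
    refine ⟨by simp, by simp [Kind.inn], key h ?_ ?_⟩
    · simp [Kind.inn, Kind.out]
      omega
    · intro z hz
      refine hL z ?_
      simp only [List.mem_append, List.mem_cons, boolSys, id] at hz ⊢
      tauto

theorem backE_true (w : Word) (l : Bool) (f : List B2 → Cy) : ∀ a : List Bool,
    (∀ cs M, Run boolSys (List.replicate a.length true) w cs M → ∀ x ∈ cs, x = true) →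
    sysE.back w l f (a.map fun x => (true, x)) =
      sysU.back w l (fun a' => f (a'.map fun x => (true, x))) a := by
  induction w with
  | nil => exact fun a _ => rfl
  | cons g w ih =>
    obtain ⟨k, i⟩ := g
    intro a h
    rw [← cabb_cols] at h
    rw [cabb_van (b := true) l f (by simp [cabb_cols]) h, cabb_true, pair_map]
    refine pair_congr fun q hq => ih _ fun cs M hr x hx => ?_
    have h1 := List.mem_map_of_mem (f := fun q : Cy × List Bool =>
      (q.1, q.2.map fun x => (true, x))) hq
    rw [← cabb_true] at h1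
    rw [← cabb_cols] at hr
    exact h _ _ (actE_run (List.mem_of_mem_filter h1) hr) x (List.mem_append_right _ hx)

theorem backE_false (w : Word) (l : Bool) (f : List B2 → Cy) : ∀ n n' : ℕ,
    (∃ cs, Run boolSys (List.replicate n false) w cs (List.replicate n' false)) →
    (∀ cs M, Run boolSys (List.replicate n false) w cs M → ∀ x ∈ cs, x = false) →
    sysE.back w l f (List.replicate n (false, l)) =
      ph ^ na w * phi ^ nc w * f (List.replicate n' (false, l)) := by
  have hc : ∀ n, cols (List.replicate n (false, l)) = List.replicate n false := fun n => by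
    simp [cols]
  induction w with
  | nil =>
    rintro n n' ⟨cs, hr⟩ -
    obtain rfl : n' = n := by simpa using congrArg List.length (Run.nil_iff.1 hr).2
    simp [na, nc, LS.back]
  | cons g w ih =>
    obtain ⟨k, i⟩ := g
    rintro n n' ⟨cs, hr⟩ h
    obtain ⟨h1, h2, h3⟩ := cabb_inv hr (by simp) (h _ _ hr)
    rw [List.length_replicate] at h2 h3
    have h4 := cabb_false h1 l i n h2
    rw [← hc] at h
    rw [cabb_van (b := false) l f (by simp [hc]) h, h4, pair_cons, pair_nil, add_zero,
      ih _ n' h3 fun cs M hr x hx => ?_]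
    · cases k <;> simp [cabbCf, na, nc, pow_succ] <;> ring
    · have h5 := List.mem_singleton_self (cabbCf k, List.replicate (n - k.inn + k.out) (false, l))
      rw [← h4] at h5
      rw [← hc] at hr
      exact h _ _ (actE_run (List.mem_of_mem_filter h5) hr) x (List.mem_append_right _ hx)

end RankGenus
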