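import Pool.Agent.Work.MP_c146e2_gt.BundG

-- merged part: Pool.Agent.Work.MP_c146e2_gt.SideA
section
/-! The group of the complement of a trivial arc in a handlebody of genus two. -/

set_option autoImplicit false

namespace RankGenus

open Kind

variable {H : Type} [Group H]

/-- The strands `O` run through a handle with core `γ` and come back as the strands `I`. -/
def Mt (γ : H) (O I : List H) : Prop := I = (O.map fun x => (γ⁻¹ * x * γ)⁻¹).reverse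

structure St (H : Type) where
  p : H
  O1 : List H
  I1 : List H
  O2 : List H
  I2 : List H
  q : H

def St.list (s : St H) : List H := s.p :: (s.O1 ++ s.I1 ++ s.O2 ++ s.I2 ++ [s.q])

def St.Len (s : St H) (a b : ℕ) : Prop :=
  s.O1.length = a ∧ s.I1.length = a ∧ s.O2.length = b ∧ s.I2.length = b

/-- The loops on the boundary surface lie in `S`. -/
def Bd (s : St H) (γ1 γ2 : H) (S : Subgroup H) : Prop :=
  s.p ∈ S ∧ s.q ∈ S ∧ γ1 ∈ S ∧ γ2 ∈ S ∧ s.O1.prod ∈ S ∧ s.O2.prod ∈ S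

/-- `z` is conjugate to `x` or `x⁻¹` inside `S`. -/
def Cj (S : Subgroup H) (x z : H) : Prop := ∃ g ∈ S, z = g⁻¹ * x * g ∨ z = g⁻¹ * x⁻¹ * g

def SInv (s : St H) (cs : List H) : Prop :=
  ∀ γ1 γ2, Mt γ1 s.O1 s.I1 → Mt γ2 s.O2 s.I2 →
    (∀ S, Bd s γ1 γ2 S → (∀ c ∈ cs, c ∈ S) ∧ ∀ x ∈ s.list, x ∈ S) ∧
    ∃ x y1 y2 : H, Bd s γ1 γ2 (Subgroup.closure {x, y1, y2}) ∧
      Cj (Subgroup.closure {x, y1, y2}) x s.p ∧ Cj (Subgroup.closure {x, y1, y2}) x s.q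

theorem Mt.prod {γ : H} {O I : List H} (h : Mt γ O I) : I.prod = γ⁻¹ * O.prod⁻¹ * γ := by
  subst h
  induction O with
  | nil => simp
  | cons x O ih =>
    rw [List.map_cons, List.reverse_cons, List.prod_append, ih, List.prod_cons, List.prod_cons,
      List.prod_nil]
    group

theorem Mt.conj {γ c d : H} {O I : List H}
    (h : Mt γ (O.map fun x => c⁻¹ * x * c) (I.map fun x => d⁻¹ * x * d)) :
    Mt (c * γ * d⁻¹) O I := by
  have h1 := congrArg (List.map fun x => d * x * d⁻¹) h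
  rw [List.map_reverse, List.map_map, List.map_map, List.map_map] at h1
  unfold Mt
  convert h1 using 1
  · conv_lhs => rw [← List.map_id I]
    exact List.map_congr_left fun x _ => by simp [mul_assoc]
  · exact congrArg _ (List.map_congr_left fun x _ => by simp [mul_assoc])

theorem Mt.cons {γ x y : H} {O I : List H} (h : Mt γ (x :: O) (I ++ [y])) :
    Mt γ O I ∧ y = (γ⁻¹ * x * γ)⁻¹ := by
  rw [Mt, List.map_cons, List.reverse_cons] at h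
  obtain ⟨h1, h2⟩ := List.append_inj' h rfl
  exact ⟨h1, (List.cons.inj h2).1⟩

theorem sidea_trans {S : Subgroup H} {x p z : H} (h : Cj S x p) (h' : Cj S p z) : Cj S x z := by
  obtain ⟨g, hg, e⟩ := h
  obtain ⟨k, hk, e'⟩ := h'
  refine ⟨g * k, mul_mem hg hk, ?_⟩
  rcases e with rfl | rfl <;> rcases e' with rfl | rfl
  · exact .inl (by group)
  · exact .inr (by group)
  · exact .inr (by group)
  · exact .inl (by group)

theorem SInv.transfer {s s' : St H} {cs c1 : List H} (h : SInv s cs)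
    (ht : ∀ γ1' γ2', Mt γ1' s'.O1 s'.I1 → Mt γ2' s'.O2 s'.I2 → ∃ γ1 γ2,
      Mt γ1 s.O1 s.I1 ∧ Mt γ2 s.O2 s.I2 ∧ ∀ S, (Bd s γ1 γ2 S ↔ Bd s' γ1' γ2' S) ∧
        (Bd s γ1 γ2 S → ((∀ x ∈ s.list, x ∈ S) → (∀ c ∈ c1, c ∈ S) ∧ ∀ x ∈ s'.list, x ∈ S) ∧
          (Cj S s.p s'.p ∨ Cj S s.q s'.p) ∧ (Cj S s.p s'.q ∨ Cj S s.q s'.q))) :
    SInv s' (cs ++ c1) := by
  intro γ1' γ2' h1 h2
  obtain ⟨γ1, γ2, m1, m2, hS⟩ := ht γ1' γ2' h1 h2
  obtain ⟨hA, x, y1, y2, hB, hp, hq⟩ := h γ1 γ2 m1 m2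
  refine ⟨fun S b => ?_, x, y1, y2, (hS _).1.1 hB, ?_, ?_⟩
  · have b' := (hS S).1.2 b
    obtain ⟨a1, a2⟩ := hA S b'
    obtain ⟨a3, a4⟩ := ((hS S).2 b').1 a2
    exact ⟨fun c hc => (List.mem_append.1 hc).elim (a1 c) (a3 c), a4⟩
  · exact ((hS _).2 hB).2.1.elim (sidea_trans hp) (sidea_trans hq)
  · exact ((hS _).2 hB).2.2.elim (sidea_trans hp) (sidea_trans hq)

/-- The statement for one move. -/
def MvOk (H : Type) [Group H] (m : Mv) : Prop :=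
  ∀ (s : St H) (a b : ℕ) (c0 cs L : List H) (w : Word), s.Len a b → SInv s c0 →
    Run (grpSys H) s.list (mvWord m a b ++ w) cs L →
    ∃ (s' : St H) (c1 cs' : List H), cs = c1 ++ cs' ∧ s'.Len (a + m.da) (b + m.db) ∧
      SInv s' (c0 ++ c1) ∧ Run (grpSys H) s'.list w cs' L

end RankGenus
end

-- merged part: Pool.Agent.Work.MP_c146e2_gt.SideB
section
/-! Three of the moves. -/

set_option autoImplicit false

namespace RankGenus

open Kind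

variable {H : Type} [Group H]

theorem sideb_cj {S : Subgroup H} {g x : H} (hg : g ∈ S) : g⁻¹ * x * g ∈ S ↔ x ∈ S := by
  rw [S.mul_mem_cancel_right hg, S.mul_mem_cancel_left (S.inv_mem hg)]

theorem sideb_refl (S : Subgroup H) (x : H) : Cj S x x := ⟨1, S.one_mem, Or.inl (by group)⟩

theorem sideb_map {S : Subgroup H} {g : H} (hg : g ∈ S) {A : List H} (h : ∀ x ∈ A, x ∈ S) :
    ∀ x ∈ A.map fun x => g⁻¹ * x * g, x ∈ S := by
  intro x hx
  obtain ⟨y, hy, rfl⟩ := List.mem_map.1 hx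
  exact (sideb_cj hg).2 (h y hy)

theorem sideb_list {S : Subgroup H} {s : St H} : (∀ x ∈ s.list, x ∈ S) ↔ s.p ∈ S ∧
    (∀ x ∈ s.O1, x ∈ S) ∧ (∀ x ∈ s.I1, x ∈ S) ∧ (∀ x ∈ s.O2, x ∈ S) ∧ (∀ x ∈ s.I2, x ∈ S) ∧
      s.q ∈ S := by
  rw [St.list, List.forall_mem_cons]
  simp only [List.forall_mem_append, and_assoc, List.forall_mem_singleton]

theorem mv_aL : MvOk H .aL := by
  rintro ⟨p, O1, I1, O2, I2, q⟩ a b c0 cs L w ⟨l1, l2, l3, l4⟩ hs h
  simp only at l1 l2 l3 l4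
  have e1 : St.list ⟨p, O1, I1, O2, I2, q⟩ = (p :: (O1 ++ I1)) ++ (O2 ++ I2 ++ [q]) := by
    simp [St.list]
  have hl : (p :: (O1 ++ I1)).length = 1 + 2 * a := by
    simp only [List.length_cons, List.length_append]
    omega
  rw [mvWord, List.cons_append, e1, Run.cre_iff _ _ hl] at h
  obtain ⟨v, cs', rfl, h⟩ := h
  rw [show (grpSys H).dual v = v⁻¹ from rfl] at h
  have h2 := (run_bx_un [] (p :: (O1 ++ I1)) [v] (v⁻¹ :: (O2 ++ I2 ++ [q])) rfl hl rfl).1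
    (by simpa using h)
  rw [grp_u, List.prod_singleton] at h2
  refine ⟨⟨v, (v⁻¹ * p * v) :: O1.map fun x => v⁻¹ * x * v,
    (I1.map fun x => v⁻¹ * x * v) ++ [v⁻¹], O2, I2, q⟩, [v], cs', rfl,
    by simp [St.Len, Mv.da, Mv.db, l1, l2, l3, l4], hs.transfer fun γ1 γ2 m1 m2 => ?_,
    by simpa [St.list] using h2⟩
  obtain ⟨m3, e⟩ := m1.cons
  have e2 : v = (v * γ1 * v⁻¹)⁻¹ * p * (v * γ1 * v⁻¹) := by
    have e3 := congrArg (fun x => v * x⁻¹ * v⁻¹) e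
    simp only [inv_inv, mul_inv_cancel_right] at e3
    rw [← mul_inv_eq_one]
    nth_rewrite 1 [e3]
    group
  have k : ∀ S : Subgroup H, p ∈ S → v * γ1 * v⁻¹ ∈ S → v ∈ S := fun S h1 h3 =>
    e2 ▸ (sideb_cj h3).2 h1
  refine ⟨_, γ2, m3.conj, m2, fun S => ⟨?_, ?_⟩⟩
  · simp only [Bd, List.prod_cons, prod_conj']
    constructor
    · rintro ⟨h1, h2, h3, h4, h5, h6⟩
      have hv := k S h1 h3
      refine ⟨hv, h2, ?_, h4, S.mul_mem ((sideb_cj hv).2 h1) ((sideb_cj hv).2 h5), h6⟩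
      rwa [S.mul_mem_cancel_right (S.inv_mem hv), S.mul_mem_cancel_left hv] at h3
    · rintro ⟨h1, h2, h3, h4, h5, h6⟩
      have h7 := S.mul_mem (S.mul_mem h1 h3) (S.inv_mem h1)
      have h8 : p ∈ S := (sideb_cj h7).1 (e2 ▸ h1)
      rw [S.mul_mem_cancel_left ((sideb_cj h1).2 h8), sideb_cj h1] at h5
      exact ⟨h8, h2, h7, h4, h5, h6⟩
  · rintro ⟨h1, -, h3, -⟩
    have hv := k S h1 h3
    refine ⟨fun h7 => ?_, Or.inl ⟨_, h3, Or.inl e2⟩, Or.inr (sideb_refl _ _)⟩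
    obtain ⟨a1, a2, a3, a4, a5, a6⟩ := sideb_list.1 h7
    refine ⟨by simpa using hv, sideb_list.2 ⟨hv, ?_, ?_, a4, a5, a6⟩⟩
    · exact List.forall_mem_cons.2 ⟨(sideb_cj hv).2 a1, sideb_map hv a2⟩
    · exact List.forall_mem_append.2 ⟨sideb_map hv a3, by simpa using hv⟩

theorem mv_aR : MvOk H .aR := by
  rintro ⟨p, O1, I1, O2, I2, q⟩ a b c0 cs L w ⟨l1, l2, l3, l4⟩ hs h
  simp only at l1 l2 l3 l4
  have e1 : St.list ⟨p, O1, I1, O2, I2, q⟩ = (p :: (O1 ++ I1)) ++ (O2 ++ I2 ++ [q]) := by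
    simp [St.list]
  have hl : (p :: (O1 ++ I1)).length = 1 + 2 * a := by
    simp only [List.length_cons, List.length_append]
    omega
  rw [mvWord, List.cons_append, e1, Run.cre_iff _ _ hl] at h
  obtain ⟨u, cs', rfl, h⟩ := h
  rw [show (grpSys H).dual u = u⁻¹ from rfl] at h
  have h2 := (run_bx_ov (p :: (O1 ++ I1) ++ [u]) [u⁻¹] (O2 ++ I2 ++ [q]) [] (p := 2 + 2 * a)
    (n := 2 * b + 1) (by
      rw [List.length_append, hl, List.length_singleton]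
      omega) rfl (by
      simp only [List.length_singleton, List.length_append]
      omega)).1 (by simpa using h)
  rw [grp_o, List.prod_singleton, inv_inv] at h2
  refine ⟨⟨p, O1, I1, u :: O2.map fun x => u⁻¹ * x * u,
    (I2.map fun x => u⁻¹ * x * u) ++ [u⁻¹ * q * u], u⁻¹⟩, [u], cs', rfl,
    by simp [St.Len, Mv.da, Mv.db, l1, l2, l3, l4], hs.transfer fun γ1 γ2 m1 m2 => ?_,
    by simpa [St.list] using h2⟩
  obtain ⟨m3, e⟩ := m2.cons
  have e2 : u⁻¹ = (u * γ2 * u⁻¹)⁻¹⁻¹ * q * (u * γ2 * u⁻¹)⁻¹ := by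
    have e3 : q = u * (γ2⁻¹ * u * γ2)⁻¹ * u⁻¹ := by
      rw [← e]
      group
    rw [e3]
    group
  have k : ∀ S : Subgroup H, q ∈ S → u * γ2 * u⁻¹ ∈ S → u ∈ S := fun S h1 h3 =>
    S.inv_mem_iff.1 (e2 ▸ (sideb_cj (S.inv_mem h3)).2 h1)
  refine ⟨γ1, _, m1, m3.conj, fun S => ⟨?_, ?_⟩⟩
  · simp only [Bd, List.prod_cons, prod_conj']
    constructor
    · rintro ⟨h1, h2, h3, h4, h5, h6⟩
      have hu := k S h2 h4
      refine ⟨h1, S.inv_mem hu, h3, ?_, h5, S.mul_mem hu ((sideb_cj hu).2 h6)⟩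
      rwa [S.mul_mem_cancel_right (S.inv_mem hu), S.mul_mem_cancel_left hu] at h4
    · rintro ⟨h1, h2, h3, h4, h5, h6⟩
      have hu := S.inv_mem_iff.1 h2
      have h7 := S.mul_mem (S.mul_mem hu h4) h2
      rw [S.mul_mem_cancel_left hu, sideb_cj hu] at h6
      exact ⟨h1, (sideb_cj (S.inv_mem h7)).1 (e2 ▸ h2), h3, h7, h5, h6⟩
  · rintro ⟨-, h2, -, h4, -⟩
    have hu := k S h2 h4
    refine ⟨fun h7 => ?_, Or.inl (sideb_refl _ _), Or.inr ⟨_, S.inv_mem h4, Or.inl e2⟩⟩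
    obtain ⟨a1, a2, a3, a4, a5, a6⟩ := sideb_list.1 h7
    refine ⟨by simpa using hu, sideb_list.2 ⟨a1, a2, a3, ?_, ?_, S.inv_mem hu⟩⟩
    · exact List.forall_mem_cons.2 ⟨hu, sideb_map hu a4⟩
    · exact List.forall_mem_append.2 ⟨sideb_map hu a5,
        List.forall_mem_singleton.2 ((sideb_cj hu).2 a6)⟩

theorem mv_bL : MvOk H .bL := by
  rintro ⟨p, O1, I1, O2, I2, q⟩ a b c0 cs L w ⟨l1, l2, l3, l4⟩ hs h
  simp only at l1 l2 l3 l4
  rw [mvWord, List.append_assoc] at h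
  have h1 := (run_bx_un [] [p] O1 (I1 ++ O2 ++ I2 ++ [q]) rfl rfl l1).1
    (by simpa [St.list] using h)
  rw [grp_u, List.map_singleton] at h1
  obtain ⟨v, e⟩ : ∃ v, v = O1.prod⁻¹ * p * O1.prod := ⟨_, rfl⟩
  rw [← e] at h1
  have h2 := (run_bx_un [] O1 [v] (I1 ++ O2 ++ I2 ++ [q]) rfl l1 rfl).1 h1
  rw [grp_u, List.prod_singleton] at h2
  refine ⟨⟨v, O1.map fun x => v⁻¹ * x * v, I1, O2, I2, q⟩, [], cs, rfl,
    by simp [St.Len, Mv.da, Mv.db, l1, l2, l3, l4], hs.transfer fun γ1 γ2 m1 m2 => ?_,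
    by simpa [St.list] using h2⟩
  have m3 : Mt (v * γ1 * 1⁻¹) O1 I1 := Mt.conj (by simpa using m1)
  rw [inv_one, mul_one] at m3
  refine ⟨_, γ2, m3, m2, fun S => ⟨?_, ?_⟩⟩
  · simp only [Bd, prod_conj']
    constructor
    · rintro ⟨h1, h2, h3, h4, h5, h6⟩
      have hv : v ∈ S := e ▸ (sideb_cj h5).2 h1
      exact ⟨hv, h2, (S.mul_mem_cancel_left hv).1 h3, h4, (sideb_cj hv).2 h5, h6⟩
    · rintro ⟨h1, h2, h3, h4, h5, h6⟩
      rw [sideb_cj h1] at h5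
      exact ⟨(sideb_cj h5).1 (e ▸ h1), h2, S.mul_mem h1 h3, h4, h5, h6⟩
  · rintro ⟨h1, -, -, -, h5, -⟩
    have hv : v ∈ S := e ▸ (sideb_cj h5).2 h1
    refine ⟨fun h7 => ?_, Or.inl ⟨_, h5, Or.inl e⟩, Or.inr (sideb_refl _ _)⟩
    obtain ⟨-, a2, a3, a4, a5, a6⟩ := sideb_list.1 h7
    exact ⟨by simp, sideb_list.2 ⟨hv, sideb_map hv a2, a3, a4, a5, a6⟩⟩

end RankGenus
end

-- merged part: Pool.Agent.Work.MP_c146e2_gt.SideC
section
/-! The other three moves. -/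

set_option autoImplicit false

namespace RankGenus

open Kind

variable {H : Type} [Group H]

theorem sidec_mem {S : Subgroup H} {c : H} (hc : c ∈ S) (x : H) : c⁻¹ * x * c ∈ S ↔ x ∈ S := by
  rw [S.mul_mem_cancel_right hc, S.mul_mem_cancel_left (S.inv_mem hc)]

theorem sidec_mem' {S : Subgroup H} {c : H} (hc : c ∈ S) (x : H) : c * x * c⁻¹ ∈ S ↔ x ∈ S := by
  rw [S.mul_mem_cancel_right (S.inv_mem hc), S.mul_mem_cancel_left hc]

theorem sidec_map {S : Subgroup H} {c : H} (hc : c ∈ S) {B : List H} (h : ∀ x ∈ B, x ∈ S) :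
    ∀ x ∈ B.map fun x => c⁻¹ * x * c, x ∈ S := by
  intro x hx
  obtain ⟨y, hy, rfl⟩ := List.mem_map.1 hx
  exact (sidec_mem hc y).2 (h y hy)

theorem sidec_list {S : Subgroup H} (s : St H) : (∀ x ∈ s.list, x ∈ S) ↔ s.p ∈ S ∧
    (∀ x ∈ s.O1, x ∈ S) ∧ (∀ x ∈ s.I1, x ∈ S) ∧ (∀ x ∈ s.O2, x ∈ S) ∧ (∀ x ∈ s.I2, x ∈ S) ∧
      s.q ∈ S := by
  simp only [St.list, List.forall_mem_cons, List.forall_mem_append, and_assoc, List.not_mem_nil,
    false_imp_iff, implies_true, and_true]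

theorem sidec_cj (S : Subgroup H) (x : H) : Cj S x x := ⟨1, S.one_mem, Or.inl (by group)⟩

/-- The two end points are exchanged. -/
theorem sidec_swap {s : St H} {a b : ℕ} {c0 cs L : List H} {w : Word} (hl : s.Len a b)
    (hi : SInv s c0) {p' q' : H} (h1 : ∀ S : Subgroup H, s.p ∈ S ∧ s.q ∈ S ↔ p' ∈ S ∧ q' ∈ S)
    (h2 : ∀ S : Subgroup H, s.p ∈ S → s.q ∈ S →
      (Cj S s.p p' ∨ Cj S s.q p') ∧ (Cj S s.p q' ∨ Cj S s.q q'))
    (hr : Run (grpSys H) ((bundSys (grpSys H)).o [s.p] (s.O1 ++ s.I1 ++ s.O2 ++ s.I2) ++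
      p' :: q' :: []) (bx un 0 (2 * a + 2 * b) 1 ++ w) cs L) :
    ∃ (s' : St H) (c1 cs' : List H), cs = c1 ++ cs' ∧ s'.Len a b ∧
      SInv s' (c0 ++ c1) ∧ Run (grpSys H) s'.list w cs' L := by
  obtain ⟨l1, l2, l3, l4⟩ := hl
  have hr2 := (run_bx_un (S := grpSys H) (w := w) (cs := cs) (M := L) []
    ((bundSys (grpSys H)).o [s.p] (s.O1 ++ s.I1 ++ s.O2 ++ s.I2)) [p'] [q'] rfl
    (m := 2 * a + 2 * b) (by simp [grp_o]; omega) rfl).1 (by simpa using hr)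
  rw [grp_u, grp_o, List.map_map] at hr2
  have e : ((fun x => [p'].prod⁻¹ * x * [p'].prod) ∘ fun x => [s.p].prod * x * [s.p].prod⁻¹) =
      fun x => (s.p⁻¹ * p')⁻¹ * x * (s.p⁻¹ * p') := by
    funext x
    simp only [Function.comp, List.prod_cons, List.prod_nil, mul_one]
    group
  rw [e] at hr2
  have hc : ∀ S : Subgroup H, s.p ∈ S → s.q ∈ S → s.p⁻¹ * p' ∈ S := fun S hp hq =>
    S.mul_mem (S.inv_mem hp) ((h1 S).1 ⟨hp, hq⟩).1
  generalize s.p⁻¹ * p' = c at hr2 hc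
  refine ⟨⟨p', s.O1.map fun x => c⁻¹ * x * c, s.I1.map fun x => c⁻¹ * x * c,
    s.O2.map fun x => c⁻¹ * x * c, s.I2.map fun x => c⁻¹ * x * c, q'⟩, [], cs, rfl,
    by simp [St.Len, l1, l2, l3, l4], hi.transfer fun γ1 γ2 m1 m2 =>
      ⟨_, _, m1.conj, m2.conj, fun S => ⟨?_, fun hb => ⟨fun h => ⟨by simp, ?_⟩, h2 S hb.1 hb.2.1⟩⟩⟩,
    by simpa [St.list] using hr2⟩
  · simp only [Bd, prod_conj']
    rw [← and_assoc, ← and_assoc (a := p' ∈ S), ← h1]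
    refine and_congr_right fun h => ?_
    simp only [sidec_mem (hc S h.1 h.2), sidec_mem' (hc S h.1 h.2)]
  · have h3 := hc S hb.1 hb.2.1
    have h4 := (h1 S).1 ⟨hb.1, hb.2.1⟩
    rw [sidec_list] at h ⊢
    exact ⟨h4.1, sidec_map h3 h.2.1, sidec_map h3 h.2.2.1, sidec_map h3 h.2.2.2.1,
      sidec_map h3 h.2.2.2.2.1, h4.2⟩

theorem sidec_first {s : St H} {a b : ℕ} {cs L : List H} {w : Word} (hl : s.Len a b)
    (hr : Run (grpSys H) s.list (bx ov 0 1 (2 * a + 2 * b) ++ w) cs L) :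
    ((bundSys (grpSys H)).o [s.p] (s.O1 ++ s.I1 ++ s.O2 ++ s.I2)).length = 2 * a + 2 * b ∧
    Run (grpSys H) ((bundSys (grpSys H)).o [s.p] (s.O1 ++ s.I1 ++ s.O2 ++ s.I2) ++
      s.p :: s.q :: []) w cs L := by
  obtain ⟨l1, l2, l3, l4⟩ := hl
  refine ⟨by simp [grp_o]; omega, ?_⟩
  simpa using (run_bx_ov (S := grpSys H) (w := w) (cs := cs) (M := L) [] [s.p]
    (s.O1 ++ s.I1 ++ s.O2 ++ s.I2) [s.q] rfl rfl (n := 2 * a + 2 * b) (by simp; omega)).1 hr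

theorem mv_bR : MvOk H .bR := by
  intro s a b c0 cs L w ⟨l1, l2, l3, l4⟩ hi hr
  have hp : (s.p :: (s.O1 ++ s.I1 ++ s.O2)).length = 1 + 2 * a + b := by
    simp
    omega
  rw [mvWord, List.append_assoc] at hr
  have h1 := (run_bx_un (S := grpSys H) (cs := cs) (M := L) (w := bx un (1 + 2 * a + b) 1 b ++ w)
    _ s.I2 [s.q] [] hp l4 rfl).1 (by simpa [St.list] using hr)
  rw [grp_u, List.prod_singleton] at h1
  have h2 := (run_bx_un _ [s.q] _ [] hp rfl (by rw [List.length_map, l4])).1 h1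
  rw [grp_u] at h2
  refine ⟨⟨s.p, s.O1, s.I1, s.O2, s.I2.map fun x => s.q⁻¹ * x * s.q,
    (s.I2.map fun x => s.q⁻¹ * x * s.q).prod⁻¹ * s.q * (s.I2.map fun x => s.q⁻¹ * x * s.q).prod⟩,
    [], cs, rfl, ⟨l1, l2, l3, by rw [List.length_map]; exact l4⟩,
    hi.transfer fun γ1 γ2 m1 m2 => ⟨γ1, 1 * γ2 * s.q⁻¹, m1, Mt.conj (by simpa using m2),
      fun S => ?_⟩, by simpa [St.list] using h2⟩
  have hJ : γ2 ∈ S → s.O2.prod ∈ S → (s.I2.map fun x => s.q⁻¹ * x * s.q).prod ∈ S :=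
    fun g1 g2 => by
      rw [m2.prod]
      exact (sidec_mem g1 _).2 (S.inv_mem g2)
  have hg : Bd s γ1 (1 * γ2 * s.q⁻¹) S → γ2 ∈ S := fun h => by
    simpa using S.mul_mem h.2.2.2.1 h.2.1
  refine ⟨⟨fun h => ⟨h.1, (sidec_mem (hJ (hg h) h.2.2.2.2.2) _).2 h.2.1, h.2.2.1, hg h, h.2.2.2.2⟩,
    fun h => ?_⟩, fun hb => ⟨fun h => ⟨by simp, ?_⟩, Or.inl (sidec_cj S _),
      Or.inr ⟨_, hJ (hg hb) hb.2.2.2.2.2, Or.inl rfl⟩⟩⟩
  · have hq := (sidec_mem (hJ h.2.2.2.1 h.2.2.2.2.2) _).1 h.2.1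
    exact ⟨h.1, hq, h.2.2.1, S.mul_mem (S.mul_mem S.one_mem h.2.2.2.1) (S.inv_mem hq), h.2.2.2.2⟩
  · rw [sidec_list] at h ⊢
    exact ⟨h.1, h.2.1, h.2.2.1, h.2.2.2.1, sidec_map hb.2.1 h.2.2.2.2.1,
      (sidec_mem (hJ (hg hb) hb.2.2.2.2.2) _).2 hb.2.1⟩

theorem mv_sP : MvOk H .sP := by
  intro s a b c0 cs L w hl hi hr
  rw [mvWord, List.append_assoc] at hr
  obtain ⟨h1, h2⟩ := sidec_first hl hr
  refine sidec_swap hl hi (p' := s.p * s.q * s.p⁻¹) (q' := s.p) (fun S => ?_)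
    (fun S hp _ => ⟨Or.inr ⟨s.p⁻¹, S.inv_mem hp, Or.inl (by group)⟩, Or.inl (sidec_cj S _)⟩)
    ((Run.ov_iff _ _ _ _ h1).1 h2)
  rw [and_comm (b := s.p ∈ S)]
  exact and_congr_right fun h => (sidec_mem' h _).symm

theorem mv_sM : MvOk H .sM := by
  intro s a b c0 cs L w hl hi hr
  rw [mvWord, List.append_assoc] at hr
  obtain ⟨h1, h2⟩ := sidec_first hl hr
  refine sidec_swap hl hi (p' := s.q) (q' := s.q⁻¹ * s.p * s.q) (fun S => ?_)
    (fun S _ hq => ⟨Or.inr (sidec_cj S _), Or.inl ⟨s.q, hq, Or.inl rfl⟩⟩)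
    ((Run.un_iff _ _ _ _ h1).1 h2)
  rw [and_comm]
  exact and_congr_right fun h => (sidec_mem h _).symm

end RankGenus
end

-- merged part: Pool.Agent.Work.MP_c146e2_gt.Side
section
/-! The invariant holds after any list of moves. -/

set_option autoImplicit false

namespace RankGenus

open Kind

variable {H : Type} [Group H]

theorem side_mv (m : Mv) : MvOk H m := by
  cases m
  exacts [mv_aL, mv_aR, mv_bL, mv_bR, mv_sP, mv_sM]

theorem side_ind (ms : List Mv) {L : List H} : ∀ (s : St H) (a b : ℕ) (c0 cs : List H),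
    s.Len a b → SInv s c0 → Run (grpSys H) s.list (mvsWord ms a b) cs L →
    ∃ s' : St H, L = s'.list ∧ s'.Len (a + (ms.map Mv.da).sum) (b + (ms.map Mv.db).sum) ∧
      SInv s' (c0 ++ cs) := by
  induction ms with
  | nil =>
    intro s a b c0 cs hl hs h
    obtain ⟨rfl, rfl⟩ := Run.nil_iff.1 h
    exact ⟨s, rfl, hl, by rwa [List.append_nil]⟩
  | cons m ms ih =>
    intro s a b c0 cs hl hs h
    obtain ⟨s', c1, cs', rfl, h1, h2, h3⟩ := side_mv m s a b c0 cs L _ hl hs h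
    simpa only [List.map_cons, List.sum_cons, add_assoc, List.append_assoc] using
      ih s' _ _ _ _ h1 h2 h3

theorem side_inv (ms : List Mv) {cs L : List H} (h : Run (grpSys H) [] (side ms) cs L) :
    ∃ s : St H, L = s.list ∧ s.Len (ms.map Mv.da).sum (ms.map Mv.db).sum ∧ SInv s cs := by
  obtain ⟨x, cs', rfl, h1⟩ := (Run.cre_iff [] [] rfl).1 h
  have h0 : SInv (⟨x, [], [], [], [], x⁻¹⟩ : St H) [x] := fun γ1 γ2 _ _ => by
    have hx : x ∈ Subgroup.closure {x, γ1, γ2} := Subgroup.subset_closure (by simp)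
    refine ⟨fun S b => ⟨by simpa using b.1, by simpa [St.list] using b.1⟩, x, γ1, γ2,
      ⟨hx, inv_mem hx, Subgroup.subset_closure (by simp), Subgroup.subset_closure (by simp),
        one_mem _, one_mem _⟩, ⟨1, one_mem _, .inl (by simp)⟩, 1, one_mem _, .inr (by simp)⟩
  simpa using side_ind ms _ 0 0 [x] cs' ⟨rfl, rfl, rfl, rfl⟩ h0 h1

/-- Three generators, one of them the given end of the arc. -/
theorem SInv.gen {s : St H} {cs : List H} (h : SInv s cs) {γ1 γ2 : H} (h1 : Mt γ1 s.O1 s.I1)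
    (h2 : Mt γ2 s.O2 s.I2) : ∃ y1 y2 : H, ∀ S : Subgroup H, s.p ∈ S → y1 ∈ S → y2 ∈ S →
      Bd s γ1 γ2 S := by
  obtain ⟨-, x, y1, y2, hB, ⟨g, hg, hp⟩, -⟩ := h γ1 γ2 h1 h2
  refine ⟨g⁻¹ * y1 * g, g⁻¹ * y2 * g, fun S a1 a2 a3 => ?_⟩
  have h3 : Subgroup.closure {x, y1, y2} ≤ S.comap (MulAut.conj g⁻¹).toMonoidHom := by
    rw [Subgroup.closure_le]
    rintro z (rfl | rfl | rfl)
    · rcases hp with e | e
      · simpa [e] using a1
      · simpa [e, mul_assoc] using inv_mem a1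
    · simpa using a2
    · simpa using a3
  have h4 : g ∈ S := by simpa using h3 hg
  have h5 : Subgroup.closure {x, y1, y2} ≤ S := fun z hz => by
    simpa [mul_assoc] using mul_mem (mul_mem h4 (h3 hz)) (inv_mem h4)
  exact ⟨h5 hB.1, h5 hB.2.1, h5 hB.2.2.1, h5 hB.2.2.2.1, h5 hB.2.2.2.2.1, h5 hB.2.2.2.2.2⟩

end RankGenus
end
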