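import Pool.Agent.Work.MP_c146e2_gt.GenA
import Pool.Agent.Work.MP_c146e2_gt.Side

/-! Generators for the example. -/

set_option autoImplicit false

namespace RankGenus

open Kind

section
variable {H : Type} [Group H]

/-- The part of the diagram after the two sides. -/
theorem gent_mid {O1 I1 O2 I2 O3 I3 cs L : List H} {q : H} (h1 : O1.length = 2)
    (h2 : I1.length = 2) (h3 : O2.length = 2) (h4 : I2.length = 2) (h5 : O3.length = 2)
    (h6 : I3.length = 2)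
    (h : Run (grpSys H) (O1 ++ I1 ++ (O2 ++ I2) ++ O3 ++ (I3 ++ [q])) mid cs L) :
    ∃ a c d : H, a * c * a = c * a * c ∧ d = (O2 ++ I2).prod * O3.prod * (O2 ++ I2).prod⁻¹ ∧
      a = I1.prod * (d * O2.prod * d⁻¹) ∧ Mt ((a * c) ^ 3 * a⁻¹) O1 I1 ∧
      Mt (d⁻¹ * ((a * c) ^ 3 * a⁻¹) * d)⁻¹ O2 I2 ∧ Mt (O2 ++ I2).prod⁻¹ O3 I3 ∧
      ∀ S : Subgroup H, (∀ x ∈ I1, x ∈ S) → (∀ x ∈ O2, x ∈ S) → d ∈ S → c ∈ S →
        ∀ x ∈ cs, x ∈ S := by
  have e : mid = bx ov 4 4 2 ++ (bx ov 4 2 4 ++ (nann 8 2 ++ (shift 2 (cable 4 tref) ++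
      (nann 4 2 ++ (nann 0 2 ++ []))))) := by simp [mid]
  rw [e, run_bx_ov _ _ _ _ (by simp [h1, h2]) (by simp [h3, h4]) h5, grp_o] at h
  obtain ⟨A, hA⟩ : ∃ A, A = O3.map fun b => (O2 ++ I2).prod * b * (O2 ++ I2).prod⁻¹ := ⟨_, rfl⟩
  have hAl : A.length = 2 := by simp [hA, h5]
  obtain ⟨d, hd⟩ : ∃ d, d = A.prod := ⟨_, rfl⟩
  rw [← hA, run_bx_ov _ _ _ _ (by simp [h1, h2]) hAl (by simp [h3, h4]), grp_o, ← hd,
    ← List.append_assoc, run_nann _ _ _ _ (by simp [h1, h2, h3, h4]) hAl h6] at h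
  obtain ⟨k3, h⟩ := h
  obtain ⟨B, hB⟩ : ∃ B, B = I1 ++ O2.map fun b => d * b * d⁻¹ := ⟨_, rfl⟩
  have hBl : B.length = 4 := by simp [hB, h2, h3]
  have e2 : O1 ++ I1 ++ (O2 ++ I2).map (fun b => d * b * d⁻¹) ++ [q] =
      O1 ++ B ++ (I2.map (fun b => d * b * d⁻¹) ++ [q]) := by simp [hB]
  rw [e2] at h
  obtain ⟨M, c1, c2, rfl, hc, h⟩ := Run.of_mid O1 _ h1
    (n := 4) (by rw [hBl]; exact isKnot_tref.width_cable 4) h
  obtain ⟨cb, hb⟩ := isKnot_tref.1
  obtain ⟨ccs, MM, hr, rfl, rfl, -, -⟩ := of_cable (k := 4) hb (LL := [B]) rfl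
    (by simpa using hBl) (by simpa using hc)
  obtain ⟨c, hbr, rfl, hS⟩ := tref_bund hr
  obtain ⟨m, hm⟩ : ∃ m, m = (B.prod * c) ^ 3 * B.prod⁻¹ := ⟨_, rfl⟩
  rw [← hm] at h
  have e3 : O1 ++ [B.map fun x => m * x * m⁻¹].flatten ++ (I2.map (fun b => d * b * d⁻¹) ++ [q]) =
      O1 ++ I1.map (fun x => m * x * m⁻¹) ++
        (O2.map fun b => d * b * d⁻¹).map (fun x => m * x * m⁻¹) ++
        I2.map (fun b => d * b * d⁻¹) ++ [q] := by simp [hB]
  rw [e3, run_nann _ _ _ _ (by simp [h1, h2]) (by simp [h3]) (by simp [h4])] at h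
  obtain ⟨k2, h⟩ := h
  rw [← List.nil_append O1, run_nann [] _ _ _ (p := 0) rfl h1 (by simp [h2]), Run.nil_iff] at h
  obtain ⟨k1, rfl, -⟩ := h
  refine ⟨B.prod, c, d, hbr, by rw [hd, hA, prod_conj], by rw [hB, List.prod_append, prod_conj],
    ?_, ?_, ?_, fun S s1 s2 s3 s4 x hx => ?_⟩
  · rw [← hm]
    have := congrArg (List.map fun x => m⁻¹ * x * m) k1
    rw [grp_dual] at this
    simp only [List.map_map, List.map_reverse, Function.comp_def] at this
    unfold Mt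
    convert this using 3
    · simp [mul_assoc]
    · group
  · rw [← hm]
    have := congrArg (List.map fun x => d⁻¹ * x * d) k2
    rw [grp_dual] at this
    simp only [List.map_map, List.map_reverse, Function.comp_def] at this
    unfold Mt
    convert this using 3
    · simp [mul_assoc]
    · group
  · rw [grp_dual, hA] at k3
    unfold Mt
    rw [k3, List.map_map]
    simp [Function.comp_def]
  · rw [List.append_nil] at hx
    obtain ⟨C, hC, hx⟩ := List.mem_flatten.1 hx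
    refine hS S (fun y hy => ?_) s4 C hC x hx
    rw [hB] at hy
    rcases List.mem_append.1 hy with hy | hy
    · exact s1 y hy
    · obtain ⟨z, hz, rfl⟩ := List.mem_map.1 hy
      exact mul_mem (mul_mem s3 (s2 z hz)) (inv_mem s3)

end

theorem gen_T1 : Gen T1 3 := by
  intro H _ μ cs L h
  obtain ⟨M1, c1, c2, rfl, h1, h⟩ := Run.of_mid (L := []) [μ] [] (p := 1) (n := 10) rfl
    (show width 0 (side ms1) = some 10 by decide +kernel) h
  obtain ⟨s, rfl, ⟨l1, l2, l3, l4⟩, hs⟩ := side_inv ms1 h1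
  replace l1 : s.O1.length = 2 := l1
  replace l2 : s.I1.length = 2 := l2
  replace l3 : s.O2.length = 2 := l3
  replace l4 : s.I2.length = 2 := l4
  have e1 : [μ] ++ s.list ++ [] =
      [] ++ μ :: s.p :: (s.O1 ++ s.I1 ++ s.O2 ++ s.I2 ++ [s.q] ++ [] ++ []) := by simp [St.list]
  rw [e1, Run.ann_iff [] _ _ _ (p := 0) rfl, List.nil_append] at h
  obtain ⟨hp, h⟩ := h
  obtain ⟨M2, c3, c4, rfl, h2, h⟩ := Run.of_mid (L := []) _ [] (p := 9) (n := 6)
    (by simp [l1, l2, l3, l4]) (show width 0 (side ms2) = some 6 by decide +kernel) h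
  obtain ⟨s', rfl, ⟨l5, l6, l7, l8⟩, hs'⟩ := side_inv ms2 h2
  replace l5 : s'.O1.length = 2 := l5
  replace l6 : s'.I1.length = 2 := l6
  replace l7 : s'.O2 = [] := List.length_eq_zero_iff.1 l7
  replace l8 : s'.I2 = [] := List.length_eq_zero_iff.1 l8
  have hprod : s'.list.prod = 1 := h2.prod_eq
  have e2 : s.O1 ++ s.I1 ++ s.O2 ++ s.I2 ++ [s.q] ++ s'.list ++ [] =
      (s.O1 ++ s.I1 ++ (s.O2 ++ s.I2)) ++ s.q :: s'.p :: (s'.O1 ++ (s'.I1 ++ [s'.q])) := by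
    simp [St.list, l7, l8]
  rw [e2, Run.ann_iff _ _ _ _ (by simp [l1, l2, l3, l4]), ← List.append_assoc] at h
  obtain ⟨hq, h⟩ := h
  obtain ⟨a, c, d, hbr, hd, ha, m1, m2, m3, hbox⟩ := gent_mid l1 l2 l3 l4 l5 l6 h
  obtain ⟨y1, y2, hy⟩ := hs.gen m1 m2
  obtain ⟨g, hg⟩ := trick hbr d
  refine ⟨[y1, y2, g], rfl, fun S hμ hS x hx => ?_⟩
  have hpS : s.p ∈ S := by
    rw [hp]
    exact inv_mem hμ
  have hB := hy S hpS (hS _ (by simp)) (hS _ (by simp))
  obtain ⟨hc1, hl⟩ := (hs _ _ m1 m2).1 S hB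
  obtain ⟨-, b2, b3, b4, -, b6⟩ := hB
  obtain ⟨hdS, hcS⟩ := hg S b3 (by simpa using inv_mem b4) (hS _ (by simp))
  have hI1 : ∀ z ∈ s.I1, z ∈ S := fun z hz => hl z (by simp [St.list, hz])
  have hO2 : ∀ z ∈ s.O2, z ∈ S := fun z hz => hl z (by simp [St.list, hz])
  have hI2 : ∀ z ∈ s.I2, z ∈ S := fun z hz => hl z (by simp [St.list, hz])
  have hε : (s.O2 ++ s.I2).prod ∈ S := by
    rw [List.prod_append]
    exact mul_mem b6 (list_prod_mem hI2)
  have hδ : s'.O1.prod ∈ S := by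
    have : s'.O1.prod = (s.O2 ++ s.I2).prod⁻¹ * d * (s.O2 ++ s.I2).prod := by
      rw [hd]
      group
    rw [this]
    exact mul_mem (mul_mem (inv_mem hε) hdS) hε
  have hp' : s'.p ∈ S := by
    rw [hq]
    exact inv_mem b2
  have hq' : s'.q ∈ S := by
    have hI : s'.I1.prod ∈ S := by
      rw [m3.prod]
      exact mul_mem (mul_mem (inv_mem (inv_mem hε)) (inv_mem hδ)) (inv_mem hε)
    have : s'.q = (s'.p * (s'.O1.prod * s'.I1.prod))⁻¹ := by
      refine eq_inv_of_mul_eq_one_right ?_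
      simpa [St.list, l7, l8, mul_assoc] using hprod
    rw [this]
    exact inv_mem (mul_mem hp' (mul_mem hδ hI))
  have m4 : Mt (1 : H) s'.O2 s'.I2 := by simp [Mt, l7, l8]
  have hc3 := ((hs' _ _ m3 m4).1 S ⟨hp', hq', inv_mem hε, one_mem _, hδ, by
    rw [l7]
    exact one_mem _⟩).1
  have haS : a ∈ S := by
    rw [ha]
    exact mul_mem (list_prod_mem hI1) (mul_mem (mul_mem hdS b6) (inv_mem hdS))
  rcases List.mem_append.1 hx with hx | hx
  · exact hc1 x hx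
  rcases List.mem_append.1 hx with hx | hx
  · exact hc3 x hx
  · exact hbox S hI1 hO2 hdS (hcS haS) x hx

theorem gen_T0 : Gen T0 36 := by
  have h : ∀ N, Gen (List.replicate N T1).flatten (3 * N) := by
    intro N
    induction N with
    | zero => exact gen_nil
    | succ N ih =>
      rw [List.replicate_succ, List.flatten_cons, show 3 * (N + 1) = 3 + 3 * N by ring]
      exact Gen.append isKnot_T1 gen_T1 ih
  exact Gen.append (isKnot_T1.pow 12) (h 12) gen_kink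

end RankGenus
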