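import Pool.Agent.Work.MP_c146e2_gt.PosA

/-! One slice of a marked graph. -/

set_option autoImplicit false

namespace RankGenus

open Cy Kind

/-- The total charges on the coloured strands. -/
def posbFl (c : List B2) : List Bool := (c.filter Prod.fst).map Prod.snd

theorem posbFl_append (c d : List B2) : posbFl (c ++ d) = posbFl c ++ posbFl d := by
  simp [posbFl]

theorem posb_cols_append (c d : List B2) : cols (c ++ d) = cols c ++ cols d := by
  simp [cols]

theorem posb_cols_length (c : List B2) : (cols c).length = c.length := by
  simp [cols]

theorem posb_lift_eq (m : List Bool) (g : List Bool → Cy) (c : List B2) :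
    lift m g c = if cols c = m then g (posbFl c) else 0 := rfl

theorem posb_lift_cons (x : Bool) (m : List Bool) (g : List Bool → Cy) (s : B2) (t : List B2) :
    lift (x :: m) g (s :: t) =
      if s.1 = x then lift m (if s.1 then fun u => g (s.2 :: u) else g) t else 0 := by
  obtain ⟨s1, s2⟩ := s
  cases s1 <;> cases x <;> simp [lift, cols]

/-- The outcomes of the local picture of the link. -/
def posbOut (k' : Option Kind) (l : Bool) (v : List Bool) : List (Cy × List Bool) :=
  match k' with
  | none => [(1, v)]
  | some y => sysU.rule y l v

def posbLen (k' : Option Kind) (v : List Bool) : Bool :=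
  match k' with
  | none => true
  | some y => v.length == y.inn

theorem posb_check : (marks.all fun q => q.2.1.length == q.1.inn &&
    eB.all fun l => (allL eB2 q.1.inn).all fun loc =>
      !(cols loc == q.2.1 && (sysC q.2.1 q.2.2.1).adm l loc) ||
        (posbLen q.2.2.2 (posbFl loc) &&
          sameB 1 (((sysC q.2.1 q.2.2.1).rule q.1 l loc).map fun p => (p.1, posbFl p.2))
            (posbOut q.2.2.2 l (posbFl loc)))) = true := by decide +kernel

theorem posb_local {k : Kind} {a b : List Bool} {k' : Option Kind} (hm : (k, a, b, k') ∈ marks) :
    a.length = k.inn ∧ ∀ (l : Bool) (loc : List B2), loc.length = k.inn → cols loc = a →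
      (sysC a b).adm l loc = true → posbLen k' (posbFl loc) = true ∧
        ∀ G : List Bool → Cy, pair ((sysC a b).rule k l loc) (fun u => G (posbFl u)) =
          pair (posbOut k' l (posbFl loc)) G := by
  have h := List.all_eq_true.1 posb_check _ hm
  simp only [Bool.and_eq_true, beq_iff_eq] at h
  refine ⟨h.1, fun l loc hl hc ha => ?_⟩
  have h2 := List.all_eq_true.1 (List.all_eq_true.1 h.2 l (mem_eB l)) loc
    (hl ▸ mem_allL mem_eB2 loc)
  simp only [hc, ha, beq_self_eq_true, Bool.and_self, Bool.not_true, Bool.false_or,
    Bool.and_eq_true] at h2
  refine ⟨h2.1, fun G => ?_⟩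
  have h3 := pair_of_sameB h2.2 G
  rw [one_mul, pair_map] at h3
  exact h3

theorem posb_rule_cols {k : Kind} {a b : List Bool} {l : Bool} {loc : List B2}
    {p : Cy × List B2} (hp : p ∈ (sysC a b).rule k l loc) : cols loc = a ∧ cols p.2 = b := by
  simp only [sysC] at hp
  split_ifs at hp with h
  · exact ⟨h, by simpa using (List.mem_filter.1 hp).2⟩
  · simp at hp

theorem posb_act_zero {σ Λ : Type} (S : LS σ Λ) (k : Kind) (l : Λ) (loc t : List σ)
    (h : loc.length = k.inn) (f : List σ → Cy) :
    S.step (k, 0) l f (loc ++ t) = pair (S.rule k l loc) fun u => f (u ++ t) := by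
  have h1 : k.inn ≤ (loc ++ t).length := by simp [← h]
  simp only [LS.step, LS.act, if_pos h1]
  rw [← h, List.take_left, List.drop_left]
  exact pair_map _ (fun u => u ++ t) f

theorem posb_back_zero (k' : Option Kind) (l : Bool) (g : List Bool → Cy) (v w : List Bool)
    (h : posbLen k' v = true) :
    sysU.back (k'.toList.map fun x => (x, 0)) l g (v ++ w) =
      pair (posbOut k' l v) fun u => g (u ++ w) := by
  cases k' with
  | none => simp [LS.back, posbOut]
  | some y =>
    simp only [posbLen, beq_iff_eq] at h
    simp only [Option.toList_some, List.map_cons, List.map_nil, LS.back, posbOut]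
    exact posb_act_zero sysU y l v w h g

theorem posb_nil {k : Kind} {a b : List Bool} {k' : Option Kind} (hm : (k, a, b, k') ∈ marks)
    (Q : List Bool) (l : Bool) (g : List Bool → Cy) (c : List B2)
    (hc : (sysC a b).adm l c = true) :
    (sysC a b).step (k, 0) l (lift (b ++ Q) g) c =
      lift (a ++ Q) (sysU.back (k'.toList.map fun x => (x, 0)) l g) c := by
  obtain ⟨hlen, hloc⟩ := posb_local hm
  by_cases hs : k.inn ≤ c.length
  · obtain ⟨loc, t, rfl, hl⟩ : ∃ loc t, c = loc ++ t ∧ loc.length = k.inn :=
      ⟨c.take k.inn, c.drop k.inn, (List.take_append_drop _ _).symm, by simp [hs]⟩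
    rw [posb_act_zero _ k l loc t hl, posb_lift_eq, posb_cols_append, posbFl_append]
    rw [LS.adm_append, Bool.and_eq_true] at hc
    have key : pair ((sysC a b).rule k l loc) (fun u => lift (b ++ Q) g (u ++ t)) =
        pair ((sysC a b).rule k l loc)
          fun u => (fun v => if cols t = Q then g (v ++ posbFl t) else 0) (posbFl u) := by
      refine pair_congr fun p hp => ?_
      have h2 := (posb_rule_cols hp).2
      simp only [posb_lift_eq, posb_cols_append, posbFl_append, h2, List.append_cancel_left_eq]
    rw [key]
    by_cases ha : cols loc = a
    · obtain ⟨h1, h2⟩ := hloc l loc hl ha hc.1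
      rw [h2 fun v => if cols t = Q then g (v ++ posbFl t) else 0, ha]
      by_cases hq : cols t = Q
      · simp only [hq, if_true]
        exact (posb_back_zero k' l g _ _ h1).symm
      · simp only [hq, if_false, List.append_cancel_left_eq]
        exact pair_zero _
    · have h1 : (sysC a b).rule k l loc = [] := by simp [sysC, ha]
      have h2 : ¬ cols loc ++ cols t = a ++ Q := fun h =>
        ha (List.append_inj h (by rw [posb_cols_length, hl, hlen])).1
      rw [h1, if_neg h2, pair_nil]
  · have h2 : ¬ cols c = a ++ Q := fun h => by
      have := congrArg List.length h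
      rw [posb_cols_length, List.length_append] at this
      omega
    rw [posb_lift_eq, if_neg h2]
    simp only [LS.step, LS.act, if_neg hs, pair_nil]

theorem posb_step_cons {σ Λ : Type} (S : LS σ Λ) (k : Kind) (i : ℕ) (l : Λ) (s : σ) (t : List σ)
    (f : List σ → Cy) :
    S.step (k, i + 1) l f (s :: t) = S.step (k, i) (S.pr s) (fun u => f (s :: u)) t := by
  simp only [LS.step, LS.act]
  exact pair_map _ (fun u => s :: u) f

theorem posb_back_cons (k' : Option Kind) (i : ℕ) (l x : Bool) (g : List Bool → Cy)
    (u : List Bool) :
    sysU.back (k'.toList.map fun y => (y, i + 1)) l g (x :: u) =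
      sysU.back (k'.toList.map fun y => (y, i)) x (fun v => g (x :: v)) u := by
  cases k' with
  | none => simp [LS.back]
  | some y =>
    simp only [Option.toList_some, List.map_cons, List.map_nil, LS.back]
    exact posb_step_cons sysU y i l x u g

theorem step_lift {k : Kind} {a b : List Bool} {k' : Option Kind} (hm : (k, a, b, k') ∈ marks)
    (Q : List Bool) : ∀ (P : List Bool) (l : Bool) (g : List Bool → Cy) (c : List B2),
      (sysC a b).adm l c = true →
      (sysC a b).step (k, P.length) l (lift (P ++ b ++ Q) g) c =
        lift (P ++ a ++ Q) (sysU.back (k'.toList.map fun x => (x, P.count true)) l g) c := by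
  intro P
  induction P with
  | nil =>
    intro l g c hc
    simpa using posb_nil hm Q l g c hc
  | cons x P ih =>
    intro l g c hc
    cases c with
    | nil => simp [LS.step, LS.act, lift, cols]
    | cons s t =>
      simp only [LS.adm, Bool.and_eq_true] at hc
      rw [List.length_cons, posb_step_cons]
      simp only [List.cons_append, posb_lift_cons]
      by_cases hx : s.1 = x
      · simp only [hx, if_true]
        have h1 := ih ((sysC a b).pr s) (if x = true then fun u => g (s.2 :: u) else g) t hc.2
        refine Eq.trans ?_ (h1.trans ?_)
        · rfl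
        · congr 1
          cases x with
          | true =>
            funext u
            simp only [if_true, List.count_cons_self]
            exact (posb_back_cons k' _ l s.2 g u).symm
          | false =>
            have h2 : s.2 = l := by
              have h3 := hc.1
              simp only [sysC, okC, hx] at h3
              simpa using h3
            simp [sysC, h2]
      · simp only [hx, if_false]
        exact pair_zero _

end RankGenus
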