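import Pool.Agent.Work.MP_c146e2_gt.LSb

/-! The Fibonacci tables.  A letter `(c, x)` is the colour `c` of a strand and the total charge
`x` of the strands up to it. -/

set_option autoImplicit false

namespace RankGenus

open Cy Kind

abbrev B2 : Type := Bool × Bool
abbrev B3 : Type := Bool × Bool × Bool

def annA (l y : Bool) : Cy := if y then 1 else if l then phi else 0

/-- Creation of a pair of coloured strands. -/
def creT (l : Bool) : List (Cy × List B2) :=
  if l then [(1, [(true, false), (true, true)]), (1, [(true, true), (true, true)])]
  else [(ph, [(true, true), (true, false)])]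

def splT (l z : Bool) : List (Cy × List B2) :=
  if l && z then [(1, [(true, false), (true, true)]), (-phi, [(true, true), (true, true)])]
  else if l || z then [(1, [(true, true), (true, z)])] else []

def mrgA (l y z : Bool) : Cy :=
  if l && z then (if y then -phi else phi) else if y then 1 else 0

def crossT (a b : Cy) (l : Bool) (s t : B2) : List (Cy × List B2) :=
  if s.1 && t.1 then
    if t.2 == l then
      if l then
        [((if s.2 then 0 else a) + b * annA l s.2, [(true, false), (true, true)]),
          ((if s.2 then a else 0) + b * annA l s.2, [(true, true), (true, true)])]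
      else [(a + b * ph, [(true, true), (true, false)])]
    else [(a, [s, t])]
  else [(1, [(t.1, if t.1 then t.2 else l), (s.1, t.2)])]

/-- All outcomes of a local picture, for all colours of the new strands. -/
def rc : Kind → Bool → List B2 → List (Cy × List B2)
  | cre, l, [] => (1, [(false, l), (false, l)]) :: creT l
  | ann, l, [s, t] =>
      if s.1 == t.1 && t.2 == l then [(if s.1 then annA l s.2 else 1, [])] else []
  | ov, l, [s, t] => crossT kA kB l s t
  | un, l, [s, t] => crossT kB kA l s t
  | spl, l, [s] =>
      if s.1 then (1, [(true, s.2), (false, s.2)]) :: (1, [(false, l), (true, s.2)]) :: splT l s.2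
      else if s.2 == l then (1, [(false, l), (false, l)]) :: creT l else []
  | mrg, l, [s, t] =>
      if s.1 && t.1 then
        (if t.2 == l then [(annA l s.2, [(false, l)])] else []) ++
          (if l || t.2 then [(mrgA l s.2 t.2, [(true, t.2)])] else [])
      else [(1, [(s.1 || t.1, t.2)])]
  | _, _, _ => []

def okC (l : Bool) (s : B2) : Bool := if s.1 then l || s.2 else s.2 == l

def cols (c : List B2) : List Bool := c.map Prod.fst

/-- The coloured model with prescribed colours above and below. -/
def sysC (ci co : List Bool) : LS B2 Bool :=
  ⟨Prod.snd, okC, fun k l a => if cols a = ci then (rc k l a).filter fun p => cols p.2 = co else []⟩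

/-- The Kauffman bracket at the tenth root of unity, on link diagrams. -/
def sysU : LS Bool Bool :=
  ⟨id, fun l x => l || x, fun k l a => if k = spl ∨ k = mrg then [] else
    ((rc k l (a.map fun x => (true, x))).filter fun p => (cols p.2).all id).map
      fun p => (p.1, p.2.map Prod.snd)⟩

/-- The model seen by the total charges of a doubled strand. -/
def sysE : LS B2 Bool :=
  ⟨Prod.snd, okC, fun k l a => if k = spl ∨ k = mrg then [] else
    (rc k l a).map fun p =>
      ((if k = cre ∧ cols p.2 = [false, false] then phi
        else if k = ann ∧ cols a = [false, false] then ph else 1) * p.1, p.2)⟩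

def wt : Kind → List Bool → List Bool → Cy
  | cre, _, [true, true] => ph
  | spl, _, [true, true] => ph
  | ann, [true, true], _ => phi
  | mrg, [true, true], [false] => phi
  | _, _, _ => 1

def xs (d : List B3) : List B2 := d.map fun a => (a.1, a.2.1)
def ys (d : List B3) : List B2 := d.map fun a => (a.1, a.2.2)
def zip3 (a b : List B2) : List B3 := List.zipWith (fun s t => (s.1, s.2, t.2)) a b

/-- The doubled model. -/
def sysD : LS B3 B2 :=
  ⟨Prod.snd, fun l a => okC l.1 (a.1, a.2.1) && okC l.2 (a.1, a.2.2), fun k l d =>
    (rc k l.1 (xs d)).flatMap fun p =>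
      ((rc k l.2 (ys d)).filter fun q => cols q.2 = cols p.2).map fun q =>
        (wt k (d.map Prod.fst) (cols p.2) * p.1 * bar q.1, zip3 p.2 q.2)⟩

def eB : List Bool := [false, true]
def eB2 : List B2 := [(false, false), (false, true), (true, false), (true, true)]
def eB3 : List B3 := eB.flatMap fun a => eB2.map fun b => (a, b)

theorem mem_eB : ∀ a, a ∈ eB := by decide
theorem mem_eB2 : ∀ a, a ∈ eB2 := by decide
theorem mem_eB3 : ∀ a, a ∈ eB3 := by decide

theorem wfU : sysU.WF := LS.wf_of_wfB mem_eB mem_eB (by decide +kernel)
theorem wfE : sysE.WF := LS.wf_of_wfB mem_eB mem_eB2 (by decide +kernel)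
theorem wfD : sysD.WF := LS.wf_of_wfB mem_eB2 mem_eB3 (by decide +kernel)

def evU (w : Word) : Cy := sysU.back w false (fun _ => 1) []
def evD (w : Word) : Cy := sysD.back w (false, false) (fun _ => 1) []

/-- The scalar of a long knot. -/
def scal (T : Word) : Cy := sysU.back T false (fun _ => 1) [true]

end RankGenus
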