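import Pool.Agent.Work.MP_c146e2_gt.CabA
import Pool.Agent.Work.MP_c146e2_gt.CabB

/-! The bracket of a two-fold parallel of a knot. -/

set_option autoImplicit false

namespace RankGenus

open Cy Kind

theorem IsKnot.back_scal {T : Word} (hT : IsKnot T) (f : List Bool → Cy) :
    sysU.back T false f [true] = scal T * f [true] := by
  rw [wfU.back_congr (c := [true]) (g := fun _ => f [true] * 1) hT.width rfl fun x h1 h2 _ => ?_,
    LS.back_mul, mul_comm, scal]
  obtain ⟨y, rfl⟩ := List.length_eq_one_iff.1 h1
  obtain rfl : y = true := h2
  exact (mul_one _).symm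

theorem IsKnot.cable_ev {T : Word} (hT : IsKnot T) (f : List Bool → Cy) :
    sysU.back (cable 2 T) false f [true, false] = f [true, false] ∧
      sysU.back (cable 2 T) false f [true, true] = scal T * f [true, true] := by
  obtain ⟨cs, hr⟩ := hT.1
  have p0 : ∀ g : List Bool → Cy, Phi false g [(false, false)] = ph * g [true, false] := fun g => by
    simp [Phi, exs, ex, creT]
  have p1 : ∀ g : List Bool → Cy, Phi false g [(true, true)] = g [true, true] := fun g => by
    simp [Phi, exs, ex, splT]
  constructor
  · have h1 := inter_word hr false f [(false, false)] rfl rfl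
    have h2 := backE_false T false (Phi false f) 1 1 ⟨cs, hr⟩ hT.2
    have h3 : na T = nc T := by
      have := hr.count.2
      simp only [List.length_singleton] at this
      omega
    rw [List.replicate_one, ← h1, h3, ← mul_pow, ph_mul_phi, one_pow, one_mul, p0, p0] at h2
    have h4 := congrArg (phi * ·) h2
    simpa only [← mul_assoc, mul_comm phi ph, ph_mul_phi, one_mul] using h4
  · have h1 := inter_word hr false f [(true, true)] rfl rfl
    have h2 := backE_true T false (Phi false f) [true] fun cs M hr x hx => by
      have h3 := Run.map (S' := boolSys) (Sys.closed_true _) not (fun _ _ => rfl)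
        (fun _ _ _ _ => rfl) (fun _ _ _ _ => rfl) hr (fun _ _ => trivial) fun _ _ => trivial
      simpa using hT.2 _ _ h3 _ (List.mem_map_of_mem hx)
    rw [List.map_singleton, ← h1, hT.back_scal, List.map_singleton, p1, p1] at h2
    exact h2

end RankGenus
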