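import Pool.Agent.Work.MP_c146e2_gt.RunB

/-! The explicit diagrams are knots. -/

set_option autoImplicit false

namespace RankGenus

open Kind

theorem isKnot_nil : IsKnot [] := by
  refine ⟨⟨[], Run.nil _⟩, ?_⟩
  intro cs L h c hc
  rw [Run.nil_iff] at h
  simp [h.1] at hc

theorem IsKnot.append {T T' : Word} (h : IsKnot T) (h' : IsKnot T') : IsKnot (T ++ T') := by
  obtain ⟨cs, hcs⟩ := h.1
  obtain ⟨ds, hds⟩ := h'.1
  refine ⟨⟨cs ++ ds, hcs.append hds⟩, ?_⟩
  intro es L hr c hc
  obtain ⟨M, c1, c2, rfl, h1, h2⟩ := hr.split
  obtain ⟨b, rfl⟩ := h.out h1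
  have hP : boolSys.Closed fun x => x = false :=
    ⟨fun _ hx => hx, fun _ _ _ hb => hb, fun _ _ ha _ => ha⟩
  have hb : b = false :=
    Run.all hP h1 (by simp) (h.2 _ _ h1) b (by simp)
  subst hb
  rcases List.mem_append.1 hc with hc | hc
  · exact h.2 _ _ h1 c hc
  · exact h'.2 _ _ h2 c hc

theorem IsKnot.pow {T : Word} (h : IsKnot T) (N : ℕ) :
    IsKnot (List.replicate N T).flatten := by
  induction N with
  | zero => exact isKnot_nil
  | succ n ih =>
    rw [List.replicate_succ, List.flatten_cons]
    exact h.append ih

/-- Follow the strands, giving each maximum a fresh name and recording the pair of names at each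
minimum. -/
def connTrack : Word → ℕ → List ℕ → Option (List (ℕ × ℕ) × List ℕ)
  | [], _, L => some ([], L)
  | (cre, i) :: w, k, L =>
      if i ≤ L.length then connTrack w (k + 1) (L.take i ++ k :: k :: L.drop i) else none
  | (ann, i) :: w, k, L =>
      if i + 2 ≤ L.length then
        (connTrack w k (L.take i ++ L.drop (i + 2))).map
          fun r => ((L.getD i 0, L.getD (i + 1) 0) :: r.1, r.2)
      else none
  | (ov, i) :: w, k, L =>
      if i + 2 ≤ L.length then
        connTrack w k (L.take i ++ L.getD (i + 1) 0 :: L.getD i 0 :: L.drop (i + 2))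
      else none
  | (un, i) :: w, k, L =>
      if i + 2 ≤ L.length then
        connTrack w k (L.take i ++ L.getD (i + 1) 0 :: L.getD i 0 :: L.drop (i + 2))
      else none
  | (spl, _) :: _, _, _ => none
  | (mrg, _) :: _, _, _ => none

theorem conn_split2 (L : List ℕ) (i : ℕ) (h : i + 2 ≤ L.length) :
    ∃ P a b Q, L = P ++ a :: b :: Q ∧ P.length = i ∧ L.take i = P ∧ L.drop (i + 2) = Q ∧
      L.getD i 0 = a ∧ L.getD (i + 1) 0 = b := by
  induction i generalizing L with
  | zero =>
    match L, h with
    | a :: b :: Q, _ => exact ⟨[], a, b, Q, rfl, rfl, rfl, rfl, rfl, rfl⟩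
  | succ i ih =>
    match L, h with
    | x :: L', h =>
      obtain ⟨P, a, b, Q, h1, h2, h3, h4, h5, h6⟩ := ih L' (by simp at h; omega)
      refine ⟨x :: P, a, b, Q, by simp [h1], by simp [h2], by simp [h3], ?_, ?_, ?_⟩
      · simpa using h4
      · simpa using h5
      · simpa using h6

theorem conn_nc_cre (i : ℕ) (w : Word) : nc ((cre, i) :: w) = nc w + 1 := by
  simp [nc]

theorem conn_nc_ann (i : ℕ) (w : Word) : nc ((ann, i) :: w) = nc w := by
  simp [nc]

theorem conn_nc_ov (i : ℕ) (w : Word) : nc ((ov, i) :: w) = nc w := by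
  simp [nc]

theorem conn_nc_un (i : ℕ) (w : Word) : nc ((un, i) :: w) = nc w := by
  simp [nc]

theorem connTrack_sound (χ : ℕ → Bool) (N : List Bool) :
    ∀ (w : Word) (k : ℕ) (L : List ℕ) (E : List (ℕ × ℕ)) (M : List ℕ),
      connTrack w k L = some (E, M) →
      (Run boolSys (L.map χ) w ((List.range' k (nc w)).map χ) N ↔
        N = M.map χ ∧ ∀ p ∈ E, χ p.1 = χ p.2) := by
  intro w
  induction w with
  | nil =>
    intro k L E M h
    simp only [connTrack, Option.some.injEq, Prod.mk.injEq] at h
    obtain ⟨rfl, rfl⟩ := h
    rw [Run.nil_iff]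
    simp [nc]
  | cons g w ih =>
    intro k L E M h
    obtain ⟨kd, i⟩ := g
    cases kd with
    | cre =>
      simp only [connTrack] at h
      split_ifs at h with hi
      have hL : L.map χ = (L.take i).map χ ++ (L.drop i).map χ := by
        rw [← List.map_append, List.take_append_drop]
      have key := ih _ _ _ _ h
      rw [hL, Run.cre_iff _ _ (by simp [hi]), conn_nc_cre, List.range'_succ, List.map_cons, ← key]
      simp only [List.map_append, List.map_cons]
      constructor
      · rintro ⟨x, cs', he, hr⟩
        simp only [List.cons.injEq] at he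
        obtain ⟨rfl, rfl⟩ := he
        exact hr
      · intro hr
        exact ⟨_, _, rfl, hr⟩
    | ann =>
      simp only [connTrack] at h
      split_ifs at h with hi
      obtain ⟨P, a, b, Q, h1, h2, h3, h4, h5, h6⟩ := conn_split2 L i hi
      rw [h3, h4, h5, h6, Option.map_eq_some_iff] at h
      obtain ⟨⟨E', M'⟩, hr, he⟩ := h
      simp only [Prod.mk.injEq] at he
      obtain ⟨rfl, rfl⟩ := he
      have key := ih _ _ _ _ hr
      rw [h1, List.map_append, List.map_cons, List.map_cons,
        Run.ann_iff _ _ _ _ (by simp [h2]), conn_nc_ann, ← List.map_append, key]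
      simp only [boolSys, id, List.mem_cons, forall_eq_or_imp]
      constructor
      · rintro ⟨h7, h8, h9⟩
        exact ⟨h8, h7.symm, h9⟩
      · rintro ⟨h7, h8, h9⟩
        exact ⟨h8.symm, h7, h9⟩
    | ov =>
      simp only [connTrack] at h
      split_ifs at h with hi
      obtain ⟨P, a, b, Q, h1, h2, h3, h4, h5, h6⟩ := conn_split2 L i hi
      rw [h3, h4, h5, h6] at h
      have key := ih _ _ _ _ h
      rw [h1, List.map_append, List.map_cons, List.map_cons,
        Run.ov_iff _ _ _ _ (by simp [h2]), conn_nc_ov, ← key]
      simp only [boolSys, List.map_append, List.map_cons]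
    | un =>
      simp only [connTrack] at h
      split_ifs at h with hi
      obtain ⟨P, a, b, Q, h1, h2, h3, h4, h5, h6⟩ := conn_split2 L i hi
      rw [h3, h4, h5, h6] at h
      have key := ih _ _ _ _ h
      rw [h1, List.map_append, List.map_cons, List.map_cons,
        Run.un_iff _ _ _ _ (by simp [h2]), conn_nc_un, ← key]
      simp only [boolSys, List.map_append, List.map_cons]
    | spl => simp [connTrack] at h
    | mrg => simp [connTrack] at h

/-- One round of marking along the recorded pairs. -/
def connStep : List (ℕ × ℕ) → List ℕ → List ℕ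
  | [], S => S
  | p :: E, S =>
      connStep E (if p.1 ∈ S then (if p.2 ∈ S then S else p.2 :: S)
        else if p.2 ∈ S then p.1 :: S else S)

def connMark (E : List (ℕ × ℕ)) : ℕ → List ℕ
  | 0 => [0]
  | n + 1 => connStep E (connMark E n)

theorem connStep_sound (χ : ℕ → Bool) :
    ∀ (E : List (ℕ × ℕ)) (S : List ℕ), (∀ p ∈ E, χ p.1 = χ p.2) → (∀ x ∈ S, χ x = false) →
      ∀ x ∈ connStep E S, χ x = false := by
  intro E
  induction E with
  | nil => intro S _ hS; exact hS
  | cons p E ih =>
    intro S hE hS
    have hp := hE p (by simp)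
    refine ih _ (fun q hq => hE q (by simp [hq])) ?_
    split_ifs with h1 h2 h3
    · exact hS
    · intro x hx
      rcases List.mem_cons.1 hx with rfl | hx
      · rw [← hp]; exact hS _ h1
      · exact hS _ hx
    · intro x hx
      rcases List.mem_cons.1 hx with rfl | hx
      · rw [hp]; exact hS _ h3
      · exact hS _ hx
    · exact hS

theorem connMark_sound (χ : ℕ → Bool) (E : List (ℕ × ℕ)) (hE : ∀ p ∈ E, χ p.1 = χ p.2)
    (h0 : χ 0 = false) (n : ℕ) : ∀ x ∈ connMark E n, χ x = false := by
  induction n with
  | zero => intro x hx; simp [connMark] at hx; rw [hx]; exact h0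
  | succ n ih => exact connStep_sound χ E _ hE ih

/-- The checker. -/
def connCheck (w : Word) : Bool :=
  match connTrack w 1 [0] with
  | none => false
  | some (E, M) =>
      decide (M.length = 1) &&
        (List.range' 1 (nc w)).all fun j => decide (j ∈ connMark E (nc w + 1))

theorem connCheck_sound {w : Word} (h : connCheck w = true) : IsKnot w := by
  unfold connCheck at h
  split at h
  · simp at h
  · rename_i E M hT
    simp only [Bool.and_eq_true, decide_eq_true_eq, List.all_eq_true] at h
    obtain ⟨hM, hall⟩ := h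
    constructor
    · refine ⟨(List.range' 1 (nc w)).map fun _ => false, ?_⟩
      have := (connTrack_sound (fun _ => false) [false] w 1 [0] E M hT).2 ⟨?_, fun _ _ => rfl⟩
      · simpa using this
      · match M, hM with
        | [a], _ => rfl
    · intro cs L hr c hc
      have hlen := hr.count.1
      let χ : ℕ → Bool := fun j => if j = 0 then false else cs.getD (j - 1) false
      have hcs : cs = (List.range' 1 (nc w)).map χ := by
        apply List.ext_getElem
        · simp [hlen]
        · intro i h1 h2
          simp [χ, List.getD_eq_getElem?_getD, h1]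
      have h0 : χ 0 = false := by simp [χ]
      have hr' : Run boolSys ([0].map χ) w ((List.range' 1 (nc w)).map χ) L := by
        rw [← hcs]; simpa [h0] using hr
      have hE := ((connTrack_sound χ L w 1 [0] E M hT).1 hr').2
      rw [hcs] at hc
      obtain ⟨j, hj, rfl⟩ := List.mem_map.1 hc
      exact connMark_sound χ E hE h0 _ j (hall j hj)

theorem isKnot_kink : IsKnot kink := connCheck_sound (by decide +kernel)

theorem isKnot_tref : IsKnot tref := connCheck_sound (by decide +kernel)

theorem isKnot_T1 : IsKnot T1 := connCheck_sound (by decide +kernel)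

theorem isKnot_T0 : IsKnot T0 := (isKnot_T1.pow 12).append isKnot_kink

end RankGenus
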