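import Pool.Agent.Work.MP_c146e2_gt.RunB

/-! Orientation and writhe of a long knot. -/

set_option autoImplicit false

namespace RankGenus

open Kind

/-- The additive form of `holSys`. -/
def linSys (A : Type) [AddCommGroup A] : Sys (A × A) :=
  ⟨fun a => (-a.1, a.2), fun a b => (b.1, b.2 - a.1), fun a b => (a.1, a.2 + b.1)⟩

theorem lin_split {β γ : Type} (φ : List β) (P Q : List γ) (h : φ.length = (P ++ Q).length) :
    ∃ P' Q', φ = P' ++ Q' ∧ P'.length = P.length ∧ Q'.length = Q.length := by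
  rw [List.length_append] at h
  refine ⟨φ.take P.length, φ.drop P.length, (List.take_append_drop _ _).symm, ?_, ?_⟩
  · rw [List.length_take]; omega
  · rw [List.length_drop]; omega

theorem lin_split2 {β γ : Type} (φ : List β) (P Q : List γ) (a b : γ)
    (h : φ.length = (P ++ a :: b :: Q).length) :
    ∃ P' a' b' Q', φ = P' ++ a' :: b' :: Q' ∧ P'.length = P.length ∧ Q'.length = Q.length := by
  obtain ⟨P', Q', rfl, h1, h2⟩ := lin_split φ P _ h
  match Q', h2 with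
  | a' :: b' :: Q', h2 => exact ⟨P', a', b', Q', rfl, h1, by simpa using h2⟩

/-- the dual label as a linear map -/
def linDual : ℚ × ℚ →ₗ[ℚ] ℚ × ℚ := (-LinearMap.fst ℚ ℚ ℚ).prod (LinearMap.snd ℚ ℚ ℚ)

/-- More unknowns than equations. -/
theorem exists_lin {Lb cb Mb : List Bool} {w : Word} (h : Run boolSys Lb w cb Mb) :
    ∀ (V : Type) [AddCommGroup V] [Module ℚ V] [FiniteDimensional ℚ V]
      (φ : List (V →ₗ[ℚ] ℚ × ℚ)), φ.length = Lb.length →
      2 * na w < Module.finrank ℚ V + 2 * nc w →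
      ∃ (v : V) (cs M : List (ℚ × ℚ)), Run (linSys ℚ) (φ.map fun f => f v) w cs M ∧
        (v ≠ 0 ∨ ∃ c ∈ cs, c ≠ 0) := by
  induction h with
  | nil L =>
    intro V _ _ _ φ _ h2
    obtain ⟨v, hv⟩ := (Module.finrank_pos_iff_exists_ne_zero (R := ℚ) (M := V)).1
      (by simpa [na, nc] using h2)
    exact ⟨v, [], _, Run.nil _, Or.inl hv⟩
  | cre P Q x _ ih =>
    intro V _ _ _ φ h1 h2
    obtain ⟨P', Q', rfl, e1, e2⟩ := lin_split φ P Q h1
    obtain ⟨⟨v, y⟩, cs, M, h3, h4⟩ := ih (V × ℚ × ℚ)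
      (P'.map (fun f => f ∘ₗ LinearMap.fst ℚ V (ℚ × ℚ)) ++ LinearMap.snd ℚ V (ℚ × ℚ) ::
        (linDual ∘ₗ LinearMap.snd ℚ V (ℚ × ℚ)) :: Q'.map fun f => f ∘ₗ LinearMap.fst ℚ V (ℚ × ℚ))
      (by simp [e1, e2])
      (by
        simp only [Module.finrank_prod, Module.finrank_self]
        simp [na, nc] at h2 ⊢
        omega)
    refine ⟨v, y :: cs, M, ?_, ?_⟩
    · rw [List.map_append]
      refine (Run.cre_iff _ _ (by simp [e1])).2 ⟨y, cs, rfl, ?_⟩
      simpa [linDual, linSys, Function.comp_def] using h3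
    · rcases h4 with h4 | ⟨c, hc, h4⟩
      · by_cases hv : v = 0
        · exact Or.inr ⟨y, List.mem_cons_self, fun hy => h4 (by rw [hv, hy]; rfl)⟩
        · exact Or.inl hv
      · exact Or.inr ⟨c, List.mem_cons_of_mem _ hc, h4⟩
  | ann P Q x _ ih =>
    intro V _ _ _ φ h1 h2
    obtain ⟨P', a, b, Q', rfl, e1, e2⟩ := lin_split2 φ P Q _ _ h1
    have r1 := LinearMap.finrank_range_add_finrank_ker (b - linDual ∘ₗ a)
    have r2 := Submodule.finrank_le (LinearMap.range (b - linDual ∘ₗ a))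
    obtain ⟨⟨v, hv⟩, cs, M, h3, h4⟩ := ih (LinearMap.ker (b - linDual ∘ₗ a))
      ((P' ++ Q').map fun f => f ∘ₗ (LinearMap.ker (b - linDual ∘ₗ a)).subtype)
      (by simp [e1, e2])
      (by
        simp only [Module.finrank_prod, Module.finrank_self] at r2
        simp [na, nc] at h2 ⊢
        omega)
    refine ⟨v, cs, M, ?_, h4.imp_left fun h4 h0 => h4 (Subtype.ext h0)⟩
    rw [List.map_append, List.map_cons, List.map_cons]
    refine (Run.ann_iff _ _ _ _ (by simp [e1])).2 ⟨sub_eq_zero.1 (LinearMap.mem_ker.1 hv), ?_⟩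
    simpa [Function.comp_def] using h3
  | ov P Q x y _ ih =>
    intro V _ _ _ φ h1 h2
    obtain ⟨P', a, b, Q', rfl, e1, e2⟩ := lin_split2 φ P Q _ _ h1
    obtain ⟨v, cs, M, h3, h4⟩ := ih V
      (P' ++ (LinearMap.fst ℚ ℚ ℚ ∘ₗ b).prod
        (LinearMap.snd ℚ ℚ ℚ ∘ₗ b - LinearMap.fst ℚ ℚ ℚ ∘ₗ a) :: a :: Q')
      (by simp [e1, e2]) (by simpa [na, nc] using h2)
    refine ⟨v, cs, M, ?_, h4⟩
    rw [List.map_append, List.map_cons, List.map_cons] at h3 ⊢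
    exact (Run.ov_iff _ _ _ _ (by simp [e1])).2 h3
  | un P Q x y _ ih =>
    intro V _ _ _ φ h1 h2
    obtain ⟨P', a, b, Q', rfl, e1, e2⟩ := lin_split2 φ P Q _ _ h1
    obtain ⟨v, cs, M, h3, h4⟩ := ih V
      (P' ++ b :: (LinearMap.fst ℚ ℚ ℚ ∘ₗ a).prod
        (LinearMap.snd ℚ ℚ ℚ ∘ₗ a + LinearMap.fst ℚ ℚ ℚ ∘ₗ b) :: Q')
      (by simp [e1, e2]) (by simpa [na, nc] using h2)
    refine ⟨v, cs, M, ?_, h4⟩
    rw [List.map_append, List.map_cons, List.map_cons] at h3 ⊢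
    exact (Run.un_iff _ _ _ _ (by simp [e1])).2 h3

theorem lin_zero {T : Word} (hT : IsKnot T) {cs M : List (ℚ × ℚ)}
    (h : Run (linSys ℚ) [(0, 0)] T cs M) : ∀ c ∈ cs, c = 0 := by
  have h1 := (hT.use (Sys.closed_true _) (fun a => a.1 = 0) (fun x _ => neg_eq_zero)
    (fun _ _ _ _ => Iff.rfl) (fun _ _ _ _ => Iff.rfl) h trivial (fun _ _ => trivial) rfl).1
  have h2 := (hT.use (S := linSys ℚ) (P := fun a => a.1 = 0)
    ⟨fun x hx => neg_eq_zero.2 hx, fun _ _ _ hb => hb, fun _ _ ha _ => ha⟩ (fun a => a.2 = 0)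
    (fun x _ => Iff.rfl) (fun a b ha _ => by simp only [linSys, ha, sub_zero])
    (fun a b _ hb => by simp only [linSys, hb, add_zero]) h rfl h1 rfl).1
  exact fun c hc => Prod.ext (h1 c hc) (h2 c hc)

theorem lin_sign {A : Type} [Ring A] : (linSys A).Closed fun a => a.1 = 1 ∨ a.1 = -1 :=
  ⟨fun x hx => by
    rcases hx with hx | hx
    · exact Or.inr (congrArg Neg.neg hx)
    · exact Or.inl (neg_eq_iff_eq_neg.2 hx), fun _ _ _ hb => hb, fun _ _ ha _ => ha⟩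

theorem lin_one {T : Word} (hT : IsKnot T) {A : Type} [Ring A] {cs M : List (A × A)}
    (h : Run (linSys A) [(1, 0)] T cs M) : ∀ c ∈ cs, c.1 = 1 ∨ c.1 = -1 :=
  (hT.use (Sys.closed_true _) (fun a => a.1 = 1 ∨ a.1 = -1)
    (fun x _ => ⟨fun hx => by simpa [linSys] using lin_sign.dual _ hx, lin_sign.dual x⟩)
    (fun _ _ _ _ => Iff.rfl) (fun _ _ _ _ => Iff.rfl) h trivial (fun _ _ => trivial)
    (Or.inl rfl)).1

theorem lin_int {T : Word} (hT : IsKnot T) {cs M : List (ℚ × ℚ)}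
    (h : Run (linSys ℚ) [(1, 0)] T cs M) : ∀ c ∈ cs, ∃ m n : ℤ, c = ((m : ℚ), (n : ℚ)) := by
  have h1 := lin_one hT h
  have k : ∀ a : ℚ × ℚ, a.1 = 1 ∨ a.1 = -1 → ∃ m : ℤ, a.1 = m := fun a ha =>
    ha.elim (fun e => ⟨1, by simpa using e⟩) fun e => ⟨-1, by simpa using e⟩
  have h2 := (hT.use lin_sign (fun a : ℚ × ℚ => ∃ n : ℤ, a.2 = n) (fun x _ => Iff.rfl)
    (fun a b ha _ => by
      obtain ⟨m, hm⟩ := k a ha
      simp only [linSys, hm]
      exact ⟨fun ⟨n, hn⟩ => ⟨n + m, by push_cast; linarith⟩,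
        fun ⟨n, hn⟩ => ⟨n - m, by push_cast; linarith⟩⟩)
    (fun a b _ hb => by
      obtain ⟨m, hm⟩ := k b hb
      simp only [linSys, hm]
      exact ⟨fun ⟨n, hn⟩ => ⟨n - m, by push_cast; linarith⟩,
        fun ⟨n, hn⟩ => ⟨n + m, by push_cast; linarith⟩⟩)
    h (Or.inl rfl) h1 ⟨0, by simp⟩).1
  intro c hc
  obtain ⟨m, hm⟩ := k c (h1 c hc)
  obtain ⟨n, hn⟩ := h2 c hc
  exact ⟨m, n, Prod.ext hm hn⟩

theorem IsKnot.lin {T : Word} (hT : IsKnot T) : ∃ (r : ℤ) (cs : List (ℤ × ℤ)),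
    Run (linSys ℤ) [(1, 0)] T cs [(1, r)] ∧ ∀ c ∈ cs, c.1 = 1 ∨ c.1 = -1 := by
  obtain ⟨cb, hb⟩ := hT.1
  have hc := hb.count.2
  obtain ⟨v, cs, M, h1, h2⟩ := exists_lin hb ℚ [LinearMap.inl ℚ ℚ ℚ] rfl
    (by rw [Module.finrank_self]; omega)
  change Run (linSys ℚ) [(v, 0)] T cs M at h1
  have hv : v ≠ 0 := by
    rintro rfl
    rcases h2 with h2 | ⟨c, hc, h2⟩
    · exact h2 rfl
    · exact h2 (lin_zero hT h1 c hc)
  have h3 := h1.map (S' := linSys ℚ) (Sys.closed_true _) (fun a => (a.1 / v, a.2 / v))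
    (fun x _ => by simp only [linSys, neg_div]) (fun a b _ _ => by simp only [linSys, sub_div])
    (fun a b _ _ => by simp only [linSys, add_div]) (fun _ _ => trivial) (fun _ _ => trivial)
  simp only [List.map_cons, List.map_nil, div_self hv, zero_div] at h3
  have h4 := h3.map (S' := linSys ℤ) (P := fun c => ∃ m n : ℤ, c = ((m : ℚ), (n : ℚ)))
    ⟨by
      rintro _ ⟨m, n, rfl⟩
      exact ⟨-m, n, by simp [linSys]⟩,
    by
      rintro _ _ ⟨m, n, rfl⟩ ⟨m', n', rfl⟩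
      exact ⟨m', n' - m, by simp [linSys]⟩,
    by
      rintro _ _ ⟨m, n, rfl⟩ ⟨m', n', rfl⟩
      exact ⟨m, n + m', by simp [linSys]⟩⟩ (fun a => (a.1.num, a.2.num))
    (by
      rintro _ ⟨m, n, rfl⟩
      simp [linSys])
    (by
      rintro _ _ ⟨m, n, rfl⟩ ⟨m', n', rfl⟩
      simp only [linSys, ← Int.cast_sub, Rat.num_intCast])
    (by
      rintro _ _ ⟨m, n, rfl⟩ ⟨m', n', rfl⟩
      simp only [linSys, ← Int.cast_add, Rat.num_intCast])
    (fun x hx => ⟨1, 0, by simpa using hx⟩) (lin_int hT h3)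
  generalize List.map _ (List.map _ cs) = cs' at h4
  generalize List.map _ (List.map _ M) = M' at h4
  change Run (linSys ℤ) [(1, 0)] T cs' M' at h4
  obtain ⟨⟨e, r⟩, rfl⟩ := hT.out h4
  have h5 := (h4.map (S' := grpSys (Multiplicative ℤ)) (Sys.closed_true _)
    (fun a => Multiplicative.ofAdd a.1) (fun x _ => rfl)
    (fun a b _ _ => (mul_inv_cancel_comm _ _).symm)
    (fun a b _ _ => by simp [linSys, grpSys]) (fun _ _ => trivial) fun _ _ => trivial).prod_eq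
  have h6 : e = 1 := by simpa using h5
  subst h6
  exact ⟨r, cs', h4, lin_one hT h4⟩

/-- The oriented form of `IsKnot.use`. -/
theorem IsKnot.orient {T : Word} (hT : IsKnot T) {α : Type} {S : Sys α} (hS : S.Compat)
    {P : α → Prop} (hP : S.Closed P) (G : α → Prop)
    (ho : ∀ a b, P a → P b → (G (S.o a b) ↔ G b)) (hu : ∀ a b, P a → P b → (G (S.u a b) ↔ G a))
    {a b : α} {cs : List α} (h : Run S [a] T cs [b]) (ha : P a) (hc : ∀ c ∈ cs, P c) (hG : G a) :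
    G b ∧ ∀ c ∈ cs, G c ∨ G (S.dual c) := by
  obtain ⟨r, ds, h1, -⟩ := hT.lin
  have h2 := hT.use (S := S.prod (linSys ℤ)) (P := fun x => P x.1)
    ⟨fun x hx => hP.dual _ hx, fun _ _ hx hy => hP.o _ _ hx hy, fun _ _ hx hy => hP.u _ _ hx hy⟩
    (fun x => (x.2.1 = 1 ∧ G x.1) ∨ (x.2.1 = -1 ∧ G (S.dual x.1)))
    (fun x _ => by
      simp only [Sys.prod, linSys, hS.dd, neg_eq_iff_eq_neg, neg_neg]
      exact or_comm)
    (fun x y hx hy => by
      simp only [Sys.prod, linSys, hS.dO, ho _ _ hx hy, ho _ _ hx (hP.dual _ hy)])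
    (fun x y hx hy => by
      simp only [Sys.prod, linSys, hS.dU, hu _ _ hx hy, hu _ _ (hP.dual _ hx) hy])
    (h.zip h1 rfl) ha (fun c hc' => hc _ (List.of_mem_zip hc').1) (Or.inl ⟨rfl, hG⟩)
  refine ⟨?_, fun c hc' => ?_⟩
  · rcases h2.2 (b, (1, r)) (by simp) with h3 | h3
    · exact h3.2
    · exact absurd h3.1 (by simp)
  · rw [← List.map_fst_zip (l₁ := cs) (l₂ := ds) (by rw [h.count.1, h1.count.1]),
      List.mem_map] at hc'
    obtain ⟨x, hx, rfl⟩ := hc'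
    exact (h2.1 x hx).imp And.right And.right

end RankGenus
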