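import Pool.Agent.Work.MP_c146e2_gt.Bund
import Pool.Agent.Work.MP_c146e2_gt.Lin

/-! Labellings of the two-cable. -/

set_option autoImplicit false

namespace RankGenus

open Kind

/-- Unfolding a labelling of the two-cable. -/
theorem IsKnot.of_cab {T : Word} (hT : IsKnot T) {α : Type} {S : Sys α} {a : α} {cs M : List α}
    (h : Run S [a] (cab T) cs M) :
    ∃ (y a' y' : α) (ccs : List (List α)), Run (bundSys S) [[a, y]] T ccs [[a', y']] ∧
      cs = y :: ccs.flatten ∧ (∀ B ∈ ccs, B.length = 2) ∧ S.dual y = S.dual a' ∧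
      M = [S.o a' y'] := by
  obtain ⟨cb, hb⟩ := hT.1
  obtain ⟨y, cs', rfl, h1⟩ := (Run.cre_iff [a] [] (p := 1) rfl).mp h
  obtain ⟨M1, c1, c2, rfl, h2, h3⟩ := h1.split
  obtain ⟨M2, rfl, h4⟩ :=
    Run.of_suffix (L := [a, y]) [S.dual y] (hT.width_cable 2) h2
  obtain ⟨ccs, MM, h5, rfl, rfl, h6, h7⟩ :=
    of_cable (k := 2) hb (LL := [[a, y]]) rfl (by simp) h4
  obtain ⟨B, rfl⟩ := hT.out h5
  obtain ⟨a', y', rfl⟩ := List.length_eq_two.mp (h7 B (List.mem_singleton_self B))
  have h8 := (Run.ov_iff [] [S.dual y] a' y' (p := 0) rfl).mp h3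
  obtain ⟨h9, h10⟩ := (Run.ann_iff [S.o a' y'] [] a' (S.dual y) (p := 1) rfl).mp h8
  obtain ⟨rfl, rfl⟩ := Run.nil_iff.mp h10
  exact ⟨y, a', y', ccs, h5, by simp, h6, h9, rfl⟩

theorem cab_of {T : Word} {α : Type} {S : Sys α} {a y y' : α} {ccs : List (List α)}
    (h : Run (bundSys S) [[a, y]] T ccs [[y, y']]) (hc : ∀ B ∈ ccs, B.length = 2) :
    Run S [a] (cab T) (y :: ccs.flatten) [S.o y y'] := by
  have h1 := (cable_of (k := 2) h (by simp) hc).suffix [S.dual y]
  have h2 : Run S [y, y', S.dual y] [(ov, 0), (ann, 1)] [] [S.o y y'] :=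
    Run.ov [] [S.dual y] y y' (Run.ann [S.o y y'] [] y (Run.nil _))
  have h3 := h1.append h2
  rw [List.append_nil] at h3
  exact Run.cre [a] [] y h3

theorem connc_o (A B : List Bool) : (bundSys boolSys).o A B = B := by
  have h : ∀ b, A.foldr boolSys.o b = b := fun b => by
    induction A with
    | nil => rfl
    | cons a A ih => exact ih
  simp only [bundSys, h, List.map_id']

theorem connc_u (A B : List Bool) : (bundSys boolSys).u A B = A := by
  have h : ∀ a, B.foldl boolSys.u a = a := by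
    induction B with
    | nil => exact fun _ => rfl
    | cons b B ih => exact fun a => ih a
  simp only [bundSys, h, List.map_id']

theorem IsKnot.cab {T : Word} (hT : IsKnot T) : IsKnot (cab T) := by
  constructor
  · obtain ⟨cb, hb⟩ := hT.1
    have h1 := hb.map (S' := bundSys boolSys) (Sys.closed_true _) (fun _ => [false, false])
      (fun _ _ => rfl) (fun _ _ _ _ => rfl) (fun _ _ _ _ => rfl) (fun _ _ => trivial)
      (fun _ _ => trivial)
    exact ⟨_, cab_of h1 (by simp)⟩
  · intro cs L h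
    obtain ⟨y, a', y', ccs, h1, rfl, -, h2, -⟩ := hT.of_cab h
    have hc : boolSys.Compat := ⟨fun _ => rfl, fun _ _ => rfl, fun _ _ => rfl⟩
    obtain ⟨h3, h4⟩ := hT.orient hc.bund (Sys.closed_true _) (fun B => B = [false, y])
      (fun A B _ _ => by rw [connc_o]) (fun A B _ _ => by rw [connc_u]) h1 trivial
      (fun _ _ => trivial) rfl
    have hy : y = false := by
      have h5 : y = a' := h2
      rw [h5]
      exact (List.cons.inj h3).1
    subst hy
    intro c hcm
    rcases List.mem_cons.mp hcm with rfl | hcm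
    · rfl
    obtain ⟨B, hB, hcB⟩ := List.mem_flatten.mp hcm
    rcases h4 B hB with h5 | h5
    · rw [h5] at hcB
      simpa using hcB
    · have h6 : c ∈ (bundSys boolSys).dual B := by
        simpa [bundSys, boolSys] using hcB
      rw [h5] at h6
      simpa using h6

end RankGenus
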