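import Pool.Agent.Work.MP_c146e2_gt.Tab

/-! Fast arithmetic for the finite tests: elements of `Cy` are written as sums of fifth roots of
unity with natural coefficients, and formal sums are collected after every step. -/

set_option autoImplicit false

namespace RankGenus

/-- `a + b ζ + c ζ² + d ζ³ + e ζ⁴`. -/
structure N5 where
  a : ℕ
  b : ℕ
  c : ℕ
  d : ℕ
  e : ℕ

namespace N5

def ev (x : N5) : Cy := ⟨x.a - x.e, x.b - x.e, x.c - x.e, x.d - x.e⟩

noncomputable def frc {β : Type} (n : ℕ) (k : ℕ → β) : β :=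
  Nat.rec (k 0) (fun m _ => k (Nat.succ m)) n

theorem frc_eq {β : Type} (n : ℕ) (k : ℕ → β) : frc n k = k n := by cases n <;> rfl

/-- A value with evaluated entries is passed on. -/
noncomputable def mk5 {β : Type} (a b c d e : ℕ) (k : N5 → β) : β :=
  frc a fun a => frc b fun b => frc c fun c => frc d fun d => frc e fun e => k ⟨a, b, c, d, e⟩

theorem mk5_eq {β : Type} (a b c d e : ℕ) (k : N5 → β) : mk5 a b c d e k = k ⟨a, b, c, d, e⟩ := by
  simp only [mk5, frc_eq]

noncomputable def add {β : Type} (x y : N5) (k : N5 → β) : β :=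
  N5.rec (fun a b c d e => N5.rec (fun a' b' c' d' e' =>
    mk5 (Nat.add a a') (Nat.add b b') (Nat.add c c') (Nat.add d d') (Nat.add e e') k) y) x

noncomputable def mul {β : Type} (x y : N5) (k : N5 → β) : β :=
  N5.rec (fun a b c d e => N5.rec (fun a' b' c' d' e' =>
    mk5 (Nat.add (Nat.add (Nat.add (Nat.mul a a') (Nat.mul b e')) (Nat.add (Nat.mul c d') (Nat.mul d c')))
        (Nat.mul e b'))
      (Nat.add (Nat.add (Nat.add (Nat.mul a b') (Nat.mul b a')) (Nat.add (Nat.mul c e') (Nat.mul d d')))
        (Nat.mul e c'))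
      (Nat.add (Nat.add (Nat.add (Nat.mul a c') (Nat.mul b b')) (Nat.add (Nat.mul c a') (Nat.mul d e')))
        (Nat.mul e d'))
      (Nat.add (Nat.add (Nat.add (Nat.mul a d') (Nat.mul b c')) (Nat.add (Nat.mul c b') (Nat.mul d a')))
        (Nat.mul e e'))
      (Nat.add (Nat.add (Nat.add (Nat.mul a e') (Nat.mul b d')) (Nat.add (Nat.mul c c') (Nat.mul d b')))
        (Nat.mul e a')) k) y) x

theorem add_eq {β : Type} (x y : N5) (k : N5 → β) :
    ∃ z, ev z = ev x + ev y ∧ add x y k = k z := by
  refine ⟨_, ?_, mk5_eq ..⟩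
  ext <;> simp [ev] <;> ring

theorem mul_eq {β : Type} (x y : N5) (k : N5 → β) :
    ∃ z, ev z = ev x * ev y ∧ mul x y k = k z := by
  refine ⟨_, ?_, mk5_eq ..⟩
  ext <;> simp [ev] <;> ring

/-- The entries are shifted by a common amount. -/
def of (x : Cy) : N5 :=
  ⟨(x.a + ((-x.a).toNat + (-x.b).toNat + (-x.c).toNat + (-x.d).toNat : ℕ)).toNat,
   (x.b + ((-x.a).toNat + (-x.b).toNat + (-x.c).toNat + (-x.d).toNat : ℕ)).toNat,
   (x.c + ((-x.a).toNat + (-x.b).toNat + (-x.c).toNat + (-x.d).toNat : ℕ)).toNat,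
   (x.d + ((-x.a).toNat + (-x.b).toNat + (-x.c).toNat + (-x.d).toNat : ℕ)).toNat,
   (-x.a).toNat + (-x.b).toNat + (-x.c).toNat + (-x.d).toNat⟩

theorem ev_of (x : Cy) : ev (of x) = x := by
  ext <;> simp only [ev, of] <;> omega

noncomputable def isZ (x : N5) : Bool :=
  N5.rec (fun a b c d e => Nat.beq a e && (Nat.beq b e && (Nat.beq c e && Nat.beq d e))) x

theorem ev_isZ {x : N5} (h : isZ x = true) : ev x = 0 := by
  obtain ⟨a, b, c, d, e⟩ := x
  simp only [isZ, Bool.and_eq_true, Nat.beq_eq] at h
  ext <;> simp [ev, h]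

variable {β γ : Type}

/-- Pairing of a formal sum with a function. -/
def pr (L : List (N5 × β)) (f : β → Cy) : Cy := (L.map fun p => ev p.1 * f p.2).sum

@[simp] theorem pr_nil (f : β → Cy) : pr [] f = 0 := rfl

@[simp] theorem pr_cons (p : N5 × β) (L : List (N5 × β)) (f : β → Cy) :
    pr (p :: L) f = ev p.1 * f p.2 + pr L f := by simp [pr]

theorem pr_isZ {L : List (N5 × β)} (h : (L.all fun p => isZ p.1) = true) (f : β → Cy) :
    pr L f = 0 := by
  refine List.sum_eq_zero fun x hx => ?_
  obtain ⟨p, hp, rfl⟩ := List.mem_map.1 hx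
  rw [ev_isZ (List.all_eq_true.1 h p hp), zero_mul]

/-- Add a term to a formal sum. -/
noncomputable def ins (enc : β → ℕ) (x : N5) (b : β) (L : List (N5 × β)) : List (N5 × β) :=
  List.rec [(x, b)] (fun q t ih => Prod.rec (fun y c =>
    Bool.rec ((y, c) :: ih) (add x y fun z => (z, c) :: t) (Nat.beq (enc b) (enc c))) q) L

theorem pr_ins {enc : β → ℕ} (he : Function.Injective enc) (x : N5) (b : β) (L : List (N5 × β))
    (f : β → Cy) : pr (ins enc x b L) f = ev x * f b + pr L f := by
  induction L with
  | nil => simp [ins]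
  | cons q t ih =>
    obtain ⟨y, c⟩ := q
    have e : ins enc x b ((y, c) :: t) = Bool.rec ((y, c) :: ins enc x b t)
      (add x y fun z => (z, c) :: t) (Nat.beq (enc b) (enc c)) := rfl
    rw [e]
    cases h : Nat.beq (enc b) (enc c)
    · simp only [pr_cons, ih]
      ring
    · obtain ⟨z, h1, h2⟩ := add_eq x y fun z => (z, c) :: t
      simp only [h2, pr_cons, h1, he (Nat.eq_of_beq_eq_true h)]
      ring

/-- Add `x` times the formal sum `M`. -/
noncomputable def insM (enc : β → ℕ) (nf : β → (β → List (N5 × β)) → List (N5 × β)) (x : N5)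
    (M : List (Cy × β)) (L : List (N5 × β)) : List (N5 × β) :=
  List.rec L (fun q _ ih => Prod.rec (fun y c =>
    mul x (of y) fun z => nf c fun c => ins enc z c ih) q) M

theorem pr_insM {enc : β → ℕ} (he : Function.Injective enc)
    {nf : β → (β → List (N5 × β)) → List (N5 × β)} (hn : ∀ b k, nf b k = k b) (x : N5)
    (M : List (Cy × β)) (L : List (N5 × β)) (f : β → Cy) :
    pr (insM enc nf x M L) f = ev x * pair M f + pr L f := by
  induction M with
  | nil => simp [insM]
  | cons q t ih =>
    obtain ⟨y, c⟩ := q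
    obtain ⟨z, h1, h2⟩ := mul_eq x (of y) fun z => nf c fun c => ins enc z c (insM enc nf x t L)
    have e : insM enc nf x ((y, c) :: t) L =
      mul x (of y) fun z => nf c fun c => ins enc z c (insM enc nf x t L) := rfl
    rw [e, h2, hn, pr_ins he, ih, h1, ev_of, pair_cons]
    ring

/-- Substitute formal sums for the generators. -/
noncomputable def bind (enc : β → ℕ) (nf : β → (β → List (N5 × β)) → List (N5 × β))
    (M : γ → List (Cy × β)) (A : List (N5 × γ)) (L : List (N5 × β)) : List (N5 × β) :=
  List.rec L (fun q _ ih => Prod.rec (fun y c => Bool.rec (insM enc nf y (M c) ih) ih (isZ y)) q) A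

theorem pr_bind {enc : β → ℕ} (he : Function.Injective enc)
    {nf : β → (β → List (N5 × β)) → List (N5 × β)} (hn : ∀ b k, nf b k = k b)
    (M : γ → List (Cy × β)) (A : List (N5 × γ)) (L : List (N5 × β)) (f : β → Cy) :
    pr (bind enc nf M A L) f = pr A (fun c => pair (M c) f) + pr L f := by
  induction A with
  | nil => simp [bind]
  | cons q t ih =>
    obtain ⟨y, c⟩ := q
    have e : bind enc nf M ((y, c) :: t) L =
      Bool.rec (insM enc nf y (M c) (bind enc nf M t L)) (bind enc nf M t L) (isZ y) := rfl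
    rw [e]
    cases h : isZ y
    · simp only [pr_insM he hn, ih, pr_cons]
      ring
    · simp only [ih, pr_cons, ev_isZ h]
      ring

noncomputable def nf3 {δ : Type} (x : B3) (k : B3 → δ) : δ :=
  Prod.rec (fun a y => Prod.rec (fun b c =>
    Bool.rec
      (Bool.rec (Bool.rec (k (false, false, false)) (k (false, false, true)) c)
        (Bool.rec (k (false, true, false)) (k (false, true, true)) c) b)
      (Bool.rec (Bool.rec (k (true, false, false)) (k (true, false, true)) c)
        (Bool.rec (k (true, true, false)) (k (true, true, true)) c) b) a) y) x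

theorem nf3_eq {δ : Type} (x : B3) (k : B3 → δ) : nf3 x k = k x := by
  obtain ⟨_ | _, _ | _, _ | _⟩ := x <;> rfl

noncomputable def nfL {δ : Type} (c : List B3) : (List B3 → δ) → δ :=
  List.rec (fun k => k []) (fun x _ ih k => nf3 x fun x => ih fun t => k (x :: t)) c

theorem nfL_eq {δ : Type} (c : List B3) : ∀ k : List B3 → δ, nfL c k = k c := by
  induction c with
  | nil => intro k; rfl
  | cons x t ih =>
    intro k
    exact (nf3_eq x fun x => nfL t fun t => k (x :: t)).trans (ih _)

def enc3 (x : B3) : ℕ :=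
  Nat.add (Nat.add (cond x.1 4 0) (cond x.2.1 2 0)) (cond x.2.2 1 0)

def encL : List B3 → ℕ
  | [] => 1
  | x :: t => Nat.add (Nat.mul 8 (encL t)) (enc3 x)

theorem enc3_lt : ∀ x, enc3 x < 8 := by decide

theorem enc3_inj : Function.Injective enc3 := by decide

theorem encL_pos (c : List B3) : 0 < encL c := by
  induction c with
  | nil => exact one_pos
  | cons x t ih => simp only [encL, Nat.add_eq, Nat.mul_eq]; omega

theorem encL_inj : Function.Injective encL := by
  intro c
  induction c with
  | nil =>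
    rintro (_ | ⟨y, s⟩) h
    · rfl
    · have := encL_pos s
      simp only [encL, Nat.add_eq, Nat.mul_eq] at h
      omega
  | cons x t ih =>
    rintro (_ | ⟨y, s⟩) h
    · have := encL_pos t
      simp only [encL, Nat.add_eq, Nat.mul_eq] at h
      omega
    · have h1 := enc3_lt x
      have h2 := enc3_lt y
      simp only [encL, Nat.add_eq, Nat.mul_eq] at h
      rw [ih (show encL t = encL s by omega), enc3_inj (show enc3 x = enc3 y by omega)]

/-- The outcomes of a word, added to `L`. -/
noncomputable def run (l : B2) (w : Word) :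
    List (N5 × List B3) → List (N5 × List B3) → List (N5 × List B3) :=
  List.rec (fun A L => bind encL nfL (fun c => [(1, c)]) A L)
    (fun g w ih A L => List.rec (bind encL nfL (sysD.act g.1 g.2 l) A L)
      (fun _ _ _ => ih (bind encL nfL (sysD.act g.1 g.2 l) A []) L) w) w

theorem pr_run (l : B2) (f : List B3 → Cy) (w : Word) : ∀ A L,
    pr (run l w A L) f = pr A (sysD.back w l f) + pr L f := by
  induction w with
  | nil =>
    intro A L
    refine (pr_bind encL_inj nfL_eq (fun c => [(1, c)]) A L f).trans ?_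
    simp [LS.back]
  | cons g w ih =>
    intro A L
    cases w with
    | nil => exact pr_bind encL_inj nfL_eq _ A L f
    | cons g' w =>
      refine (ih (bind encL nfL (sysD.act g.1 g.2 l) A []) L).trans ?_
      rw [pr_bind encL_inj nfL_eq, pr_nil, add_zero]
      rfl

/-- The fast form of the test for a local identity. -/
noncomputable def chk (m : ℕ) (w w' : Word) : Bool :=
  eB2.all fun l => (allL eB3 m).all fun a => !sysD.adm l a ||
    nfL a fun a => (run l w [(⟨1, 0, 0, 0, 0⟩, a)] (run l w' [(⟨0, 1, 1, 1, 1⟩, a)] [])).all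
      fun p => isZ p.1

theorem sameB_of [DecidableEq β] {u : Cy} {L L' : List (Cy × β)}
    (h : ∀ f, pair L f = u * pair L' f) : sameB u L L' = true := by
  refine List.all_eq_true.2 fun p _ => beq_iff_eq.2 ?_
  have := h fun b => if b = p.2 then 1 else 0
  simpa [pair, coef] using this

theorem chk_of {m : ℕ} {w w' : Word} (h : chk m w w' = true) :
    sysD.chk eB2 eB3 1 m w w' = true := by
  refine List.all_eq_true.2 fun l hl => List.all_eq_true.2 fun a ha => ?_
  have h1 := List.all_eq_true.1 (List.all_eq_true.1 h l hl) a ha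
  cases hadm : sysD.adm l a
  · rfl
  rw [hadm, Bool.not_true, Bool.false_or, nfL_eq] at h1
  rw [Bool.not_true, Bool.false_or]
  refine sameB_of fun f => ?_
  have h2 := pr_isZ h1 f
  have e1 : ev ⟨1, 0, 0, 0, 0⟩ = 1 := rfl
  have e2 : ev ⟨0, 1, 1, 1, 1⟩ = -1 := rfl
  simp only [pr_run, pr_cons, pr_nil, e1, e2, LS.back_eq_pair] at h2
  linear_combination h2

end N5

end RankGenus
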