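import Pool.Agent.Work.MP_c146e2_gt.Defs

/-! The explicit diagrams. -/

set_option autoImplicit false

namespace RankGenus

open Kind

/-- One strand at position `p` crosses `n` strands to its right. -/
def row (k : Kind) (p : ℕ) : ℕ → Word
  | 0 => []
  | n + 1 => row k p n ++ [(k, p + n)]

/-- The `m` strands starting at position `p` cross the next `n` strands. -/
def bx (k : Kind) (p : ℕ) : ℕ → ℕ → Word
  | 0, _ => []
  | m + 1, n => row k (p + m) n ++ bx k p m n

/-- `m` nested maxima. -/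
def ncre (p : ℕ) : ℕ → Word
  | 0 => []
  | m + 1 => ncre p m ++ [(cre, p + m)]

/-- `m` nested minima. -/
def nann (p : ℕ) : ℕ → Word
  | 0 => []
  | m + 1 => (ann, p + m) :: nann p m

def cableG (k : ℕ) : Kind × ℕ → Word
  | (cre, i) => ncre (k * i) k
  | (ann, i) => nann (k * i) k
  | (ov, i) => bx ov (k * i) k k
  | (un, i) => bx un (k * i) k k
  | _ => []

/-- The `k`-fold blackboard parallel. -/
def cable (k : ℕ) (w : Word) : Word := w.flatMap (cableG k)

/-- Generators of the braid group of two points on the boundary of a handlebody. -/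
inductive Mv
  | aL | aR | bL | bR | sP | sM
  deriving DecidableEq

/-- The strands are `p`, `O₁`, `I₁`, `O₂`, `I₂`, `q`, the bundles having `a, a, b, b` strands. -/
def mvWord : Mv → ℕ → ℕ → Word
  | .aL, a, _ => (cre, 1 + 2 * a) :: bx un 0 (1 + 2 * a) 1
  | .aR, a, b => (cre, 1 + 2 * a) :: bx ov (2 + 2 * a) 1 (2 * b + 1)
  | .bL, a, _ => bx un 0 1 a ++ bx un 0 a 1
  | .bR, a, b => bx un (1 + 2 * a + b) b 1 ++ bx un (1 + 2 * a + b) 1 b
  | .sP, a, b => bx ov 0 1 (2 * a + 2 * b) ++ (ov, 2 * a + 2 * b) :: bx un 0 (2 * a + 2 * b) 1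
  | .sM, a, b => bx ov 0 1 (2 * a + 2 * b) ++ (un, 2 * a + 2 * b) :: bx un 0 (2 * a + 2 * b) 1

def Mv.da : Mv → ℕ
  | .aL => 1 | _ => 0

def Mv.db : Mv → ℕ
  | .aR => 1 | _ => 0

def mvsWord : List Mv → ℕ → ℕ → Word
  | [], _, _ => []
  | m :: ms, a, b => mvWord m a b ++ mvsWord ms (a + m.da) (b + m.db)

/-- A trivial arc in a handlebody of genus two, cut along two discs. -/
def side (ms : List Mv) : Word := (cre, 0) :: mvsWord ms 0 0

def ms1 : List Mv := [.aR, .aL, .sM, .aL, .bL, .sM, .bL, .aR, .sM, .bR, .sP, .bR]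

def ms2 : List Mv := [.aL, .aL, .sP, .sP, .sP, .bL, .bL]

def kink : Word := [(cre, 1), (ov, 0), (ann, 1)]

/-- The trefoil with framing five. -/
def tref : Word := [(cre, 1), (ov, 0), (ov, 0), (ov, 0), (ann, 1)] ++ kink ++ kink

/-- The part of `T1` after the two sides. -/
def mid : Word :=
  bx ov 4 4 2 ++ bx ov 4 2 4 ++ nann 8 2 ++ shift 2 (cable 4 tref) ++ nann 4 2 ++ nann 0 2

def T1 : Word :=
  shift 1 (side ms1) ++ (ann, 0) :: (shift 9 (side ms2) ++ (ann, 8) :: mid)

def T0 : Word := (List.replicate 12 T1).flatten ++ kink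

/-- The two-cable. -/
def cab (T : Word) : Word := (cre, 1) :: (cable 2 T ++ [(ov, 0), (ann, 1)])

end RankGenus
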