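import Pool.Agent.Work.MP_c146e2_gt.Tab
import Pool.Agent.Work.MP_c146e2_gt.Words
import Pool.Agent.Work.MP_c146e2_gt.F5

/-! Fast evaluation of the bracket. -/

set_option autoImplicit false

namespace RankGenus

open Cy Kind

/-- Functions on paths. -/
inductive Tr
  | zero
  | leaf (r : Cy)
  | node (a b : Tr)
  deriving DecidableEq

namespace Tr

def eval : Tr → List Bool → Cy
  | zero, _ => 0
  | leaf r, _ => r
  | node a _, [] => eval a []
  | node a _, false :: c => eval a c
  | node _ b, true :: c => eval b c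

def frc {β : Type} (x : ℤ) (k : ℤ → β) : β :=
  match x with
  | .ofNat 0 => k (.ofNat 0)
  | .ofNat (n + 1) => k (.ofNat (n + 1))
  | .negSucc 0 => k (.negSucc 0)
  | .negSucc (n + 1) => k (.negSucc (n + 1))

theorem frc_eq {β : Type} (x : ℤ) (k : ℤ → β) : frc x k = k x := by
  unfold frc
  split <;> rfl

/-- A leaf with evaluated entries. -/
def mkLeaf (r : Cy) : Tr :=
  frc r.a fun a => frc r.b fun b => frc r.c fun c => frc r.d fun d => leaf ⟨a, b, c, d⟩

theorem mkLeaf_eq (r : Cy) : mkLeaf r = leaf r := by simp only [mkLeaf, frc_eq]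

def addL (r : Cy) : Tr → Tr
  | zero => leaf r
  | leaf s => mkLeaf (Cy.add r s)
  | node a b => node (addL r a) (addL r b)

def add : Tr → Tr → Tr
  | zero, t => t
  | leaf r, t => addL r t
  | node a b, zero => node a b
  | node a b, leaf s => addL s (node a b)
  | node a b, node c d => node (add a c) (add b d)

def smul (r : Cy) : Tr → Tr
  | zero => zero
  | leaf s => mkLeaf (Cy.mul r s)
  | node a b => node (smul r a) (smul r b)

def c0 : Tr → Tr
  | zero => zero
  | leaf r => leaf r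
  | node a _ => a

def c1 : Tr → Tr
  | zero => zero
  | leaf r => leaf r
  | node _ b => b

theorem eval_addL (r : Cy) (t : Tr) : ∀ c, eval (addL r t) c = r + eval t c := by
  induction t with
  | zero => intro c; simp [addL, eval]
  | leaf s => intro c; rw [addL, mkLeaf_eq]; rfl
  | node a b iha ihb =>
    intro c
    rcases c with _ | ⟨_ | _, c⟩ <;> simp [addL, eval, iha, ihb]

theorem eval_add (s : Tr) : ∀ t c, eval (add s t) c = eval s c + eval t c := by
  induction s with
  | zero => intro t c; simp [add, eval]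
  | leaf r => intro t c; rw [add, eval_addL]; rfl
  | node a b iha ihb =>
    intro t c
    cases t with
    | zero => simp [add, eval]
    | leaf s => rw [add, eval_addL, add_comm]; rfl
    | node a' b' => rcases c with _ | ⟨_ | _, c⟩ <;> simp [add, eval, iha, ihb]

theorem eval_smul (r : Cy) (t : Tr) : ∀ c, eval (smul r t) c = r * eval t c := by
  induction t with
  | zero => intro c; simp [smul, eval]
  | leaf s => intro c; rw [smul, mkLeaf_eq]; rfl
  | node a b iha ihb =>
    intro c
    rcases c with _ | ⟨_ | _, c⟩ <;> simp [smul, eval, iha, ihb]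

theorem eval_c0 (t : Tr) (c : List Bool) : eval (c0 t) c = eval t (false :: c) := by
  cases t <;> rfl

theorem eval_c1 (t : Tr) (c : List Bool) : eval (c1 t) c = eval t (true :: c) := by
  cases t <;> rfl

def crossF (a e : Cy) (t : Tr) : Tr :=
  node zero (node (smul e (c0 (c1 t))) (smul a (c1 (c1 t))))

def crossT (a b e f g : Cy) (t : Tr) : Tr :=
  node (node zero (add (smul e (c1 (c0 t))) (smul f (c1 (c1 t)))))
    (node (smul a (c0 (c1 t))) (add (smul b (c1 (c0 t))) (smul g (c1 (c1 t)))))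

def base : Kind → Bool → Tr → Tr
  | cre, false, t => smul ph (c0 (c1 t))
  | cre, true, t => add (c1 (c0 t)) (c1 (c1 t))
  | ann, false, t => node zero (node t zero)
  | ann, true, t => node (node zero (smul phi t)) (node zero t)
  | ov, false, t => crossF kA ⟨0, 0, 0, 1⟩ t
  | ov, true, t => crossT kA kB ⟨0, 1, 0, 1⟩ ⟨-1, 0, -1, 0⟩ ⟨1, 0, 1, 1⟩ t
  | un, false, t => crossF kB ⟨0, 0, 1, 0⟩ t
  | un, true, t => crossT kB kA ⟨-1, -1, 0, -1⟩ ⟨-1, 0, 0, -1⟩ ⟨1, 0, 1, 1⟩ t
  | _, _, _ => zero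

def stepT (k : Kind) : ℕ → Bool → Tr → Tr
  | 0, l, t => base k l t
  | i + 1, false, t => node zero (stepT k i true (c1 t))
  | i + 1, true, t => node (stepT k i false (c0 t)) (stepT k i true (c1 t))

def backT : Word → Tr → Tr
  | [], t => t
  | g :: w, t => stepT g.1 g.2 false (backT w t)

theorem eval_base (k : Kind) (l : Bool) (t : Tr) (c : List Bool) (hc : sysU.adm l c = true)
    (hl : k.inn ≤ c.length) : eval (base k l t) c = sysU.step (k, 0) l (eval t) c := by
  have e1 : kA + kB * ph = ⟨0, 0, 0, 1⟩ := by decide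
  have e2 : kA + ⟨-1, 0, -1, 0⟩ = ⟨0, 1, 0, 1⟩ := by decide
  have e3 : kB * phi = ⟨-1, 0, -1, 0⟩ := by decide
  have e4 : kA + kB = ⟨1, 0, 1, 1⟩ := by decide
  have e5 : kB + kA * ph = ⟨0, 0, 1, 0⟩ := by decide
  have e6 : kB + ⟨-1, 0, 0, -1⟩ = ⟨-1, -1, 0, -1⟩ := by decide
  have e7 : kA * phi = ⟨-1, 0, 0, -1⟩ := by decide
  have e8 : kB + kA = ⟨1, 0, 1, 1⟩ := by decide
  cases k
  case cre =>
    cases l <;> simp [base, LS.step, LS.act, Kind.inn, sysU, rc, creT, cols, eval_smul, eval_add,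
      eval_c0, eval_c1]
  case spl => cases l <;> simp [base, LS.step, LS.act, sysU, eval]
  case mrg => cases l <;> simp [base, LS.step, LS.act, sysU, eval]
  all_goals
    obtain ⟨y, z, r, rfl⟩ : ∃ y z r, c = y :: z :: r := by
      rcases c with _ | ⟨y, _ | ⟨z, r⟩⟩
      · simp [Kind.inn] at hl
      · simp [Kind.inn] at hl
      · exact ⟨y, z, r, rfl⟩
    cases l <;> cases y <;> cases z <;>
      simp [LS.adm, sysU] at hc <;>
      simp [base, crossF, Tr.crossT, LS.step, LS.act, Kind.inn, sysU, rc, RankGenus.crossT, annA,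
        cols, eval, eval_smul, eval_add, eval_c0, eval_c1, e1, e2, e3, e4, e5, e6, e7, e8]

theorem eval_stepT (k : Kind) : ∀ (i : ℕ) (l : Bool) (t : Tr) (c : List Bool),
    sysU.adm l c = true → i + k.inn ≤ c.length →
    eval (stepT k i l t) c = sysU.step (k, i) l (eval t) c := by
  intro i
  induction i with
  | zero => intro l t c hc hl; exact eval_base k l t c hc (by omega)
  | succ i ih =>
    intro l t c hc hl
    rcases c with _ | ⟨x, c⟩
    · simp at hl
    have hl' : i + k.inn ≤ c.length := by simp at hl; omega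
    have e : sysU.step (k, i + 1) l (eval t) (x :: c) =
        sysU.step (k, i) x (fun u => eval t (x :: u)) c := by
      simp only [LS.step, LS.act]
      rw [pair_map]
      rfl
    have hc' : sysU.adm x c = true := by
      simp only [LS.adm, Bool.and_eq_true] at hc
      exact hc.2
    rw [e]
    cases l <;> cases x
    · simp [LS.adm, sysU] at hc
    · rw [stepT, eval, ih _ _ _ hc' hl', funext (eval_c1 t)]
    · rw [stepT, eval, ih _ _ _ hc' hl', funext (eval_c0 t)]
    · rw [stepT, eval, ih _ _ _ hc' hl', funext (eval_c1 t)]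

theorem eval_backT (t : Tr) (n' : ℕ) : ∀ (w : Word) (c : List Bool), sysU.adm false c = true →
    width c.length w = some n' → eval (backT w t) c = sysU.back w false (eval t) c := by
  intro w
  induction w with
  | nil => intro c _ _; rfl
  | cons g w ih =>
    intro c hc hw
    obtain ⟨k, i⟩ := g
    rw [width] at hw
    split_ifs at hw with hl
    rw [backT, eval_stepT k i false _ c hc hl, LS.back, LS.step, LS.step]
    refine pair_congr fun p hp => ?_
    obtain ⟨-, h2, -, h4⟩ := wfU.act hp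
    exact ih p.2 (h4 hc) (by rw [h2]; exact hw)

end Tr

/-- Functions on paths; a value is a number whose digits in base `B` are the coefficients of the
powers of `ζ`, and products are reduced modulo `M = B ^ 5 - 1`. -/
inductive TN
  | zero
  | leaf (r : ℕ)
  | node (a b : TN)

namespace TN

def pk (B : ℕ) (y : N5) : ℕ := y.a + B * (y.b + B * (y.c + B * (y.d + B * y.e)))

noncomputable def addL (r : ℕ) (t : TN) : TN :=
  TN.rec (leaf r) (fun s => leaf (Nat.add r s)) (fun _ _ a b => node a b) t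

noncomputable def add (s : TN) : TN → TN :=
  TN.rec (fun t => t) (fun r t => addL r t) (fun a b iha ihb t =>
    TN.rec (node a b) (fun s => addL s (node a b)) (fun c d _ _ => node (iha c) (ihb d)) t) s

noncomputable def smul (M r : ℕ) (t : TN) : TN :=
  TN.rec zero (fun s => leaf (Nat.mod (Nat.mul r s) M)) (fun _ _ a b => node a b) t

noncomputable def c0 (t : TN) : TN := TN.rec zero leaf (fun a _ _ _ => a) t

noncomputable def c1 (t : TN) : TN := TN.rec zero leaf (fun _ b _ _ => b) t

noncomputable def crossF (M a e : ℕ) (t : TN) : TN :=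
  node zero (node (smul M e (c0 (c1 t))) (smul M a (c1 (c1 t))))

noncomputable def crossT (M a b e f g : ℕ) (t : TN) : TN :=
  node (node zero (add (smul M e (c1 (c0 t))) (smul M f (c1 (c1 t)))))
    (node (smul M a (c0 (c1 t))) (add (smul M b (c1 (c0 t))) (smul M g (c1 (c1 t)))))

noncomputable def base (B M : ℕ) : Kind → Bool → TN → TN
  | cre, false, t => smul M (pk B ⟨1, 1, 0, 0, 1⟩) (c0 (c1 t))
  | cre, true, t => add (c1 (c0 t)) (c1 (c1 t))
  | ann, false, t => node zero (node t zero)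
  | ann, true, t => node (node zero (smul M (pk B ⟨0, 1, 0, 0, 1⟩) t)) (node zero t)
  | ov, false, t => crossF M (pk B ⟨1, 1, 1, 1, 0⟩) (pk B ⟨0, 0, 0, 1, 0⟩) t
  | ov, true, t => crossT M (pk B ⟨1, 1, 1, 1, 0⟩) (pk B ⟨1, 0, 1, 1, 1⟩) (pk B ⟨0, 1, 0, 1, 0⟩)
      (pk B ⟨0, 1, 0, 1, 1⟩) (pk B ⟨1, 0, 1, 1, 0⟩) t
  | un, false, t => crossF M (pk B ⟨1, 0, 1, 1, 1⟩) (pk B ⟨0, 0, 1, 0, 0⟩) t
  | un, true, t => crossT M (pk B ⟨1, 0, 1, 1, 1⟩) (pk B ⟨1, 1, 1, 1, 0⟩) (pk B ⟨0, 0, 1, 0, 1⟩)
      (pk B ⟨0, 1, 1, 0, 1⟩) (pk B ⟨1, 0, 1, 1, 0⟩) t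
  | _, _, _ => zero

noncomputable def stepT (B M : ℕ) (k : Kind) (i : ℕ) : Bool → TN → TN :=
  Nat.rec (fun l t => base B M k l t) (fun _ ih l t => Bool.rec (node zero (ih true (c1 t)))
    (node (ih false (c0 t)) (ih true (c1 t))) l) i

noncomputable def backT (B M : ℕ) (w : Word) (t : TN) : TN :=
  List.rec t (fun g _ ih => stepT B M g.1 g.2 false ih) w

noncomputable def hd (t : TN) : ℕ := TN.rec 0 id (fun _ _ a _ => a) t

def dec (B v : ℕ) : Cy :=
  N5.ev ⟨v % B, v / B % B, v / B / B % B, v / B / B / B % B, v / B / B / B / B⟩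

/-- The number `v` stands for `x`, with digit sum at most `w`. -/
def Rp (B M w v : ℕ) (x : Cy) : Prop :=
  ∃ y : N5, y.ev = x ∧ y.a + y.b + y.c + y.d + y.e ≤ w ∧ pk B y ≡ v [MOD M]

inductive RT (B M w : ℕ) : TN → Tr → Prop
  | zero : RT B M w zero .zero
  | leaf {v : ℕ} {x : Cy} : Rp B M w v x → RT B M w (leaf v) (.leaf x)
  | node {a b : TN} {c d : Tr} : RT B M w a c → RT B M w b d → RT B M w (node a b) (.node c d)

variable {B M w w' v v' : ℕ} {x x' : Cy} {s s' : TN} {t t' : Tr}

theorem Rp.mono (h : Rp B M w v x) (hw : w ≤ w') : Rp B M w' v x :=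
  let ⟨y, h1, h2, h3⟩ := h
  ⟨y, h1, h2.trans hw, h3⟩

theorem Rp.add (h : Rp B M w v x) (h' : Rp B M w' v' x') :
    Rp B M (w + w') (Nat.add v v') (Cy.add x x') := by
  obtain ⟨⟨a, b, c, d, e⟩, rfl, h2, h3⟩ := h
  obtain ⟨⟨a', b', c', d', e'⟩, rfl, h2', h3'⟩ := h'
  refine ⟨⟨a + a', b + b', c + c', d + d', e + e'⟩, ?_, by simp only at *; omega, ?_⟩
  · ext <;> simp [N5.ev, Cy.add] <;> ring
  · refine Nat.ModEq.trans (congrArg (· % M) ?_) (h3.add h3')
    simp only [pk]
    ring

theorem Rp.mul (hM : M + 1 = B ^ 5) (h : Rp B M w v x) (h' : Rp B M w' v' x') :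
    Rp B M (w * w') (Nat.mod (Nat.mul v v') M) (Cy.mul x x') := by
  obtain ⟨⟨a, b, c, d, e⟩, rfl, h2, h3⟩ := h
  obtain ⟨⟨a', b', c', d', e'⟩, rfl, h2', h3'⟩ := h'
  refine ⟨⟨a * a' + (b * e' + c * d' + d * c' + e * b'), a * b' + b * a' + (c * e' + d * d' + e * c'),
    a * c' + b * b' + c * a' + (d * e' + e * d'), a * d' + b * c' + c * b' + d * a' + e * e',
    a * e' + b * d' + c * c' + d * b' + e * a'⟩, ?_, le_trans (le_of_eq ?_) (Nat.mul_le_mul h2 h2'), ?_⟩
  · ext <;> simp [N5.ev, Cy.mul] <;> ring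
  · ring
  · refine Nat.ModEq.trans ?_ ((h3.mul h3').trans (Nat.mod_modEq _ _).symm)
    refine (Nat.modEq_iff_dvd.2 ⟨(b * e' + c * d' + d * c' + e * b') +
      B * ((c * e' + d * d' + e * c') + B * ((d * e' + e * d') + B * (e * e'))), ?_⟩)
    have : (M : ℤ) = B ^ 5 - 1 := by rw [eq_sub_iff_add_eq]; exact_mod_cast hM
    simp only [pk, this]
    push_cast
    ring

theorem Rp.cst (y : N5) (h : y.ev = x ∧ y.a + y.b + y.c + y.d + y.e ≤ 4) :
    Rp B M 4 (pk B y) x := ⟨y, h.1, h.2, rfl⟩

theorem Rp.dec (hM : M + 1 = B ^ 5) (hw : w + 1 < B) (h : Rp B M w v x) : dec B (v % M) = x := by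
  obtain ⟨⟨a, b, c, d, e⟩, rfl, h2, h3⟩ := h
  simp only at h2
  have l : ∀ {p q n : ℕ}, p + 1 < B → q + 1 < n → p + B * q + 1 < B * n := fun hp hq => by
    have := Nat.mul_le_mul_left B hq
    simp only [Nat.succ_eq_add_one, mul_add, mul_one] at this
    omega
  have h4 : pk B ⟨a, b, c, d, e⟩ + 1 < B * (B * (B * (B * B))) :=
    l (p := a) (by omega) (l (p := b) (by omega) (l (p := c) (by omega)
      (l (p := d) (q := e) (by omega) (by omega))))
  rw [show B * (B * (B * (B * B))) = B ^ 5 by ring, ← hM] at h4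
  have hB : 0 < B := by omega
  have m : ∀ {p : ℕ}, p ≤ w → p % B = p ∧ p / B = 0 := fun hp =>
    ⟨Nat.mod_eq_of_lt (by omega), Nat.div_eq_of_lt (by omega)⟩
  rw [← show _ = v % M from h3, Nat.mod_eq_of_lt (by omega)]
  simp only [TN.dec, pk, Nat.add_mul_mod_self_left, Nat.add_mul_div_left _ _ hB, zero_add,
    m (show a ≤ w by omega), m (show b ≤ w by omega), m (show c ≤ w by omega),
    m (show d ≤ w by omega)]

theorem RT.mono (h : RT B M w s t) (hw : w ≤ w') : RT B M w' s t := by
  induction h with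
  | zero => exact .zero
  | leaf h => exact .leaf (h.mono hw)
  | node _ _ h1 h2 => exact .node h1 h2

theorem RT.addL (h : Rp B M w v x) (h' : RT B M w' s t) :
    RT B M (w + w') (addL v s) (Tr.addL x t) := by
  induction h' with
  | zero => exact .leaf (h.mono (Nat.le_add_right _ _))
  | leaf h' => rw [Tr.addL, Tr.mkLeaf_eq]; exact .leaf (h.add h')
  | node _ _ h1 h2 => exact .node h1 h2

theorem RT.add (h : RT B M w s t) : ∀ {s' t'}, RT B M w' s' t' →
    RT B M (w + w') (add s s') (Tr.add t t') := by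
  induction h with
  | zero => intro s' t' h'; rw [Tr.add]; exact h'.mono (Nat.le_add_left _ _)
  | leaf h => intro s' t' h'; rw [Tr.add]; exact .addL h h'
  | node h1 h2 i1 i2 =>
    intro s' t' h'
    cases h' with
    | zero => exact (RT.node h1 h2).mono (Nat.le_add_right _ _)
    | leaf h' => rw [Tr.add, add_comm]; exact .addL h' (.node h1 h2)
    | node h3 h4 => exact .node (i1 h3) (i2 h4)

theorem RT.smul (hM : M + 1 = B ^ 5) (h : Rp B M w v x) (h' : RT B M w' s t) :
    RT B M (w * w') (smul M v s) (Tr.smul x t) := by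
  induction h' with
  | zero => exact .zero
  | leaf h' => rw [Tr.smul, Tr.mkLeaf_eq]; exact .leaf (h.mul hM h')
  | node _ _ h1 h2 => exact .node h1 h2

theorem RT.c0 (h : RT B M w s t) : RT B M w (c0 s) t.c0 := by
  cases h with
  | zero => exact .zero
  | leaf h => exact .leaf h
  | node h _ => exact h

theorem RT.c1 (h : RT B M w s t) : RT B M w (c1 s) t.c1 := by
  cases h with
  | zero => exact .zero
  | leaf h => exact .leaf h
  | node _ h => exact h

theorem RT.hd (h : RT B M w s t) : Rp B M w (hd s) (t.eval []) := by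
  induction h with
  | zero => exact ⟨⟨0, 0, 0, 0, 0⟩, rfl, Nat.zero_le _, rfl⟩
  | leaf h => exact h
  | node _ _ h _ => exact h

theorem RT.base (hM : M + 1 = B ^ 5) (k : Kind) (l : Bool) (h : RT B M w s t) :
    RT B M (4 * w + 4 * w) (base B M k l s) (Tr.base k l t) := by
  have m : ∀ {s t}, RT B M w s t → RT B M (4 * w + 4 * w) s t := fun h => h.mono (by omega)
  have p : ∀ (y : N5) {x s t}, y.ev = x ∧ y.a + y.b + y.c + y.d + y.e ≤ 4 → RT B M w s t →
      RT B M (4 * w) (TN.smul M (pk B y) s) (Tr.smul x t) := fun y _ _ _ e h =>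
    .smul hM (.cst y e) h
  have q : ∀ {s t}, RT B M (4 * w) s t → RT B M (4 * w + 4 * w) s t := fun h => h.mono (by omega)
  cases k <;> cases l
  · exact q (p _ (by decide) h.c1.c0)
  · exact (h.c0.c1.add h.c1.c1).mono (by omega)
  · exact .node .zero (.node (m h) .zero)
  · exact .node (.node .zero (q (p _ (by decide) h))) (.node .zero (m h))
  iterate 2
    · exact .node .zero (.node (q (p _ (by decide) h.c1.c0)) (q (p _ (by decide) h.c1.c1)))
    · exact .node (.node .zero ((p _ (by decide) h.c0.c1).add (p _ (by decide) h.c1.c1)))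
        (.node (q (p _ (by decide) h.c1.c0))
          ((p _ (by decide) h.c0.c1).add (p _ (by decide) h.c1.c1)))
  all_goals exact .zero

theorem RT.stepT (hM : M + 1 = B ^ 5) (k : Kind) (i : ℕ) : ∀ (l : Bool) {s t}, RT B M w s t →
    RT B M (4 * w + 4 * w) (stepT B M k i l s) (Tr.stepT k i l t) := by
  induction i with
  | zero => intro l s t h; exact h.base hM k l
  | succ i ih =>
    intro l s t h
    cases l
    · exact .node .zero (ih true h.c1)
    · exact .node (ih false h.c0) (ih true h.c1)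

theorem RT.backT (hM : M + 1 = B ^ 5) (h : RT B M 1 s t) (u : Word) :
    RT B M (8 ^ u.length) (backT B M u s) (Tr.backT u t) := by
  induction u with
  | nil => exact h
  | cons g u ih => exact (RT.stepT hM g.1 g.2 false ih).mono (by rw [List.length_cons]; omega)

theorem val (u : Word) (B M : ℕ) (x : Cy) (h : M + 1 = B ^ 5 ∧ 8 ^ u.length + 1 < B ∧
    dec B (hd (c1 (backT B M u (node zero (leaf 1)))) % M) = x) :
    (Tr.backT u (.node .zero (.leaf 1))).eval [true] = x := by
  rw [← Tr.eval_c1, ← h.2.2]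
  exact ((RT.backT h.1 (.node .zero (.leaf ⟨⟨1, 0, 0, 0, 0⟩, rfl, le_rfl, by simp [pk, Nat.ModEq]⟩))
    u).c1.hd.dec h.1 h.2.1).symm

end TN

namespace Tr

theorem val_T1 : (backT T1 (node zero (leaf 1))).eval [true] = ⟨2507, 960, 952, 2517⟩ :=
  TN.val T1 (2 ^ 768) ((2 ^ 768) ^ 5 - 1) _ (by decide +kernel)

end Tr

theorem scal_T1 : scal T1 = ⟨2507, 960, 952, 2517⟩ := by
  have hw : width [true].length T1 = some 1 := by decide +kernel
  rw [← Tr.val_T1, Tr.eval_backT _ 1 T1 [true] rfl hw]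
  refine wfU.back_congr hw rfl fun x hx hl _ => ?_
  obtain ⟨y, rfl⟩ := List.length_eq_one_iff.1 hx
  have : y = true := hl
  subst this
  rfl

end RankGenus
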