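import Pool.Agent.Work.MP_c146e2_gt.Bund
import Pool.Agent.Work.MP_c146e2_gt.Cab
import Pool.Agent.Work.MP_c146e2_gt.Trie
import Pool.Agent.Work.MP_c146e2_gt.Conn
import Pool.Agent.Work.MP_c146e2_gt.ConnC

/-! The bracket of the example. -/

set_option autoImplicit false

namespace RankGenus

open Cy Kind

theorem scal_append {T T' : Word} (hT : IsKnot T) : scal (T ++ T') = scal T * scal T' := by
  rw [scal, LS.back_append, hT.back_scal]
  rfl

theorem scal_pow {T : Word} (hT : IsKnot T) (N : ℕ) :
    scal (List.replicate N T).flatten = scal T ^ N := by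
  induction N with
  | zero => rfl
  | succ N ih => rw [List.replicate_succ, List.flatten_cons, scal_append hT, ih, pow_succ']

theorem evU_cab {T : Word} (hT : IsKnot T) :
    evU (close (cab T)) = (kA + kB * ph) + kA * ph * scal T := by
  have e : close (cab T) = [(cre, 0), (cre, 1)] ++ (cable 2 T ++ [(ov, 0), (ann, 1), (ann, 0)]) := by
    simp [close, cab]
  obtain ⟨g, hg⟩ : ∃ g, g = sysU.back [(ov, 0), (ann, 1), (ann, 0)] false (fun _ => 1) := ⟨_, rfl⟩
  have g1 : g [true, false, true, false] = (kA + kB * ph) * phi := by
    rw [hg, LS.back_eq_pair]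
    decide +kernel
  have g2 : g [true, true, true, false] = kA := by
    rw [hg, LS.back_eq_pair]
    decide +kernel
  have h1 := wfU.back_suffix false g (c := [true, false]) (hT.width_cable 2) [true, false]
  have h2 := wfU.back_suffix false g (c := [true, true]) (hT.width_cable 2) [true, false]
  rw [(hT.cable_ev _).1] at h1
  rw [(hT.cable_ev _).2] at h2
  have hp : sysU.paths [(cre, 0), (cre, 1)] false [] =
      [(ph, [true, false, true, false]), (ph, [true, true, true, false])] := by decide +kernel
  rw [evU, e, LS.back_append, LS.back_append, ← hg, LS.back_eq_pair, hp]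
  simp only [pair_cons, pair_nil, List.cons_append, List.nil_append] at h1 h2 ⊢
  rw [h1, h2, g1, g2]
  linear_combination (kA + kB * ph) * ph_mul_phi

def numE : Cy := (kA + kB * ph) + kA * ph * ((⟨2507, 960, 952, 2517⟩ : Cy) ^ 12 * scal kink)

theorem num_pos : posB (numE * bar numE - D2 ^ 38) = true := by decide +kernel

theorem big : (emb (D2 ^ 38)).re <
    (emb (evU (close (cab T0)) * bar (evU (close (cab T0))))).re := by
  have e : evU (close (cab T0)) = numE := by
    rw [evU_cab isKnot_T0, T0, scal_append (isKnot_T1.pow 12), scal_pow isKnot_T1, scal_T1]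
    rfl
  have h := pos_of_posB num_pos
  rw [map_sub, Complex.sub_re] at h
  rw [e]
  linarith

end RankGenus
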