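import Pool.Agent.Work.MP_c146e2_gt.PosB

/-! The doubled state sum dominates the bracket of a sublink. -/

set_option autoImplicit false

namespace RankGenus

open Cy Kind

theorem pos_posW_mul {u v : Cy} (hu : PosW u) (hv : PosW v) : PosW (u * v) := by
  obtain ⟨r, hr, h1⟩ := hu
  obtain ⟨s, hs, h2⟩ := hv
  exact ⟨r * s, mul_nonneg hr hs, by rw [map_mul, h1, h2]; push_cast; rfl⟩

theorem pos_posW_one : PosW 1 := ⟨1, zero_le_one, by simp⟩

theorem pos_posW_phi : PosW phi := posW_wt ann [true, true] []

theorem pos_posW_pow (j : ℕ) : PosW (phi ^ j) := by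
  induction j with
  | zero => simpa using pos_posW_one
  | succ j ih => rw [pow_succ]; exact pos_posW_mul ih pos_posW_phi

theorem pos_single {w : Cy} (hw : PosW w) (h : List B2 → Cy) : Pos fun d => w * r2 h h d :=
  ⟨[(w, h)], by simpa using hw, fun d _ => by simp⟩

theorem pos_zero : Pos fun _ => 0 := ⟨[], by simp, fun d _ => by simp⟩

theorem pos_sum {ι : Type} (L : List ι) (F : ι → List B3 → Cy) (h : ∀ i ∈ L, Pos (F i)) :
    Pos fun d => (L.map fun i => F i d).sum := by
  induction L with
  | nil => simpa using pos_zero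
  | cons a t ih =>
    have h1 := (h a (by simp)).add (ih fun i hi => h i (by simp [hi]))
    simpa using h1

theorem pos_adm (ci co : List Bool) : ∀ (d : List B3) (l : B2), sysD.adm l d = true →
    (sysC ci co).adm l.1 (xs d) = true ∧ (sysC ci co).adm l.2 (ys d) = true := by
  intro d
  induction d with
  | nil => intro l _; exact ⟨rfl, rfl⟩
  | cons a t ih =>
    intro l h
    simp only [LS.adm, Bool.and_eq_true] at h
    obtain ⟨h1, h2⟩ := h
    have h3 := ih _ h2
    simp only [sysD, Bool.and_eq_true] at h1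
    simp only [xs, ys, List.map_cons, LS.adm, Bool.and_eq_true]
    exact ⟨⟨h1.1, h3.1⟩, ⟨h1.2, h3.2⟩⟩

theorem pos_mem_choices : ∀ q ∈ marks, (q.2.1, q.2.2.1) ∈ choices q.1 := by decide +kernel

theorem pos_count : ∀ q ∈ marks,
    (q.2.1.count true = q.2.2.1.count true ∧ wt q.1 q.2.1 q.2.2.1 = 1) ∨
    (q.2.1.count true + 2 = q.2.2.1.count true ∧ wt q.1 q.2.1 q.2.2.1 = ph) ∨
    (q.2.1.count true = q.2.2.1.count true + 2 ∧ wt q.1 q.2.1 q.2.2.1 = phi) := by
  decide +kernel

theorem pos_weight {k : Kind} {a b : List Bool} {k' : Option Kind} (hm : (k, a, b, k') ∈ marks)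
    (P Q : List Bool) {j : ℕ} (hj : (P ++ b ++ Q).count true = 2 * j) :
    ∃ j', (P ++ a ++ Q).count true = 2 * j' ∧ phi ^ j * wt k a b = phi ^ j' := by
  simp only [List.count_append] at hj ⊢
  rcases pos_count _ hm with ⟨h1, h2⟩ | ⟨h1, h2⟩ | ⟨h1, h2⟩
  · exact ⟨j, by simp only at h1; omega, by simp only at h2; rw [h2, mul_one]⟩
  · simp only at h1 h2
    obtain ⟨i, rfl⟩ : ∃ i, j = i + 1 := ⟨j - 1, by omega⟩
    refine ⟨i, by omega, ?_⟩
    rw [h2, pow_succ, mul_assoc, mul_comm phi, ph_mul_phi, mul_one]
  · simp only at h1 h2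
    exact ⟨j + 1, by omega, by rw [h2, pow_succ]⟩

theorem pos_step_add {σ Λ : Type} (S : LS σ Λ) (g : Kind × ℕ) (l : Λ) (f f' : List σ → Cy)
    (r : Cy) (c : List σ) :
    S.step g l (fun x => f x + r * f' x) c = S.step g l f c + r * S.step g l f' c := by
  simp only [LS.step]
  rw [pair_add, pair_mul]

theorem sub_pos {m : List Bool} {Γ K : Word} (h : Sub m Γ K) :
    ∃ j, m.count true = 2 * j ∧ Pos fun d => sysD.back Γ (false, false) (fun _ => 1) d -
      phi ^ j * r2 (lift m (sysU.back K false fun _ => 1))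
        (lift m (sysU.back K false fun _ => 1)) d := by
  induction h with
  | nil =>
    refine ⟨0, rfl, (pos_single pos_posW_one fun c => if c = [] then 0 else 1).congr ?_⟩
    intro d _
    cases d with
    | nil => simp [LS.back, r2, lift, xs, ys, cols, bar_one]
    | cons a t => simp [LS.back, r2, lift, xs, ys, cols, bar_one]
  | @step P Q a b k k' Γ K hm _ ih =>
    obtain ⟨j, hj, hF⟩ := ih
    obtain ⟨j', hj', hw⟩ := pos_weight hm P Q hj
    refine ⟨j', hj', ?_⟩
    set u := sysU.back K false fun _ => 1 with hu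
    set h0 := lift (P ++ b ++ Q) u with hh0
    obtain ⟨L1, L2, hL⟩ := List.append_of_mem (pos_mem_choices _ hm)
    simp only at hL
    let T : List Bool × List Bool → List B3 → Cy := fun c d => (phi ^ j * wt k c.1 c.2) *
      r2 ((sysC c.1 c.2).step (k, P.length) false h0) ((sysC c.1 c.2).step (k, P.length) false h0) d
    have hT : ∀ c, Pos (T c) := fun c =>
      pos_single (pos_posW_mul (pos_posW_pow j) (posW_wt k c.1 c.2)) _
    have h1 := (hF.step (k, P.length)).add
      ((pos_sum L1 T fun c _ => hT c).add (pos_sum L2 T fun c _ => hT c))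
    refine h1.congr fun d hd => ?_
    have e1 : sysD.back ((k, P.length) :: Γ) (false, false) (fun _ => 1) d =
        sysD.step (k, P.length) (false, false)
          (fun d => sysD.back Γ (false, false) (fun _ => 1) d - phi ^ j * r2 h0 h0 d) d +
          phi ^ j * sysD.step (k, P.length) (false, false) (r2 h0 h0) d := by
      rw [← pos_step_add]
      simp only [LS.back, sub_add_cancel]
    have e2 : phi ^ j * sysD.step (k, P.length) (false, false) (r2 h0 h0) d =
        (L1.map fun c => T c d).sum + (T (a, b) d + (L2.map fun c => T c d).sum) := by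
      rw [stepD_r2, ← List.sum_map_mul_left, hL]
      simp only [List.map_append, List.map_cons, List.sum_append, List.sum_cons, T, mul_assoc]
    have e3 : T (a, b) d = phi ^ j' *
        r2 (lift (P ++ a ++ Q)
            (sysU.back ((k'.toList.map fun x => (x, P.count true)) ++ K) false fun _ => 1))
          (lift (P ++ a ++ Q)
            (sysU.back ((k'.toList.map fun x => (x, P.count true)) ++ K) false fun _ => 1)) d := by
      obtain ⟨a1, a2⟩ := pos_adm a b d (false, false) hd
      simp only [T, hw, r2, LS.back_append]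
      rw [hh0, step_lift hm Q P false u _ a1, step_lift hm Q P false u _ a2]
    rw [e1, e2, e3]
    ring

theorem sub_le {Γ K : Word} (h : Sub [] Γ K) :
    (emb (evU K * bar (evU K))).re ≤ (emb (evD Γ)).re := by
  obtain ⟨j, hj, hF⟩ := sub_pos h
  obtain rfl : j = 0 := by simp at hj; omega
  have h1 := hF.nil
  simp only [pow_zero, one_mul, r2, lift, xs, ys, cols, List.map_nil, if_true, List.filter_nil,
    map_sub, Complex.sub_re] at h1
  simp only [evU, evD]
  linarith

end RankGenus
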