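import Pool.Agent.Work.MP_c146e2_gt.Words

/-! Equation lemmas realised once, so that no two modules realise them separately. -/

theorem Pool.Agent.Eqs.h913acd938a19 : type_of% @RankGenus.bx.eq_def := @RankGenus.bx.eq_def
theorem Pool.Agent.Eqs.hc49ba982547a : type_of% @RankGenus.cableG.eq_5 := @RankGenus.cableG.eq_5
theorem Pool.Agent.Eqs.ha1aa4b5026df : type_of% @RankGenus.nann.eq_def := @RankGenus.nann.eq_def
theorem Pool.Agent.Eqs.he33aaf8766f5 : type_of% @RankGenus.ncre.eq_def := @RankGenus.ncre.eq_def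
theorem Pool.Agent.Eqs.he4fdae4e627b : type_of% @RankGenus.row.eq_def := @RankGenus.row.eq_def
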