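import Pool.Agent.Work.MP_c146e2_gt.RunB
import Pool.Agent.Work.MP_c146e2_gt.WordsEqs

/-! Bundles of parallel strands. -/

set_option autoImplicit false

namespace RankGenus

open Kind

def bundSys {α : Type} (S : Sys α) : Sys (List α) :=
  ⟨fun B => (B.map S.dual).reverse, fun A B => B.map fun b => A.foldr S.o b,
    fun A B => A.map fun a => B.foldl S.u a⟩

variable {α : Type} {S : Sys α} {w : Word} {cs M : List α}

theorem Sys.Compat.bund (h : S.Compat) : (bundSys S).Compat := by
  have h1 : ∀ (A : List α) b, S.dual (A.foldr S.o b) = A.foldr S.o (S.dual b) := fun A b => by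
    induction A with
    | nil => rfl
    | cons a A ih => rw [List.foldr_cons, h.dO, ih, List.foldr_cons]
  have h2 : ∀ (B : List α) a, S.dual (B.foldl S.u a) = B.foldl S.u (S.dual a) := fun B => by
    induction B with
    | nil => exact fun _ => rfl
    | cons b B ih => exact fun a => by rw [List.foldl_cons, ih, h.dU, List.foldl_cons]
  refine ⟨fun x => ?_, fun A B => ?_, fun A B => ?_⟩
  · simp [bundSys, Function.comp_def, h.dd]
  · simp [bundSys, Function.comp_def, h1]
  · simp [bundSys, Function.comp_def, h2]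

theorem bund_closed_len (S : Sys α) (k : ℕ) : (bundSys S).Closed fun B => B.length = k :=
  ⟨fun x h => by simpa [bundSys] using h, fun _ b _ h => by simpa [bundSys] using h,
    fun a _ h _ => by simpa [bundSys] using h⟩

theorem bund_snoc {β : Type} {B : List β} {n : ℕ} (h : B.length = n + 1) :
    ∃ B' b, B = B' ++ [b] ∧ B'.length = n := by
  rcases B.eq_nil_or_concat' with rfl | ⟨B', b, rfl⟩
  · simp at h
  · exact ⟨B', b, rfl, by simpa using h⟩

theorem run_row_ov (P Q B : List α) (a : α) {p n : ℕ} (hp : P.length = p) (hn : B.length = n) :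
    Run S (P ++ a :: B ++ Q) (row ov p n ++ w) cs M ↔
      Run S (P ++ B.map (S.o a) ++ a :: Q) w cs M := by
  induction n generalizing B Q w with
  | zero =>
    obtain rfl := List.length_eq_zero_iff.1 hn
    simp [row]
  | succ n ih =>
    obtain ⟨B, b, rfl, hB⟩ := bund_snoc hn
    have h1 := ih (w := (ov, p + n) :: w) (b :: Q) B hB
    rw [Run.ov_iff _ Q a b (by simp [hp, hB])] at h1
    simpa [row] using h1

theorem run_row_un (P Q B : List α) (a : α) {p n : ℕ} (hp : P.length = p) (hn : B.length = n) :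
    Run S (P ++ a :: B ++ Q) (row un p n ++ w) cs M ↔
      Run S (P ++ B ++ B.foldl S.u a :: Q) w cs M := by
  induction n generalizing B Q w with
  | zero =>
    obtain rfl := List.length_eq_zero_iff.1 hn
    simp [row]
  | succ n ih =>
    obtain ⟨B, b, rfl, hB⟩ := bund_snoc hn
    have h1 := ih (w := (un, p + n) :: w) (b :: Q) B hB
    rw [Run.un_iff _ Q _ b (by simp [hp, hB])] at h1
    simpa [row] using h1

theorem run_bx_ov (P A B Q : List α) {p m n : ℕ} (hp : P.length = p) (hm : A.length = m)
    (hn : B.length = n) : Run S (P ++ A ++ B ++ Q) (bx ov p m n ++ w) cs M ↔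
      Run S (P ++ (bundSys S).o A B ++ A ++ Q) w cs M := by
  induction m generalizing A B Q with
  | zero =>
    obtain rfl := List.length_eq_zero_iff.1 hm
    simp [bx, bundSys]
  | succ m ih =>
    obtain ⟨A, a, rfl, hA⟩ := bund_snoc hm
    have h1 := run_row_ov (S := S) (w := bx ov p m n ++ w) (cs := cs) (M := M) (P ++ A) Q B a
      (p := p + m) (by simp [hp, hA]) hn
    rw [ih A (B.map (S.o a)) (a :: Q) hA (by simp [hn])] at h1
    simpa [bx, bundSys, Function.comp_def] using h1

theorem run_bx_un (P A B Q : List α) {p m n : ℕ} (hp : P.length = p) (hm : A.length = m)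
    (hn : B.length = n) : Run S (P ++ A ++ B ++ Q) (bx un p m n ++ w) cs M ↔
      Run S (P ++ B ++ (bundSys S).u A B ++ Q) w cs M := by
  induction m generalizing A Q with
  | zero =>
    obtain rfl := List.length_eq_zero_iff.1 hm
    simp [bx, bundSys]
  | succ m ih =>
    obtain ⟨A, a, rfl, hA⟩ := bund_snoc hm
    have h1 := run_row_un (S := S) (w := bx un p m n ++ w) (cs := cs) (M := M) (P ++ A) Q B a
      (p := p + m) (by simp [hp, hA]) hn
    rw [ih A _ hA] at h1
    simpa [bx, bundSys] using h1

theorem run_ncre (P Q : List α) {p : ℕ} (hp : P.length = p) (m : ℕ) :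
    Run S (P ++ Q) (ncre p m ++ w) cs M ↔ ∃ B cs', B.length = m ∧ cs = B ++ cs' ∧
      Run S (P ++ B ++ (bundSys S).dual B ++ Q) w cs' M := by
  induction m generalizing w with
  | zero => simp [ncre, bundSys]
  | succ m ih =>
    rw [ncre, List.append_assoc, List.singleton_append, ih]
    constructor
    · rintro ⟨B, cs', hB, rfl, h⟩
      rw [List.append_assoc (P ++ B), Run.cre_iff _ _ (by simp [hp, hB])] at h
      obtain ⟨x, cs', rfl, h⟩ := h
      exact ⟨B ++ [x], cs', by simp [hB], by simp, by simpa [bundSys] using h⟩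
    · rintro ⟨B, cs', hB, rfl, h⟩
      obtain ⟨B, x, rfl, hB'⟩ := bund_snoc hB
      refine ⟨B, x :: cs', hB', by simp, ?_⟩
      rw [List.append_assoc (P ++ B), Run.cre_iff _ _ (by simp [hp, hB'])]
      exact ⟨x, cs', rfl, by simpa [bundSys] using h⟩

theorem run_nann (P A B Q : List α) {p m : ℕ} (hp : P.length = p) (hA : A.length = m)
    (hB : B.length = m) : Run S (P ++ A ++ B ++ Q) (nann p m ++ w) cs M ↔
      B = (bundSys S).dual A ∧ Run S (P ++ Q) w cs M := by
  induction m generalizing A B with
  | zero =>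
    obtain rfl := List.length_eq_zero_iff.1 hA
    obtain rfl := List.length_eq_zero_iff.1 hB
    simp [nann, bundSys]
  | succ m ih =>
    obtain ⟨A, a, rfl, hA'⟩ := bund_snoc hA
    obtain ⟨b, B, rfl⟩ := List.exists_cons_of_length_eq_add_one hB
    have h1 := Run.ann_iff (S := S) (w := nann p m ++ w) (cs := cs) (M := M) (P ++ A) (B ++ Q) a b
      (p := p + m) (by simp [hp, hA'])
    rw [← List.append_assoc (P ++ A) B Q, ih A B hA' (by simpa using hB)] at h1
    simpa [nann, bundSys, and_assoc] using h1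

theorem bund_flat {β : Type} {k : ℕ} {P : List (List β)} (h : ∀ B ∈ P, B.length = k) :
    P.flatten.length = k * P.length := by
  induction P with
  | nil => simp
  | cons B P ih =>
    rw [List.forall_mem_cons] at h
    rw [List.flatten_cons, List.length_append, h.1, ih h.2, List.length_cons]
    ring

theorem bund_cons (k : ℕ) (g : Kind × ℕ) (w : Word) :
    cable k (g :: w) = cableG k g ++ cable k w := List.flatMap_cons

theorem bund_split {β : Type} {L : List β} {n m : ℕ} (h : L.length = n + m) :
    ∃ P Q, L = P ++ Q ∧ P.length = n ∧ Q.length = m :=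
  ⟨L.take n, L.drop n, (List.take_append_drop n L).symm, by simp [h], by simp [h]⟩

theorem bund_split2 {β : Type} {L : List β} {n m : ℕ} (h : L.length = n + (m + 1 + 1)) :
    ∃ P a b Q, L = P ++ a :: b :: Q ∧ P.length = n ∧ Q.length = m := by
  obtain ⟨P, Q, rfl, h1, h2⟩ := bund_split h
  match Q, h2 with
  | a :: b :: Q, h2 => exact ⟨P, a, b, Q, rfl, h1, by simpa using h2⟩

theorem cable_of {k : ℕ} {LL ccs MM : List (List α)} (h : Run (bundSys S) LL w ccs MM)
    (hL : ∀ B ∈ LL, B.length = k) (hc : ∀ B ∈ ccs, B.length = k) :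
    Run S LL.flatten (cable k w) ccs.flatten MM.flatten := by
  induction h with
  | nil L => exact Run.nil _
  | cre P Q x _ ih =>
    rw [List.forall_mem_append] at hL
    rw [List.forall_mem_cons] at hc
    have h1 := ih (by
      simp only [List.forall_mem_append, List.forall_mem_cons]
      exact ⟨hL.1, hc.1, (bund_closed_len S k).dual _ hc.1, hL.2⟩) hc.2
    rw [bund_cons, cableG, List.flatten_append, run_ncre _ _ (bund_flat hL.1)]
    exact ⟨x, _, hc.1, rfl, by simpa using h1⟩
  | ann P Q x _ ih =>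
    simp only [List.forall_mem_append, List.forall_mem_cons] at hL
    have h1 := ih (List.forall_mem_append.2 ⟨hL.1, hL.2.2.2⟩) hc
    have h2 := (run_nann _ x _ _ (bund_flat hL.1) hL.2.1 hL.2.2.1).2
      ⟨rfl, List.flatten_append ▸ h1⟩
    rw [bund_cons, cableG]
    simpa using h2
  | ov P Q a b _ ih =>
    simp only [List.forall_mem_append, List.forall_mem_cons] at hL
    have h1 := ih (by
      simp only [List.forall_mem_append, List.forall_mem_cons]
      exact ⟨hL.1, (bund_closed_len S k).o _ _ hL.2.1 hL.2.2.1, hL.2.1, hL.2.2.2⟩) hc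
    have h2 := (run_bx_ov _ a b Q.flatten (bund_flat hL.1) hL.2.1 hL.2.2.1).2
      (by simpa using h1)
    rw [bund_cons, cableG]
    simpa using h2
  | un P Q a b _ ih =>
    simp only [List.forall_mem_append, List.forall_mem_cons] at hL
    have h1 := ih (by
      simp only [List.forall_mem_append, List.forall_mem_cons]
      exact ⟨hL.1, hL.2.2.1, (bund_closed_len S k).u _ _ hL.2.1 hL.2.2.1, hL.2.2.2⟩) hc
    have h2 := (run_bx_un _ a b Q.flatten (bund_flat hL.1) hL.2.1 hL.2.2.1).2
      (by simpa using h1)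
    rw [bund_cons, cableG]
    simpa using h2

theorem of_cable {k : ℕ} {Lb cb Mb : List Bool} (hb : Run boolSys Lb w cb Mb)
    {LL : List (List α)} (hl : LL.length = Lb.length) (hL : ∀ B ∈ LL, B.length = k)
    (h : Run S LL.flatten (cable k w) cs M) :
    ∃ ccs MM, Run (bundSys S) LL w ccs MM ∧ cs = ccs.flatten ∧ M = MM.flatten ∧
      (∀ B ∈ ccs, B.length = k) ∧ ∀ B ∈ MM, B.length = k := by
  induction hb generalizing LL cs with
  | nil L =>
    obtain ⟨rfl, rfl⟩ := Run.nil_iff.1 h
    exact ⟨[], LL, Run.nil _, rfl, rfl, by simp, hL⟩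
  | cre P Q x _ ih =>
    obtain ⟨P', Q', rfl, h1, h2⟩ := bund_split (hl.trans List.length_append)
    rw [List.forall_mem_append] at hL
    rw [bund_cons, cableG, List.flatten_append, run_ncre _ _ (h1 ▸ bund_flat hL.1)] at h
    obtain ⟨B, cs, hB, rfl, h⟩ := h
    obtain ⟨ccs, MM, k1, rfl, k2, k3, k4⟩ := ih (LL := P' ++ B :: (bundSys S).dual B :: Q')
      (by simp [h1, h2]) (by
        simp only [List.forall_mem_append, List.forall_mem_cons]
        exact ⟨hL.1, hB, (bund_closed_len S k).dual _ hB, hL.2⟩) (by simpa using h)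
    exact ⟨B :: ccs, MM, (Run.cre_iff _ _ h1).2 ⟨B, ccs, rfl, k1⟩, rfl, k2,
      List.forall_mem_cons.2 ⟨hB, k3⟩, k4⟩
  | ann P Q x _ ih =>
    obtain ⟨P', A, B, Q', rfl, h1, h2⟩ := bund_split2 (hl.trans List.length_append)
    simp only [List.forall_mem_append, List.forall_mem_cons] at hL
    rw [bund_cons, cableG] at h
    obtain ⟨e, h⟩ := (run_nann P'.flatten A B Q'.flatten (h1 ▸ bund_flat hL.1) hL.2.1 hL.2.2.1).1
      (by simpa using h)
    obtain ⟨ccs, MM, k1, k2⟩ := ih (LL := P' ++ Q') (by simp [h1, h2])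
      (List.forall_mem_append.2 ⟨hL.1, hL.2.2.2⟩) (by simpa using h)
    exact ⟨ccs, MM, (Run.ann_iff _ _ _ _ h1).2 ⟨e, k1⟩, k2⟩
  | ov P Q a b _ ih =>
    obtain ⟨P', A, B, Q', rfl, h1, h2⟩ := bund_split2 (hl.trans List.length_append)
    simp only [List.forall_mem_append, List.forall_mem_cons] at hL
    rw [bund_cons, cableG] at h
    have h := (run_bx_ov P'.flatten A B Q'.flatten (h1 ▸ bund_flat hL.1) hL.2.1 hL.2.2.1).1
      (by simpa using h)
    obtain ⟨ccs, MM, k1, k2⟩ := ih (LL := P' ++ (bundSys S).o A B :: A :: Q') (by simp [h1, h2])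
      (by
        simp only [List.forall_mem_append, List.forall_mem_cons]
        exact ⟨hL.1, (bund_closed_len S k).o _ _ hL.2.1 hL.2.2.1, hL.2.1, hL.2.2.2⟩)
      (by simpa using h)
    exact ⟨ccs, MM, (Run.ov_iff _ _ _ _ h1).2 k1, k2⟩
  | un P Q a b _ ih =>
    obtain ⟨P', A, B, Q', rfl, h1, h2⟩ := bund_split2 (hl.trans List.length_append)
    simp only [List.forall_mem_append, List.forall_mem_cons] at hL
    rw [bund_cons, cableG] at h
    have h := (run_bx_un P'.flatten A B Q'.flatten (h1 ▸ bund_flat hL.1) hL.2.1 hL.2.2.1).1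
      (by simpa using h)
    obtain ⟨ccs, MM, k1, k2⟩ := ih (LL := P' ++ B :: (bundSys S).u A B :: Q') (by simp [h1, h2])
      (by
        simp only [List.forall_mem_append, List.forall_mem_cons]
        exact ⟨hL.1, hL.2.2.1, (bund_closed_len S k).u _ _ hL.2.1 hL.2.2.1, hL.2.2.2⟩)
      (by simpa using h)
    exact ⟨ccs, MM, (Run.un_iff _ _ _ _ h1).2 k1, k2⟩

theorem IsKnot.width_cable {T : Word} (hT : IsKnot T) (k : ℕ) :
    RankGenus.width k (cable k T) = some k := by
  obtain ⟨cs, h⟩ := hT.1
  have h1 : ∀ (A : List Bool) b, A.foldr boolSys.o b = b := fun A b => by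
    induction A with
    | nil => rfl
    | cons a A ih => exact ih
  have h2 : ∀ (A : List Bool) b, A.foldl boolSys.u b = b := fun A b => by
    induction A with
    | nil => rfl
    | cons a A ih => exact ih
  have h3 := h.map (S' := bundSys boolSys) boolSys.closed_true (fun _ => List.replicate k false)
    (fun _ _ => by simp [bundSys, boolSys]) (fun _ _ _ _ => by simp [bundSys, h1])
    (fun _ _ _ _ => by simp [bundSys, h2]) (fun _ _ => trivial) fun _ _ => trivial
  simpa using (cable_of (k := k) h3 (by simp) (by simp)).width_eq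

end RankGenus
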