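import Pool.Agent.Work.MP_c146e2_gt.Bund

/-! Bundles of Wirtinger labels. -/

set_option autoImplicit false

namespace RankGenus

open Kind

variable {w : Word}

section grp
variable {H : Type} [Group H]

theorem grp_compat : (grpSys H).Compat := by
  refine ⟨fun x => inv_inv x, fun a b => ?_, fun a b => ?_⟩
  · change (a * b * a⁻¹)⁻¹ = a * b⁻¹ * a⁻¹
    group
  · change (b⁻¹ * a * b)⁻¹ = b⁻¹ * a⁻¹ * b
    group

theorem grp_foldr (A : List H) (b : H) :
    A.foldr (grpSys H).o b = A.prod * b * A.prod⁻¹ := by
  induction A with
  | nil => simp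
  | cons a A ih =>
    rw [List.foldr_cons, ih, List.prod_cons]
    change a * _ * a⁻¹ = _
    group

theorem grp_foldl (B : List H) (a : H) :
    B.foldl (grpSys H).u a = B.prod⁻¹ * a * B.prod := by
  induction B generalizing a with
  | nil => simp
  | cons b B ih =>
    rw [List.foldl_cons, ih, List.prod_cons]
    change _ * (b⁻¹ * a * b) * _ = _
    group

theorem grp_o (A B : List H) :
    (bundSys (grpSys H)).o A B = B.map fun b => A.prod * b * A.prod⁻¹ := by
  simp only [bundSys, grp_foldr]

theorem grp_u (A B : List H) :
    (bundSys (grpSys H)).u A B = A.map fun a => B.prod⁻¹ * a * B.prod := by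
  simp only [bundSys, grp_foldl]

theorem grp_dual (B : List H) : (bundSys (grpSys H)).dual B = (B.map fun x => x⁻¹).reverse := rfl

theorem prod_conj (g : H) (B : List H) :
    (B.map fun b => g * b * g⁻¹).prod = g * B.prod * g⁻¹ := by
  induction B with
  | nil => simp
  | cons b B ih =>
    rw [List.map_cons, List.prod_cons, ih, List.prod_cons]
    group

theorem prod_conj' (g : H) (B : List H) :
    (B.map fun b => g⁻¹ * b * g).prod = g⁻¹ * B.prod * g := by
  simpa only [inv_inv] using prod_conj g⁻¹ B

theorem prod_dual (B : List H) : ((bundSys (grpSys H)).dual B).prod = B.prod⁻¹ := by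
  rw [grp_dual, List.prod_inv_reverse]

/-- The products of the bundles form a labelling. -/
theorem run_prod {LL ccs MM : List (List H)} (h : Run (bundSys (grpSys H)) LL w ccs MM) :
    Run (grpSys H) (LL.map List.prod) w (ccs.map List.prod) (MM.map List.prod) := by
  refine h.map (Sys.closed_true _) List.prod (fun B _ => prod_dual B) (fun A B _ _ => ?_)
    (fun A B _ _ => ?_) (fun _ _ => trivial) (fun _ _ => trivial)
  · rw [grp_o, prod_conj]
    rfl
  · rw [grp_u, prod_conj']
    rfl

end grp

end RankGenus
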