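import Pool.Agent.Work.MP_c146e2_gt.Tab
import Pool.Agent.Work.MP_c146e2_gt.WordsEqs
import Pool.Agent.Work.MP_c146e2_gt.RunB

/-! The bracket of a two-fold parallel. -/

set_option autoImplicit false

namespace RankGenus

open Cy Kind

/-- Splitting a total charge into two coloured strands. -/
def ex (l : Bool) (s : B2) : List (Cy × List Bool) :=
  (if s.1 then splT l s.2 else if s.2 == l then creT l else []).map
    fun p => (p.1, p.2.map Prod.snd)

def exs : Bool → List B2 → List (Cy × List Bool)
  | _, [] => [(1, [])]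
  | l, s :: t => (ex l s).flatMap fun p => (exs s.2 t).map fun q => (p.1 * q.1, p.2 ++ q.2)

def Phi (l : Bool) (f : List Bool → Cy) (c : List B2) : Cy := pair (exs l c) f

theorem caba_bind {β γ δ : Type} (L : List (Cy × β)) (M : List (Cy × γ)) (φ : β → γ → δ)
    (f : δ → Cy) : pair (L.flatMap fun p => M.map fun q => (p.1 * q.1, φ p.2 q.2)) f =
      pair L fun b => pair M fun c => f (φ b c) := by
  have h := pair_bind L (fun b => M.map fun q => (q.1, φ b q.2)) f
  simp only [List.map_map, Function.comp_def, pair_map] at h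
  exact h

theorem Phi_cons (l : Bool) (f : List Bool → Cy) (s : B2) (t : List B2) :
    Phi l f (s :: t) = pair (ex l s) fun u => Phi s.2 (fun v => f (u ++ v)) t :=
  caba_bind (ex l s) (exs s.2 t) (· ++ ·) f

theorem Phi_append (l : Bool) (f : List Bool → Cy) (a t : List B2) :
    Phi l f (a ++ t) =
      pair (exs l a) fun u => Phi (sysE.last l a) (fun v => f (u ++ v)) t := by
  induction a generalizing l f with
  | nil => simp [exs, LS.last]
  | cons s a ih =>
    rw [List.cons_append, Phi_cons]
    refine Eq.trans ?_ (Phi_cons l _ s a).symm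
    simp only [ih, List.append_assoc]
    rfl

theorem caba_ex : ∀ (l : Bool) (s : B2), ∀ p ∈ ex l s,
    p.2.length = 2 ∧ sysU.last l p.2 = s.2 := by decide +kernel

theorem exs_spec (l : Bool) (a : List B2) : ∀ p ∈ exs l a,
    p.2.length = 2 * a.length ∧ sysU.last l p.2 = sysE.last l a := by
  induction a generalizing l with
  | nil => simp [exs, LS.last]
  | cons s a ih =>
    intro p hp
    simp only [exs, List.mem_flatMap, List.mem_map] at hp
    obtain ⟨u, hu, q, hq, rfl⟩ := hp
    obtain ⟨h1, h2⟩ := caba_ex l s u hu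
    obtain ⟨h3, h4⟩ := ih s.2 q hq
    refine ⟨by simp only [List.length_append, List.length_cons, h1, h3]; omega, ?_⟩
    rw [LS.last_append, h2, h4]
    rfl

theorem cableG_succ (k : Kind) (i : ℕ) : cableG 2 (k, i + 1) = shift 2 (cableG 2 (k, i)) := by
  cases k <;> simp [cableG, ncre, nann, bx, row, shift] <;> omega

/-- The finite test behind `inter`. -/
def interB : Bool :=
  [cre, ann, ov, un].all fun k => eB.all fun l => (allL eB2 k.inn).all fun a =>
    !sysE.adm l a || sameB 1
      ((exs l a).flatMap fun p =>
        (sysU.paths (cableG 2 (k, 0)) l p.2).map fun q => (p.1 * q.1, q.2))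
      ((sysE.rule k l a).flatMap fun p => (exs l p.2).map fun q => (p.1 * q.1, q.2))

theorem interB_true : interB = true := by decide +kernel

theorem inter {k : Kind} (hk : k ≠ spl ∧ k ≠ mrg) : ∀ (i : ℕ) (l : Bool) (f : List Bool → Cy)
    (c : List B2), sysE.adm l c = true → i + k.inn ≤ c.length →
    Phi l (sysU.back (cableG 2 (k, i)) l f) c = sysE.step (k, i) l (Phi l f) c := by
  intro i
  induction i with
  | zero =>
    intro l f c hc hl
    rw [Nat.zero_add] at hl
    obtain ⟨a, t, rfl, ha⟩ : ∃ a t, c = a ++ t ∧ a.length = k.inn :=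
      ⟨c.take k.inn, c.drop k.inn, (List.take_append_drop _ _).symm, by simp [hl]⟩
    rw [LS.adm_append, Bool.and_eq_true] at hc
    have hw : width (2 * k.inn) (cableG 2 (k, 0)) = some (2 * k.out) := by
      cases k <;> first | decide | simp at hk
    have hB := interB_true
    simp only [interB, List.all_eq_true] at hB
    have h1 := hB k (by cases k <;> simp at hk ⊢) l
      (mem_eB l) a (ha ▸ mem_allL mem_eB2 a)
    rw [hc.1, Bool.not_true, Bool.false_or] at h1
    have h2 := pair_of_sameB h1 fun u => Phi (sysE.last l a) (fun v => f (u ++ v)) t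
    rw [one_mul, pair_bind (exs l a) (sysU.paths (cableG 2 (k, 0)) l),
      pair_bind (sysE.rule k l a) (exs l)] at h2
    have h3 : sysE.act k 0 l (a ++ t) = (sysE.rule k l a).map fun p => (p.1, p.2 ++ t) := by
      rw [LS.act, if_pos hl, ← ha, List.take_left, List.drop_left]
    rw [LS.step, h3, pair_map _ (· ++ t), Phi_append]
    refine Eq.trans (pair_congr fun p hp => ?_) (h2.trans (pair_congr fun p hp => ?_))
    · have h4 := (exs_spec l a p hp).1
      rw [ha] at h4
      simp only [fun v => wfU.back_suffix l f (h4.symm ▸ hw) v, LS.back_eq_pair]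
      exact pair_comm _ _ _
    · rw [Phi_append, wfE.last k l a ha p hp]
  | succ i ih =>
    intro l f c hc hl
    obtain _ | ⟨s, t⟩ := c
    · simp at hl
    rw [LS.adm, Bool.and_eq_true] at hc
    rw [List.length_cons] at hl
    rw [LS.step, LS.act, pair_map _ (s :: ·), Phi_cons]
    simp only [Phi_cons]
    rw [pair_comm]
    refine pair_congr fun p hp => ?_
    obtain ⟨h1, h2⟩ := caba_ex l s p hp
    have h3 := LS.back_shift (S := sysU) (cableG 2 (k, i)) l f p.2
    rw [h1, h2, ← cableG_succ] at h3
    simp only [h3]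
    exact ih s.2 _ t hc.2 (by omega)

theorem caba_step {k : Kind} (hk : k ≠ spl ∧ k ≠ mrg) (i : ℕ) {w : Word} {l : Bool}
    {f : List Bool → Cy} {n : ℕ} (ih : ∀ c : List B2, c.length = n → sysE.adm l c = true →
      Phi l (sysU.back (cable 2 w) l f) c = sysE.back w l (Phi l f) c)
    {c : List B2} (hc : sysE.adm l c = true) (hl : i + k.inn ≤ c.length)
    (hn : c.length - k.inn + k.out = n) :
    Phi l (sysU.back (cable 2 ((k, i) :: w)) l f) c = sysE.back ((k, i) :: w) l (Phi l f) c := by
  rw [cable, List.flatMap_cons, LS.back_append, inter hk i l _ c hc hl]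
  refine pair_congr fun p hp => ?_
  obtain ⟨-, h1, -, h2⟩ := wfE.act hp
  exact ih _ (h1.trans hn) (h2 hc)

theorem inter_word {Lb cb Mb : List Bool} {w : Word} (h : Run boolSys Lb w cb Mb) (l : Bool)
    (f : List Bool → Cy) : ∀ c : List B2, c.length = Lb.length → sysE.adm l c = true →
    Phi l (sysU.back (cable 2 w) l f) c = sysE.back w l (Phi l f) c := by
  induction h with
  | nil L => exact fun c _ _ => rfl
  | cre P Q x _ ih | ann P Q x _ ih | ov P Q a b _ ih | un P Q a b _ ih =>
    intro c h1 h2
    refine caba_step (by decide) _ ih h2 ?_ ?_ <;>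
      simp only [h1, Kind.inn, Kind.out, List.length_append, List.length_cons] <;> omega

end RankGenus
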