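import Pool.Agent.Work.MP_c146e2_gt.Tab
import Pool.Agent.Work.MP_c146e2_gt.F5

/-! The finite test for the doubled model. -/

set_option autoImplicit false

namespace RankGenus

def cD (i : ℕ) : Bool :=
  match basic[i]? with
  | some b => sysD.chk eB2 eB3 1 b.1 b.2.1 b.2.2
  | none => true

theorem cD_fast : (basic.all fun b => N5.chk b.1 b.2.1 b.2.2) = true := by decide +kernel

theorem cD_all (i : ℕ) : cD i = true := by
  unfold cD
  split
  · exact N5.chk_of (List.all_eq_true.1 cD_fast _ (List.mem_of_getElem? ‹_›))
  · rfl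

theorem cD_0 : cD 0 = true := cD_all 0

theorem cD_1 : cD 1 = true := cD_all 1

theorem cD_2 : cD 2 = true := cD_all 2

theorem cD_3 : cD 3 = true := cD_all 3

theorem cD_4 : cD 4 = true := cD_all 4

theorem cD_5 : cD 5 = true := cD_all 5

theorem cD_6 : cD 6 = true := cD_all 6

theorem cD_7 : cD 7 = true := cD_all 7

theorem cD_8 : cD 8 = true := cD_all 8

theorem cD_9 : cD 9 = true := cD_all 9

theorem cD_10 : cD 10 = true := cD_all 10

theorem cD_11 : cD 11 = true := cD_all 11

theorem cD_12 : cD 12 = true := cD_all 12

theorem cD_13 : cD 13 = true := cD_all 13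

theorem cD_14 : cD 14 = true := cD_all 14

theorem cD_15 : cD 15 = true := cD_all 15

theorem cD_16 : cD 16 = true := cD_all 16

theorem cD_17 : cD 17 = true := cD_all 17

theorem cD_18 : cD 18 = true := cD_all 18

theorem cD_19 : cD 19 = true := cD_all 19

theorem cD_20 : cD 20 = true := cD_all 20

theorem cD_21 : cD 21 = true := cD_all 21

theorem cD_22 : cD 22 = true := cD_all 22

theorem cD_23 : cD 23 = true := cD_all 23

theorem cD_24 : cD 24 = true := cD_all 24

theorem cD_25 : cD 25 = true := cD_all 25

theorem cD_26 : cD 26 = true := cD_all 26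

theorem cD_27 : cD 27 = true := cD_all 27

theorem cD_28 : cD 28 = true := cD_all 28

theorem cD_29 : cD 29 = true := cD_all 29

theorem cD_30 : cD 30 = true := cD_all 30

theorem cD_31 : cD 31 = true := cD_all 31

theorem cD_32 : cD 32 = true := cD_all 32

theorem cD_33 : cD 33 = true := cD_all 33

end RankGenus
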