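import Mathlib

/-!
Diagrams of knots and spatial trivalent graphs in Morse position, read from top to bottom.
A diagram is a list of slices; each slice holds one local picture and its position, the number of
strands passing to its left.
-/

set_option autoImplicit false

namespace RankGenus

/-- Local pictures: a maximum, a minimum, a crossing whose strand from upper left to lower right
is the over strand or the under strand, and the two trivalent vertices (one strand splits into
two, two strands merge into one). -/
inductive Kind
  | cre | ann | ov | un | spl | mrg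
  deriving DecidableEq

open Kind

/-- Number of strands entering a local picture from above. -/
def Kind.inn : Kind → ℕ
  | cre => 0 | ann => 2 | ov => 2 | un => 2 | spl => 1 | mrg => 2

/-- Number of strands leaving a local picture downwards. -/
def Kind.out : Kind → ℕ
  | cre => 2 | ann => 0 | ov => 2 | un => 2 | spl => 2 | mrg => 1

abbrev Word : Type := List (Kind × ℕ)

/-- Number of strands at the bottom of a diagram with `n` strands at the top. -/
def width : ℕ → Word → Option ℕ
  | n, [] => some n
  | n, (k, i) :: w => if i + k.inn ≤ n then width (n - k.inn + k.out) w else none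

/-- Put `j` vertical strands to the left of a diagram. -/
def shift (j : ℕ) (w : Word) : Word := w.map fun g => (g.1, g.2 + j)

/-- The local moves `(m, l, r)`: the diagrams `l` and `r` on `m` entering strands. -/
def basic : List (ℕ × Word × Word) :=
  -- planar isotopy: zigzags, rotation of crossings, rotation of vertices
  [(1, [(cre, 1), (ann, 0)], []), (1, [(cre, 0), (ann, 1)], []),
   (3, [(ov, 1), (ann, 0)], [(un, 0), (ann, 1)]), (3, [(un, 1), (ann, 0)], [(ov, 0), (ann, 1)]),
   (1, [(cre, 0), (ov, 1)], [(cre, 1), (un, 0)]), (1, [(cre, 0), (un, 1)], [(cre, 1), (ov, 0)]),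
   (2, [(spl, 0), (ann, 1)], [(mrg, 0)]), (2, [(spl, 1), (ann, 0)], [(mrg, 0)]),
   (1, [(cre, 1), (mrg, 0)], [(spl, 0)]), (1, [(cre, 0), (mrg, 1)], [(spl, 0)]),
   -- Reidemeister moves 1, 2, 3
   (2, [(ov, 0), (ann, 0)], [(ann, 0)]), (2, [(un, 0), (ann, 0)], [(ann, 0)]),
   (0, [(cre, 0), (ov, 0)], [(cre, 0)]), (0, [(cre, 0), (un, 0)], [(cre, 0)]),
   (2, [(ov, 0), (un, 0)], []), (2, [(un, 0), (ov, 0)], []),
   (3, [(ov, 0), (ov, 1), (ov, 0)], [(ov, 1), (ov, 0), (ov, 1)]),
   (3, [(un, 0), (un, 1), (un, 0)], [(un, 1), (un, 0), (un, 1)]),
   -- a strand passes over or under a vertex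
   (2, [(spl, 0), (ov, 1), (ov, 0)], [(ov, 0), (spl, 1)]),
   (2, [(spl, 0), (un, 1), (un, 0)], [(un, 0), (spl, 1)]),
   (2, [(spl, 1), (ov, 0), (ov, 1)], [(ov, 0), (spl, 0)]),
   (2, [(spl, 1), (un, 0), (un, 1)], [(un, 0), (spl, 0)]),
   (3, [(ov, 1), (ov, 0), (mrg, 1)], [(mrg, 0), (ov, 0)]),
   (3, [(un, 1), (un, 0), (mrg, 1)], [(mrg, 0), (un, 0)]),
   (3, [(ov, 0), (ov, 1), (mrg, 0)], [(mrg, 1), (ov, 0)]),
   (3, [(un, 0), (un, 1), (mrg, 0)], [(mrg, 1), (un, 0)]),
   -- twisting a vertex
   (1, [(spl, 0), (ov, 0)], [(spl, 0)]), (1, [(spl, 0), (un, 0)], [(spl, 0)]),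
   (2, [(ov, 0), (mrg, 0)], [(mrg, 0)]), (2, [(un, 0), (mrg, 0)], [(mrg, 0)]),
   -- IH moves
   (2, [(mrg, 0), (spl, 0)], [(spl, 0), (mrg, 1)]), (2, [(mrg, 0), (spl, 0)], [(spl, 1), (mrg, 0)]),
   (3, [(mrg, 0), (mrg, 0)], [(mrg, 1), (mrg, 0)]), (1, [(spl, 0), (spl, 0)], [(spl, 0), (spl, 1)])]

/-- One move on a diagram with `n` strands at the top: a local move, or an exchange of the
heights of two local pictures lying side by side. -/
inductive Move (n : ℕ) : Word → Word → Prop
  | loc (a b l r : Word) (m j n' : ℕ) : (m, l, r) ∈ basic → width n a = some n' → j + m ≤ n' →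
      Move n (a ++ shift j l ++ b) (a ++ shift j r ++ b)
  | comm (a b : Word) (k k' : Kind) (i j : ℕ) :
      Move n (a ++ [(k, i), (k', i + k.out + j)] ++ b) (a ++ [(k', i + k.inn + j), (k, i)] ++ b)

/-- Diagrams related by finitely many moves. -/
def Equiv (n : ℕ) : Word → Word → Prop := Relation.EqvGen (Move n)

/-- Rules for labelling the strands of a link diagram: the two legs of an extremum carry `x` and
`dual x`; at a crossing with upper labels `a`, `b` the over strand keeps its label and the under
strand gets `o a b` (when `a` is over) or `u a b` (when `b` is over). -/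
structure Sys (α : Type) where
  dual : α → α
  o : α → α → α
  u : α → α → α

/-- `Run S L w cs L'`: a labelling of the link diagram `w` with labels `L` at the top, `L'` at the
bottom, and `cs` on the left legs of the maxima. -/
inductive Run {α : Type} (S : Sys α) : List α → Word → List α → List α → Prop
  | nil (L : List α) : Run S L [] [] L
  | cre (P Q : List α) (x : α) {w : Word} {cs L : List α} :
      Run S (P ++ x :: S.dual x :: Q) w cs L → Run S (P ++ Q) ((cre, P.length) :: w) (x :: cs) L
  | ann (P Q : List α) (x : α) {w : Word} {cs L : List α} :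
      Run S (P ++ Q) w cs L → Run S (P ++ x :: S.dual x :: Q) ((ann, P.length) :: w) cs L
  | ov (P Q : List α) (a b : α) {w : Word} {cs L : List α} :
      Run S (P ++ S.o a b :: a :: Q) w cs L → Run S (P ++ a :: b :: Q) ((ov, P.length) :: w) cs L
  | un (P Q : List α) (a b : α) {w : Word} {cs L : List α} :
      Run S (P ++ b :: S.u a b :: Q) w cs L → Run S (P ++ a :: b :: Q) ((un, P.length) :: w) cs L

/-- Labels that are constant along each component. -/
def boolSys : Sys Bool := ⟨id, fun _ b => b, fun a _ => a⟩

/-- A long knot: a link diagram with one strand at the top and at the bottom and with only one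
component. -/
def IsKnot (T : Word) : Prop :=
  (∃ cs, Run boolSys [false] T cs [false]) ∧
    ∀ cs L, Run boolSys [false] T cs L → ∀ c ∈ cs, c = false

/-- Wirtinger labels `(x, g)`: `x` is the loop around the strand and `g` is the part of the
blackboard longitude that ends on the strand. -/
def holSys (H : Type) [Group H] : Sys (H × H) :=
  ⟨fun a => (a.1⁻¹, a.2), fun a b => (a.1 * b.1 * a.1⁻¹, b.2 * a.1⁻¹),
    fun a b => (b.1⁻¹ * a.1 * b.1, a.2 * b.1)⟩

/-- Every representation of the knot group sends the longitude to a power of the meridian; by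
Dehn's lemma this says that the knot is trivial. -/
def Unknotted (T : Word) : Prop :=
  ∀ (H : Type) [Group H] (μ μ' l : H) (cs : List (H × H)),
    Run (holSys H) [(μ, 1)] T cs [(μ', l)] → l ∈ Subgroup.zpowers μ

/-- Prime knots; the connected sum of long knots is the concatenation. -/
def IsPrime (T : Word) : Prop :=
  IsKnot T ∧ ¬ Unknotted T ∧
    ∀ T₁ T₂, IsKnot T₁ → IsKnot T₂ → Equiv 1 T (T₁ ++ T₂) → Unknotted T₁ ∨ Unknotted T₂

/-- Wirtinger relators, with one generator for each maximum: `k` is the next unused generator and
`L` lists the loops around the current strands. -/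
def relators : Word → ℕ → List (FreeGroup ℕ) → List (FreeGroup ℕ)
  | [], _, _ => []
  | (cre, i) :: w, k, L =>
      relators w (k + 1) (L.take i ++ FreeGroup.of k :: (FreeGroup.of k)⁻¹ :: L.drop i)
  | (ann, i) :: w, k, L =>
      (L.getD i 1 * L.getD (i + 1) 1) :: relators w k (L.take i ++ L.drop (i + 2))
  | (ov, i) :: w, k, L => relators w k (L.take i ++
      (L.getD i 1 * L.getD (i + 1) 1 * (L.getD i 1)⁻¹) :: L.getD i 1 :: L.drop (i + 2))
  | (un, i) :: w, k, L => relators w k (L.take i ++ L.getD (i + 1) 1 ::
      ((L.getD (i + 1) 1)⁻¹ * L.getD i 1 * L.getD (i + 1) 1) :: L.drop (i + 2))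
  | _ :: w, k, L => relators w k L

/-- The group of a long knot: generator `0` is the meridian of the top strand, the generators
`1, …, c` belong to the `c` maxima, and the unused generators are killed. -/
abbrev knotGroup (T : Word) : Type :=
  PresentedGroup ({r | r ∈ relators T 1 [FreeGroup.of 0]} ∪
    {r | ∃ k, (T.map Prod.fst).count cre < k ∧ r = FreeGroup.of k})

/-- Ways of marking the strands of a local picture so that the marked strands form a link: marks
above, marks below, and the local picture of the link, if any. -/
def marks : List (Kind × List Bool × List Bool × Option Kind) :=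
  [(cre, [], [true, true], some cre), (cre, [], [false, false], none),
   (ann, [true, true], [], some ann), (ann, [false, false], [], none),
   (ov, [true, true], [true, true], some ov), (ov, [true, false], [false, true], none),
   (ov, [false, true], [true, false], none), (ov, [false, false], [false, false], none),
   (un, [true, true], [true, true], some un), (un, [true, false], [false, true], none),
   (un, [false, true], [true, false], none), (un, [false, false], [false, false], none),
   (spl, [true], [true, false], none), (spl, [true], [false, true], none),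
   (spl, [false], [true, true], some cre), (spl, [false], [false, false], none),
   (mrg, [true, false], [true], none), (mrg, [false, true], [true], none),
   (mrg, [true, true], [false], some ann), (mrg, [false, false], [false], none)]

/-- `Sub m Γ K`: the link diagram `K` is obtained from the graph diagram `Γ` by deleting edges;
`m` marks the strands at the top that are kept, and nothing is left at the bottom. -/
inductive Sub : List Bool → Word → Word → Prop
  | nil : Sub [] [] []
  | step (P Q a b : List Bool) (k : Kind) (k' : Option Kind) {Γ K : Word} :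
      (k, a, b, k') ∈ marks → Sub (P ++ b ++ Q) Γ K →
      Sub (P ++ a ++ Q) ((k, P.length) :: Γ) ((k'.toList.map fun x => (x, P.count true)) ++ K)

/-- The closed knot. -/
def close (T : Word) : Word := (cre, 0) :: T ++ [(ann, 0)]

/-- A planar trivalent graph of genus `t + 1`: a circle with `t` chords. -/
def std (t : ℕ) : Word := close (List.replicate t [(spl, 0), (mrg, 0)]).flatten

/-- The exterior of the knot has a Heegaard splitting of genus `g`: the knot is a cycle in a
trivalent graph that is related to a planar graph of genus `g` by isotopy and IH moves. -/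
def HasSplitting (T : Word) (g : ℕ) : Prop :=
  ∃ t Γ K, g = t + 1 ∧ Sub [] Γ K ∧ Equiv 0 K (close T) ∧ Equiv 0 Γ (std t)

/-- Heegaard genus of the knot exterior. -/
noncomputable def genus (T : Word) : ℕ := sInf {g | HasSplitting T g}

end RankGenus
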