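import Pool.Agent.Work.MP_c146e2_gt.BundG
import Pool.Agent.Work.MP_c146e2_gt.Conn
import Pool.Agent.Work.MP_c146e2_gt.ConnC

/-! Generators of the knot groups. -/

set_option autoImplicit false

namespace RankGenus

open Kind

/-- The group is generated by the meridian and `m` more elements. -/
def Gen (T : Word) (m : ℕ) : Prop :=
  ∀ (H : Type) [Group H] (μ : H) (cs L : List H), Run (grpSys H) [μ] T cs L →
    ∃ ys : List H, ys.length = m ∧
      ∀ S : Subgroup H, μ ∈ S → (∀ y ∈ ys, y ∈ S) → ∀ c ∈ cs, c ∈ S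

theorem genA_kink {α : Type} {S : Sys α} (hS : S.Compat) {a : α} {w : Word} {cs M : List α}
    (h : Run S [a] (kink ++ w) cs M) : ∃ cs', cs = a :: cs' ∧ Run S [S.o a a] w cs' M := by
  obtain ⟨x, cs', rfl, h1⟩ := (Run.cre_iff [a] [] rfl).1 h
  have h2 := (Run.ov_iff [] [S.dual x] a x rfl).1 h1
  obtain ⟨e, h3⟩ := (Run.ann_iff [S.o a x] [] a (S.dual x) rfl).1 h2
  have e1 : x = a := by rw [← hS.dd x, e, hS.dd]
  subst e1
  exact ⟨cs', rfl, h3⟩

theorem genA_tref {α : Type} {S : Sys α} (hS : S.Compat) {a : α} {w : Word} {cs M : List α}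
    (h : Run S [a] ([(cre, 1), (ov, 0), (ov, 0), (ov, 0), (ann, 1)] ++ w) cs M) :
    ∃ c cs', cs = c :: cs' ∧ c = S.o (S.o a c) a ∧ Run S [S.o c (S.o a c)] w cs' M := by
  obtain ⟨x, cs', rfl, h1⟩ := (Run.cre_iff [a] [] rfl).1 h
  have h2 := (Run.ov_iff [] [S.dual x] a x rfl).1 h1
  have h3 := (Run.ov_iff [] [S.dual x] (S.o a x) a rfl).1 h2
  have h4 := (Run.ov_iff [] [S.dual x] (S.o (S.o a x) a) (S.o a x) rfl).1 h3
  obtain ⟨e, h5⟩ := (Run.ann_iff [S.o (S.o (S.o a x) a) (S.o a x)] [] _ (S.dual x) rfl).1 h4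
  have e1 : x = S.o (S.o a x) a := by rw [← hS.dd (S.o (S.o a x) a), ← e, hS.dd]
  rw [← e1] at h5
  exact ⟨x, cs', rfl, e1, h5⟩

section
variable {H : Type} [Group H]

theorem genA_conj (g g' : H) (A : List H) :
    ((A.map fun x => g' * x * g'⁻¹).map fun x => g * x * g⁻¹) =
      A.map fun x => g * g' * x * (g * g')⁻¹ := by
  rw [List.map_map]
  congr 1
  funext x
  simp only [Function.comp_apply, mul_inv_rev, mul_assoc]

theorem genA_mem {S : Subgroup H} {g : H} (hg : g ∈ S) {A : List H} :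
    (∀ x ∈ A.map fun x => g * x * g⁻¹, x ∈ S) ↔ ∀ x ∈ A, x ∈ S := by
  rw [List.forall_mem_map]
  refine forall₂_congr fun x _ => ?_
  rw [S.mul_mem_cancel_right (S.inv_mem hg), S.mul_mem_cancel_left hg]

theorem tref_bund {A : List H} {ccs MM : List (List H)}
    (h : Run (bundSys (grpSys H)) [A] tref ccs MM) :
    ∃ c : H, A.prod * c * A.prod = c * A.prod * c ∧
      MM = [A.map fun x => ((A.prod * c) ^ 3 * A.prod⁻¹) * x * ((A.prod * c) ^ 3 * A.prod⁻¹)⁻¹] ∧
      ∀ S : Subgroup H, (∀ x ∈ A, x ∈ S) → c ∈ S → ∀ B ∈ ccs, ∀ x ∈ B, x ∈ S := by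
  have hS := (grp_compat (H := H)).bund
  rw [tref, List.append_assoc] at h
  obtain ⟨C, c1, rfl, e, h1⟩ := genA_tref hS h
  obtain ⟨c2, rfl, h2⟩ := genA_kink hS h1
  rw [← List.append_nil kink] at h2
  obtain ⟨c3, rfl, h3⟩ := genA_kink hS h2
  obtain ⟨rfl, rfl⟩ := Run.nil_iff.1 h3
  rw [grp_o, grp_o, prod_conj] at e
  obtain ⟨c, hc⟩ : ∃ c, C.prod = c := ⟨_, rfl⟩
  obtain ⟨a, ha⟩ : ∃ a, A.prod = a := ⟨_, rfl⟩
  rw [hc, ha] at e
  have e1 := congrArg List.prod e
  rw [prod_conj, hc, ha] at e1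
  have hb : a * c * a = c * a * c := by
    have : a * c * a = a * c * a⁻¹ * a * (a * c * a⁻¹)⁻¹ * a * c := by group
    rw [this, ← e1]
  have e2 : (bundSys (grpSys H)).o C ((bundSys (grpSys H)).o A C) =
      A.map fun x => c * (a * (a * c * a⁻¹)) * x * (c * (a * (a * c * a⁻¹)))⁻¹ := by
    rw [grp_o, grp_o, hc, ha, e, genA_conj, genA_conj, mul_assoc c a]
  have e3 : c * (a * (a * c * a⁻¹)) * a * (c * (a * (a * c * a⁻¹)))⁻¹ = a := by
    have : c * (a * (a * c * a⁻¹)) * a * (c * (a * (a * c * a⁻¹)))⁻¹ =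
        c * (a * (a * c * a⁻¹ * a * (a * c * a⁻¹)⁻¹) * a⁻¹) * c⁻¹ := by group
    rw [this, ← e1]
    calc c * (a * c * a⁻¹) * c⁻¹ = c * a * c * a⁻¹ * c⁻¹ := by group
      _ = a := by rw [← hb]; group
  have e4 : (a * c) ^ 3 * a⁻¹ = a * (a * (c * (a * (a * c * a⁻¹)))) := by
    calc (a * c) ^ 3 * a⁻¹ = a * (c * a * c) * a * c * a⁻¹ := by simp only [pow_succ]; group
      _ = _ := by rw [← hb]; group
  rw [e2]
  simp only [grp_o, prod_conj, ha, e3, mul_inv_cancel_right]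
  refine ⟨c, hb, by rw [genA_conj, genA_conj, e4, mul_assoc a a], fun S hA hcS B hB => ?_⟩
  have haS : a ∈ S := ha ▸ S.list_prod_mem hA
  have h4 : a * c * a⁻¹ ∈ S := S.mul_mem (S.mul_mem haS hcS) (S.inv_mem haS)
  have h5 := (genA_mem (S.mul_mem hcS (S.mul_mem haS h4))).2 hA
  simp only [List.mem_cons, List.not_mem_nil, or_false] at hB
  rcases hB with rfl | rfl | rfl
  · rw [e]
    exact (genA_mem h4).2 hA
  · exact h5
  · exact (genA_mem haS).2 h5

/-- Two conjugates of the slope five generate the trefoil group modulo its centre. -/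
theorem trick {a c : H} (h : a * c * a = c * a * c) (d : H) :
    ∃ g : H, ∀ S : Subgroup H, (a * c) ^ 3 * a⁻¹ ∈ S → d⁻¹ * ((a * c) ^ 3 * a⁻¹) * d ∈ S →
      g ∈ S → d ∈ S ∧ (a ∈ S → c ∈ S) := by
  have e : (c * a) ^ 3 = (a * c) ^ 3 := by
    calc (c * a) ^ 3 = (c * a * c) * (a * c * a) := by simp only [pow_succ]; group
      _ = (a * c * a) * (c * a * c) := by rw [h]
      _ = _ := by simp only [pow_succ]; group
  have ca : Commute ((a * c) ^ 3) a := by
    have : (a * c) ^ 3 * a = a * (c * a) ^ 3 := by simp only [pow_succ]; group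
    rw [commute_iff_eq, this, e]
  have cc : Commute ((a * c) ^ 3) c := by
    have : c * (a * c) ^ 3 = (c * a) ^ 3 * c := by simp only [pow_succ]; group
    rw [commute_iff_eq, this, e]
  generalize (a * c) ^ 3 = f at ca cc
  have b : ∀ x y : H, Commute f x → Commute f y →
      f * x⁻¹ * (f * y⁻¹) * (f * x⁻¹) = f * f * f * (x * y * x)⁻¹ := fun x y hx hy => by
    rw [hx.inv_right.symm.mul_mul_mul_comm,
      ((hx.inv_right.mul_right hy.inv_right).symm).mul_mul_mul_comm]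
    simp only [mul_inv_rev, mul_assoc]
  have b1 : f * a⁻¹ * (f * c⁻¹) * (f * a⁻¹) = f * c⁻¹ * (f * a⁻¹) * (f * c⁻¹) := by
    rw [b a c ca cc, b c a cc ca, h]
  obtain ⟨m, hm⟩ : ∃ m, f * a⁻¹ = m := ⟨_, rfl⟩
  obtain ⟨n, hn⟩ : ∃ n, f * c⁻¹ = n := ⟨_, rfl⟩
  rw [hm, hn] at b1
  rw [hm]
  refine ⟨d⁻¹ * (m * n * m)⁻¹, fun S h1 h2 h3 => ?_⟩
  have h4 : n ∈ S := by
    have : n = (d⁻¹ * (m * n * m)⁻¹)⁻¹ * (d⁻¹ * m * d) * (d⁻¹ * (m * n * m)⁻¹) := by
      calc n = (n * m * n) * m * (m * n * m)⁻¹ * (m * n * m * m⁻¹ * n⁻¹ * m⁻¹) := by group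
        _ = _ := by rw [← b1]; group
    rw [this]
    exact S.mul_mem (S.mul_mem (S.inv_mem h3) h2) h3
  refine ⟨?_, fun h5 => ?_⟩
  · have := S.inv_mem (S.mul_mem h3 (S.mul_mem (S.mul_mem h1 h4) h1))
    rwa [inv_mul_cancel_right, inv_inv] at this
  · have : c = n⁻¹ * (m * a) := by rw [← hm, ← hn]; group
    rw [this]
    exact S.mul_mem (S.inv_mem h4) (S.mul_mem h1 h5)

end

theorem gen_nil : Gen [] 0 := by
  intro H _ μ cs L h
  obtain ⟨rfl, -⟩ := Run.nil_iff.1 h
  exact ⟨[], rfl, fun _ _ _ _ hc => absurd hc List.not_mem_nil⟩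

theorem gen_kink : Gen kink 0 := by
  intro H _ μ cs L h
  rw [← List.append_nil kink] at h
  obtain ⟨c, rfl, h1⟩ := genA_kink grp_compat h
  obtain ⟨rfl, -⟩ := Run.nil_iff.1 h1
  exact ⟨[], rfl, fun S hμ _ c hc => List.mem_singleton.1 hc ▸ hμ⟩

theorem Gen.append {T T' : Word} {m m' : ℕ} (hT : IsKnot T) (h : Gen T m) (h' : Gen T' m') :
    Gen (T ++ T') (m + m') := by
  intro H _ μ cs L hr
  obtain ⟨M, c1, c2, rfl, h1, h2⟩ := hr.split
  obtain ⟨b, rfl⟩ := hT.out h1
  have e : b = μ := by simpa using h1.prod_eq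
  subst e
  obtain ⟨y1, l1, a1⟩ := h H b c1 _ h1
  obtain ⟨y2, l2, a2⟩ := h' H b c2 _ h2
  refine ⟨y1 ++ y2, by rw [List.length_append, l1, l2], fun S hμ hy c hc => ?_⟩
  rcases List.mem_append.1 hc with hc | hc
  · exact a1 S hμ (fun y h => hy y (List.mem_append_left _ h)) c hc
  · exact a2 S hμ (fun y h => hy y (List.mem_append_right _ h)) c hc

theorem Gen.cab {T : Word} {m : ℕ} (hT : IsKnot T) (h : Gen T m) : Gen (cab T) (m + 1) := by
  intro H _ μ cs L hr
  obtain ⟨y, a', y', ccs, h1, rfl, -, -, -⟩ := hT.of_cab hr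
  obtain ⟨ys, l1, a1⟩ := h H _ _ _ (run_prod h1)
  refine ⟨y :: ys, by rw [List.length_cons, l1], fun S hμ hy c hc => ?_⟩
  have hy0 : y ∈ S := hy y List.mem_cons_self
  have h0 : ∀ x ∈ [μ, y], x ∈ S := by simp [hμ, hy0]
  have h2 := a1 S (S.list_prod_mem h0) fun z hz => hy z (List.mem_cons_of_mem _ hz)
  have h3 := hT.use (S := bundSys (grpSys H)) (P := fun B => B.prod ∈ S)
    ⟨fun B hB => by rw [prod_dual]; exact S.inv_mem hB,
      fun A B hA hB => by rw [grp_o, prod_conj]; exact S.mul_mem (S.mul_mem hA hB) (S.inv_mem hA),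
      fun A B hA hB => by rw [grp_u, prod_conj']; exact S.mul_mem (S.mul_mem (S.inv_mem hB) hA) hB⟩
    (fun B => ∀ x ∈ B, x ∈ S) (fun B _ => by
      simp only [grp_dual, List.mem_reverse, List.forall_mem_map, inv_mem_iff])
    (fun A B hA _ => by rw [grp_o]; exact genA_mem hA)
    (fun A B _ hB => by
      have := genA_mem (A := A) (S.inv_mem hB)
      rw [inv_inv] at this
      rw [grp_u]
      exact this)
    h1 (S.list_prod_mem h0) (fun B hB => h2 _ (List.mem_map_of_mem hB)) h0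
  rcases List.mem_cons.1 hc with rfl | hc
  · exact hy0
  · obtain ⟨B, hB, hc⟩ := List.mem_flatten.1 hc
    exact h3.1 B hB c hc

theorem genA_split {α β : Type} {L : List α} {P Q : List β} {x y : β}
    (h : L.length = (P ++ x :: y :: Q).length) : ∃ P' a b Q', P'.length = P.length ∧
      Q'.length = Q.length ∧ L = P' ++ a :: b :: Q' := by
  induction P generalizing L with
  | nil =>
    rcases L with _ | ⟨a, _ | ⟨b, Q'⟩⟩
    · simp at h
    · simp at h
    · exact ⟨[], a, b, Q', rfl, by simpa using h, rfl⟩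
  | cons p P ih =>
    rcases L with _ | ⟨l, L⟩
    · simp at h
    · obtain ⟨P', a, b, Q', h1, h2, rfl⟩ := ih (L := L) (by simpa using h)
      exact ⟨l :: P', a, b, Q', by simp [h1], h2, rfl⟩

theorem genA_get {α : Type} (P Q : List α) (a b d : α) :
    (P ++ a :: b :: Q).take P.length = P ∧ (P ++ a :: b :: Q).drop (P.length + 2) = Q ∧
      (P ++ a :: b :: Q).getD P.length d = a ∧ (P ++ a :: b :: Q).getD (P.length + 1) d = b := by
  induction P with
  | nil => simp
  | cons p P ih => simp [Nat.add_right_comm _ 1 2]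

/-- The tautological labelling. -/
theorem run_relators {G : Type} [Group G] (φ : FreeGroup ℕ →* G) {Lb cb Mb : List Bool} {w : Word}
    (h : Run boolSys Lb w cb Mb) : ∀ (k : ℕ) (L : List (FreeGroup ℕ)), L.length = Lb.length →
      (∀ r ∈ relators w k L, φ r = 1) → ∃ M, Run (grpSys G) (L.map φ) w
        ((List.range' k (nc w)).map fun j => φ (FreeGroup.of j)) M := by
  induction h with
  | nil => exact fun k L _ _ => ⟨_, Run.nil _⟩
  | @cre P Q x w cs M _ ih =>
    intro k L hl hr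
    rw [List.length_append] at hl
    have hp : ((L.take P.length).map φ).length = P.length := by
      rw [List.length_map, List.length_take]
      omega
    obtain ⟨N, hN⟩ := ih (k + 1) _ (by
      simp only [List.length_append, List.length_cons, List.length_take, List.length_drop]
      omega) hr
    refine ⟨N, ?_⟩
    rw [← List.take_append_drop P.length L, List.map_append, Run.cre_iff _ _ hp]
    refine ⟨φ (FreeGroup.of k), (List.range' (k + 1) (nc w)).map fun j => φ (FreeGroup.of j),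
      by simp [nc, List.range'_succ], ?_⟩
    simpa [grpSys] using hN
  | @ann P Q x w cs M _ ih =>
    intro k L hl hr
    obtain ⟨P', a, b, Q', h1, h2, rfl⟩ := genA_split hl
    obtain ⟨e1, e2, e3, e4⟩ := genA_get P' Q' a b 1
    rw [relators, ← h1, e1, e2, e3, e4] at hr
    obtain ⟨N, hN⟩ := ih k _ (by simp [h1, h2]) fun r h => hr r (List.mem_cons_of_mem _ h)
    refine ⟨N, ?_⟩
    have e5 := hr _ List.mem_cons_self
    rw [map_mul] at e5
    rw [List.map_append, List.map_cons, List.map_cons, Run.ann_iff _ _ _ _ (by simp [h1])]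
    refine ⟨eq_inv_of_mul_eq_one_right e5, ?_⟩
    simpa [nc] using hN
  | @ov P Q x y w cs M _ ih =>
    intro k L hl hr
    obtain ⟨P', a, b, Q', h1, h2, rfl⟩ := genA_split hl
    obtain ⟨e1, e2, e3, e4⟩ := genA_get P' Q' a b 1
    rw [relators, ← h1, e1, e2, e3, e4] at hr
    obtain ⟨N, hN⟩ := ih k _ (by simp [h1, h2]) hr
    refine ⟨N, ?_⟩
    rw [List.map_append, List.map_cons, List.map_cons, Run.ov_iff _ _ _ _ (by simp [h1])]
    simpa [nc, grpSys] using hN
  | @un P Q x y w cs M _ ih =>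
    intro k L hl hr
    obtain ⟨P', a, b, Q', h1, h2, rfl⟩ := genA_split hl
    obtain ⟨e1, e2, e3, e4⟩ := genA_get P' Q' a b 1
    rw [relators, ← h1, e1, e2, e3, e4] at hr
    obtain ⟨N, hN⟩ := ih k _ (by simp [h1, h2]) hr
    refine ⟨N, ?_⟩
    rw [List.map_append, List.map_cons, List.map_cons, Run.un_iff _ _ _ _ (by simp [h1])]
    simpa [nc, grpSys] using hN

theorem Gen.rank {T : Word} {m : ℕ} (hT : IsKnot T) (h : Gen T m) :
    ∃ f : Fin (m + 1) → knotGroup T, Subgroup.closure (Set.range f) = ⊤ := by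
  obtain ⟨cb, hb⟩ := hT.1
  obtain ⟨M, hM⟩ := run_relators (G := knotGroup T) (PresentedGroup.mk _) hb 1 [FreeGroup.of 0] rfl
    fun r hr => PresentedGroup.one_of_mem (Or.inl hr)
  obtain ⟨ys, rfl, a1⟩ := h _ _ _ _ hM
  refine ⟨((PresentedGroup.of 0 : knotGroup T) :: ys).get, eq_top_iff.2 fun x _ => ?_⟩
  have h0 : ∀ y ∈ (PresentedGroup.of 0 : knotGroup T) :: ys, y ∈ Subgroup.closure
      (Set.range ((PresentedGroup.of 0 : knotGroup T) :: ys).get) := fun y hy =>
    Subgroup.subset_closure (List.mem_iff_get.1 hy)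
  have h1 := a1 _ (h0 _ List.mem_cons_self) fun y hy => h0 y (List.mem_cons_of_mem _ hy)
  refine PresentedGroup.generated_by _ _ (fun j => ?_) x
  rcases Nat.eq_zero_or_pos j with rfl | hj
  · exact h0 _ List.mem_cons_self
  by_cases hk : nc T < j
  · have : (PresentedGroup.of j : knotGroup T) = 1 := PresentedGroup.one_of_mem (Or.inr ⟨j, hk, rfl⟩)
    rw [this]
    exact one_mem _
  · exact h1 _ (List.mem_map_of_mem (f := fun j => PresentedGroup.mk _ (FreeGroup.of j))
      (List.mem_range'_1.2 ⟨hj, by omega⟩))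

end RankGenus
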