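import Pool.Agent.Work.MP_c146e2_gt.ChkD0

/-! Invariance of the two state sums and the value on the planar graph. -/

set_option autoImplicit false

namespace RankGenus

open Cy Kind

theorem inv_cD : ∀ i, i < 34 → cD i = true := by
  intro i hi
  interval_cases i
  exacts [cD_0, cD_1, cD_2, cD_3, cD_4, cD_5, cD_6, cD_7, cD_8, cD_9, cD_10, cD_11, cD_12, cD_13,
    cD_14, cD_15, cD_16, cD_17, cD_18, cD_19, cD_20, cD_21, cD_22, cD_23, cD_24, cD_25, cD_26,
    cD_27, cD_28, cD_29, cD_30, cD_31, cD_32, cD_33]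

theorem inv_chkD : ∀ b ∈ basic, sysD.chk eB2 eB3 1 b.1 b.2.1 b.2.2 = true := by
  intro b hb
  obtain ⟨i, hi, rfl⟩ := List.getElem_of_mem hb
  have h := inv_cD i hi
  unfold cD at h
  rw [List.getElem?_eq_getElem hi] at h
  exact h

def invUnits : List Cy := [1, -(kA * kA * kA), -(kB * kB * kB)]

theorem inv_chkU : (basic.all fun b => invUnits.any fun u =>
    sysU.chk eB eB u b.1 b.2.1 b.2.2) = true := by decide +kernel

theorem inv_units : ∀ u ∈ invUnits, u * bar u = 1 := by decide

theorem inv_bub : sysD.chk eB2 eB3 D2 1 [(spl, 0), (mrg, 0)] [] = true := by decide +kernel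

theorem inv_circ : sysD.chk eB2 eB3 D2 0 [(cre, 0), (ann, 0)] [] = true := by decide +kernel

theorem inv_bubs (t : ℕ) (l : B2) (f : List B3 → Cy) (c : List B3) (hl : c.length = 2)
    (hc : sysD.adm l c = true) :
    sysD.back (List.replicate t [(spl, 0), (mrg, 0)]).flatten l f c = D2 ^ t * f c := by
  induction t generalizing f with
  | zero => simp [LS.back]
  | succ t ih =>
    rw [List.replicate_succ', List.flatten_append, LS.back_append, ih, pow_succ, mul_assoc]
    congr 1
    obtain ⟨a, b, rfl⟩ := List.length_eq_two.1 hl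
    have ha : sysD.adm l [a] = true := by
      simp only [LS.adm, Bool.and_eq_true] at hc ⊢
      exact ⟨hc.1, trivial⟩
    have h1 := wfD.back_suffix (w := [(spl, 0), (mrg, 0)]) (n' := 1) l f (c := [a]) rfl [b]
    have h2 := LS.back_of_chk mem_eB2 mem_eB3 inv_bub l (fun x => f (x ++ [b])) (a := [a]) rfl ha
    simpa [LS.back] using h1.trans h2

theorem evD_equiv {w w' : Word} (h : Equiv 0 w w') : evD w = evD w' := by
  obtain ⟨u, rfl, hu⟩ := wfD.equiv (fun u => u = 1) rfl (fun u v hu hv => by rw [hu, hv, mul_one])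
    (fun u hu => ⟨1, rfl, by rw [hu, mul_one]⟩)
    (fun b hb => ⟨1, rfl, fun l f a ha hadm =>
      LS.back_of_chk mem_eB2 mem_eB3 (inv_chkD b hb) l f ha hadm⟩) h
  have := hu (false, false) (fun _ => 1) [] rfl rfl
  rwa [one_mul] at this

theorem evU_equiv {w w' : Word} (h : Equiv 0 w w') :
    evU w * bar (evU w) = evU w' * bar (evU w') := by
  obtain ⟨u, hu1, hu⟩ := wfU.equiv (fun u => u * bar u = 1) (by decide)
    (fun u v hu hv => by
      rw [bar_mul]
      linear_combination (v * bar v) * hu + hv)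
    (fun u hu => ⟨bar u, by rw [bar_bar, mul_comm]; exact hu, by rw [mul_comm]; exact hu⟩)
    (fun b hb => by
      obtain ⟨u, hu, h⟩ := List.any_eq_true.1 (List.all_eq_true.1 inv_chkU b hb)
      exact ⟨u, inv_units u hu, fun l f a ha hadm => LS.back_of_chk mem_eB mem_eB h l f ha hadm⟩) h
  have e : evU w = u * evU w' := hu false (fun _ => 1) [] rfl rfl
  rw [e, bar_mul]
  linear_combination (evU w' * bar (evU w')) * hu1

theorem evD_std (t : ℕ) : evD (std t) = D2 ^ (t + 1) := by
  have h1 := LS.back_of_chk mem_eB2 mem_eB3 inv_circ (false, false) (fun _ => 1) (a := []) rfl rfl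
  have h2 : evD (std t) = sysD.back [(cre, 0)] (false, false)
      (fun c => D2 ^ t * sysD.back [(ann, 0)] (false, false) (fun _ => 1) c) [] := by
    have e : std t = [(cre, 0)] ++
        ((List.replicate t [(spl, 0), (mrg, 0)]).flatten ++ [(ann, 0)]) := rfl
    rw [evD, e, LS.back_append, LS.back_append]
    exact wfD.back_congr (n' := 2) rfl rfl fun x hx _ ha => inv_bubs t _ _ x hx ha
  rw [h2, LS.back_mul, ← LS.back_append]
  have e : ([(cre, 0)] ++ [(ann, 0)] : Word) = [(cre, 0), (ann, 0)] := rfl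
  rw [e, h1, pow_succ]
  simp [LS.back]

end RankGenus
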