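import Pool.Agent.Work.MP_c146e2_gt.Words

/-! General facts on labellings. -/

set_option autoImplicit false

namespace RankGenus

open Kind

def Sys.prod {α β : Type} (S : Sys α) (S' : Sys β) : Sys (α × β) :=
  ⟨fun a => (S.dual a.1, S'.dual a.2), fun a b => (S.o a.1 b.1, S'.o a.2 b.2),
    fun a b => (S.u a.1 b.1, S'.u a.2 b.2)⟩

def grpSys (H : Type) [Group H] : Sys H :=
  ⟨fun a => a⁻¹, fun a b => a * b * a⁻¹, fun a b => b⁻¹ * a * b⟩

structure Sys.Closed {α : Type} (S : Sys α) (P : α → Prop) : Prop where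
  dual : ∀ x, P x → P (S.dual x)
  o : ∀ a b, P a → P b → P (S.o a b)
  u : ∀ a b, P a → P b → P (S.u a b)

theorem Sys.closed_true {α : Type} (S : Sys α) : S.Closed fun _ => True :=
  ⟨fun _ _ => trivial, fun _ _ _ _ => trivial, fun _ _ _ _ => trivial⟩

structure Sys.Compat {α : Type} (S : Sys α) : Prop where
  dd : ∀ x, S.dual (S.dual x) = x
  dO : ∀ a b, S.dual (S.o a b) = S.o a (S.dual b)
  dU : ∀ a b, S.dual (S.u a b) = S.u (S.dual a) b

def nc (w : Word) : ℕ := (w.map Prod.fst).count cre
def na (w : Word) : ℕ := (w.map Prod.fst).count ann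

theorem width_append {n m : ℕ} {w : Word} (h : width n w = some m) (w' : Word) :
    width n (w ++ w') = width m w' := by
  induction w generalizing n with
  | nil =>
    obtain rfl : n = m := Option.some.inj h
    rfl
  | cons g w ih =>
    obtain ⟨k, i⟩ := g
    simp only [width, List.cons_append] at h ⊢
    split_ifs at h ⊢
    exact ih h

theorem width_of_append {n r : ℕ} {w w' : Word} (h : width n (w ++ w') = some r) :
    ∃ m, width n w = some m ∧ width m w' = some r := by
  induction w generalizing n with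
  | nil => exact ⟨n, rfl, h⟩
  | cons g w ih =>
    obtain ⟨k, i⟩ := g
    simp only [width, List.cons_append] at h ⊢
    split_ifs at h ⊢
    exact ih h

theorem width_add {n m : ℕ} {w : Word} (h : width n w = some m) (r : ℕ) :
    width (n + r) w = some (m + r) := by
  induction w generalizing n with
  | nil =>
    obtain rfl : n = m := Option.some.inj h
    rfl
  | cons g w ih =>
    obtain ⟨k, i⟩ := g
    simp only [width] at h ⊢
    split_ifs at h with h1
    rw [if_pos (by omega), show n + r - k.inn + k.out = n - k.inn + k.out + r by omega]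
    exact ih h

theorem width_shift {n m : ℕ} {w : Word} (h : width n w = some m) (j : ℕ) :
    width (j + n) (shift j w) = some (j + m) := by
  induction w generalizing n with
  | nil =>
    obtain rfl : n = m := Option.some.inj h
    rfl
  | cons g w ih =>
    obtain ⟨k, i⟩ := g
    simp only [width, shift, List.map_cons] at h ⊢
    split_ifs at h with h1
    rw [if_pos (by omega), show j + n - k.inn + k.out = j + (n - k.inn + k.out) by omega]
    exact ih h

theorem shift_append (j : ℕ) (w w' : Word) : shift j (w ++ w') = shift j w ++ shift j w' := by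
  simp only [shift, List.map_append]

theorem shift_shift (i j : ℕ) (w : Word) : shift j (shift i w) = shift (i + j) w := by
  simp only [shift, List.map_map, Function.comp_def, add_assoc]

theorem shift_zero (w : Word) : shift 0 w = w := by
  simp only [shift, add_zero, List.map_id']

theorem basic_width : ∀ b ∈ basic, ∃ r, width b.1 b.2.1 = some r ∧ width b.1 b.2.2 = some r := by
  have h : ∀ b ∈ basic, (width b.1 b.2.1).isSome = true ∧ width b.1 b.2.1 = width b.1 b.2.2 := by
    decide
  intro b hb
  obtain ⟨r, hr⟩ := Option.isSome_iff_exists.1 (h b hb).1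
  exact ⟨r, hr, (h b hb).2 ▸ hr⟩

namespace Run
variable {α β : Type} {S : Sys α} {S' : Sys β} {L M N cs ds : List α} {w w' : Word}

theorem nil_iff : Run S L [] cs M ↔ cs = [] ∧ M = L := by
  refine ⟨fun h => ?_, ?_⟩
  · cases h
    exact ⟨rfl, rfl⟩
  · rintro ⟨rfl, rfl⟩
    exact Run.nil _

theorem cre_iff (P Q : List α) {p : ℕ} (hp : P.length = p) :
    Run S (P ++ Q) ((Kind.cre, p) :: w) cs M ↔
      ∃ x cs', cs = x :: cs' ∧ Run S (P ++ x :: S.dual x :: Q) w cs' M := by
  subst hp
  refine ⟨fun h => ?_, fun ⟨x, _, e, h⟩ => e ▸ Run.cre P Q x h⟩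
  generalize hL : P ++ Q = L0 at h
  generalize hq : P.length = q at h
  cases h with
  | cre P' Q' x h =>
    obtain ⟨rfl, h2⟩ := List.append_inj hL hq
    exact ⟨_, _, rfl, h2 ▸ h⟩

theorem ann_iff (P Q : List α) (a b : α) {p : ℕ} (hp : P.length = p) :
    Run S (P ++ a :: b :: Q) ((Kind.ann, p) :: w) cs M ↔
      b = S.dual a ∧ Run S (P ++ Q) w cs M := by
  subst hp
  refine ⟨fun h => ?_, fun ⟨e, h⟩ => e ▸ Run.ann P Q a h⟩
  generalize hL : P ++ a :: b :: Q = L0 at h
  generalize hq : P.length = q at h
  cases h with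
  | ann P' Q' x h =>
    obtain ⟨rfl, h2⟩ := List.append_inj hL hq
    cases h2
    exact ⟨rfl, h⟩

theorem ov_iff (P Q : List α) (a b : α) {p : ℕ} (hp : P.length = p) :
    Run S (P ++ a :: b :: Q) ((Kind.ov, p) :: w) cs M ↔
      Run S (P ++ S.o a b :: a :: Q) w cs M := by
  subst hp
  refine ⟨fun h => ?_, Run.ov P Q a b⟩
  generalize hL : P ++ a :: b :: Q = L0 at h
  generalize hq : P.length = q at h
  cases h with
  | ov P' Q' x y h =>
    obtain ⟨rfl, h2⟩ := List.append_inj hL hq
    cases h2
    exact h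

theorem un_iff (P Q : List α) (a b : α) {p : ℕ} (hp : P.length = p) :
    Run S (P ++ a :: b :: Q) ((Kind.un, p) :: w) cs M ↔
      Run S (P ++ b :: S.u a b :: Q) w cs M := by
  subst hp
  refine ⟨fun h => ?_, Run.un P Q a b⟩
  generalize hL : P ++ a :: b :: Q = L0 at h
  generalize hq : P.length = q at h
  cases h with
  | un P' Q' x y h =>
    obtain ⟨rfl, h2⟩ := List.append_inj hL hq
    cases h2
    exact h

theorem not_spl {p : ℕ} : ¬ Run S L ((Kind.spl, p) :: w) cs M := by
  intro h
  cases h

theorem not_mrg {p : ℕ} : ¬ Run S L ((Kind.mrg, p) :: w) cs M := by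
  intro h
  cases h

theorem append (h : Run S L w cs M) (h' : Run S M w' ds N) : Run S L (w ++ w') (cs ++ ds) N := by
  induction h with
  | nil => exact h'
  | cre P Q x _ ih => exact Run.cre P Q x (ih h')
  | ann P Q x _ ih => exact Run.ann P Q x (ih h')
  | ov P Q a b _ ih => exact Run.ov P Q a b (ih h')
  | un P Q a b _ ih => exact Run.un P Q a b (ih h')

theorem split (h : Run S L (w ++ w') cs N) :
    ∃ M c1 c2, cs = c1 ++ c2 ∧ Run S L w c1 M ∧ Run S M w' c2 N := by
  induction w generalizing L cs with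
  | nil => exact ⟨L, [], cs, rfl, Run.nil _, h⟩
  | cons g w ih =>
    rw [List.cons_append] at h
    cases h with
    | cre P Q x h =>
      obtain ⟨M, c1, c2, rfl, h1, h2⟩ := ih h
      exact ⟨M, x :: c1, c2, rfl, Run.cre P Q x h1, h2⟩
    | ann P Q x h =>
      obtain ⟨M, c1, c2, rfl, h1, h2⟩ := ih h
      exact ⟨M, c1, c2, rfl, Run.ann P Q x h1, h2⟩
    | ov P Q a b h =>
      obtain ⟨M, c1, c2, rfl, h1, h2⟩ := ih h
      exact ⟨M, c1, c2, rfl, Run.ov P Q a b h1, h2⟩
    | un P Q a b h =>
      obtain ⟨M, c1, c2, rfl, h1, h2⟩ := ih h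
      exact ⟨M, c1, c2, rfl, Run.un P Q a b h1, h2⟩

theorem width_eq (h : Run S L w cs M) : width L.length w = some M.length := by
  induction h with
  | nil => rfl
  | _ =>
    rename_i ih
    simp only [width, Kind.inn, Kind.out, List.length_append, List.length_cons] at ih ⊢
    rw [if_pos (by omega), ← ih]
    congr 1 <;> omega

theorem count (h : Run S L w cs M) :
    cs.length = nc w ∧ L.length + 2 * nc w = M.length + 2 * na w := by
  induction h with
  | nil => exact ⟨rfl, rfl⟩
  | _ =>
    rename_i ih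
    simp [nc, na] at ih ⊢
    omega

end Run

end RankGenus
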