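import Mathlib
import Pool.Agent.Work.MP_c146e2_gt.Defs
import Pool.Agent.Work.MP_c146e2_gt.RunA

-- merged part: Pool.Agent.Work.MP_c146e2_gt.Cy
section
/-! The ring of integers of the fifth cyclotomic field. -/

set_option autoImplicit false

namespace RankGenus

/-- `a + b ζ + c ζ² + d ζ³`. -/
@[ext] structure Cy where
  a : ℤ
  b : ℤ
  c : ℤ
  d : ℤ
  deriving DecidableEq

namespace Cy

def add (x y : Cy) : Cy := ⟨x.a + y.a, x.b + y.b, x.c + y.c, x.d + y.d⟩

def neg (x : Cy) : Cy := ⟨-x.a, -x.b, -x.c, -x.d⟩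

def mul (x y : Cy) : Cy :=
  ⟨x.a * y.a + (x.c * y.d + x.d * y.c) - (x.b * y.d + x.c * y.c + x.d * y.b),
   x.a * y.b + x.b * y.a + x.d * y.d - (x.b * y.d + x.c * y.c + x.d * y.b),
   x.a * y.c + x.b * y.b + x.c * y.a - (x.b * y.d + x.c * y.c + x.d * y.b),
   x.a * y.d + x.b * y.c + x.c * y.b + x.d * y.a - (x.b * y.d + x.c * y.c + x.d * y.b)⟩

instance : Zero Cy := ⟨⟨0, 0, 0, 0⟩⟩
instance : One Cy := ⟨⟨1, 0, 0, 0⟩⟩
instance : Add Cy := ⟨add⟩
instance : Neg Cy := ⟨neg⟩
instance : Mul Cy := ⟨mul⟩

@[simp] theorem zero_a : (0 : Cy).a = 0 := rfl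
@[simp] theorem zero_b : (0 : Cy).b = 0 := rfl
@[simp] theorem zero_c : (0 : Cy).c = 0 := rfl
@[simp] theorem zero_d : (0 : Cy).d = 0 := rfl
@[simp] theorem one_a : (1 : Cy).a = 1 := rfl
@[simp] theorem one_b : (1 : Cy).b = 0 := rfl
@[simp] theorem one_c : (1 : Cy).c = 0 := rfl
@[simp] theorem one_d : (1 : Cy).d = 0 := rfl
@[simp] theorem add_a (x y : Cy) : (x + y).a = x.a + y.a := rfl
@[simp] theorem add_b (x y : Cy) : (x + y).b = x.b + y.b := rfl
@[simp] theorem add_c (x y : Cy) : (x + y).c = x.c + y.c := rfl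
@[simp] theorem add_d (x y : Cy) : (x + y).d = x.d + y.d := rfl
@[simp] theorem neg_a (x : Cy) : (-x).a = -x.a := rfl
@[simp] theorem neg_b (x : Cy) : (-x).b = -x.b := rfl
@[simp] theorem neg_c (x : Cy) : (-x).c = -x.c := rfl
@[simp] theorem neg_d (x : Cy) : (-x).d = -x.d := rfl
@[simp] theorem mul_a (x y : Cy) : (x * y).a =
    x.a * y.a + (x.c * y.d + x.d * y.c) - (x.b * y.d + x.c * y.c + x.d * y.b) := rfl
@[simp] theorem mul_b (x y : Cy) : (x * y).b =
    x.a * y.b + x.b * y.a + x.d * y.d - (x.b * y.d + x.c * y.c + x.d * y.b) := rfl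
@[simp] theorem mul_c (x y : Cy) : (x * y).c =
    x.a * y.c + x.b * y.b + x.c * y.a - (x.b * y.d + x.c * y.c + x.d * y.b) := rfl
@[simp] theorem mul_d (x y : Cy) : (x * y).d =
    x.a * y.d + x.b * y.c + x.c * y.b + x.d * y.a - (x.b * y.d + x.c * y.c + x.d * y.b) := rfl

instance : CommRing Cy := CommRing.ofMinimalAxioms
  (fun x y z => by ext <;> simp <;> ring)
  (fun x => by ext <;> simp)
  (fun x => by ext <;> simp)
  (fun x y z => by ext <;> simp <;> ring)
  (fun x y => by ext <;> simp <;> ring)
  (fun x => by ext <;> simp)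
  (fun x y z => by ext <;> simp <;> ring)

/-- Complex conjugation. -/
def bar (x : Cy) : Cy := ⟨x.a - x.b, -x.b, x.d - x.b, x.c - x.b⟩

theorem bar_zero : bar 0 = 0 := rfl
theorem bar_one : bar 1 = 1 := rfl
theorem bar_add (x y : Cy) : bar (x + y) = bar x + bar y := by ext <;> simp [bar] <;> ring
theorem bar_mul (x y : Cy) : bar (x * y) = bar x * bar y := by ext <;> simp [bar] <;> ring
theorem bar_bar (x : Cy) : bar (bar x) = x := by ext <;> simp [bar]

theorem bar_sum (L : List Cy) : bar L.sum = (L.map bar).sum := by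
  induction L with
  | nil => rfl
  | cons a t ih => rw [List.sum_cons, bar_add, ih, List.map_cons, List.sum_cons]

/-- The golden ratio. -/
def ph : Cy := ⟨0, 0, -1, -1⟩
def phi : Cy := ⟨-1, 0, -1, -1⟩
/-- The Kauffman variable and its inverse. -/
def kA : Cy := ⟨1, 1, 1, 1⟩
def kB : Cy := ⟨0, -1, 0, 0⟩
def D2 : Cy := ⟨2, 0, -1, -1⟩

theorem ph_mul_phi : ph * phi = 1 := by decide

noncomputable def zeta : ℂ := Complex.exp (2 * Real.pi * Complex.I / 5)

theorem zeta_prim : IsPrimitiveRoot zeta 5 := by
  have := Complex.isPrimitiveRoot_exp 5 (by norm_num)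
  simpa [zeta] using this

theorem zeta_sum : zeta ^ 4 = -1 - zeta - zeta ^ 2 - zeta ^ 3 := by
  have h := zeta_prim.geom_sum_eq_zero (by norm_num)
  simp [Finset.sum_range_succ] at h
  linear_combination h

/-- The complex embedding. -/
noncomputable def emb : Cy →+* ℂ where
  toFun x := x.a + x.b * zeta + x.c * zeta ^ 2 + x.d * zeta ^ 3
  map_one' := by simp
  map_zero' := by simp
  map_add' x y := by simp; ring
  map_mul' x y := by
    simp only [mul_a, mul_b, mul_c, mul_d]
    push_cast
    linear_combination (-(x.b * y.d + x.c * y.c + x.d * y.b) -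
      (x.c * y.d + x.d * y.c) * (zeta - 1) - x.d * y.d * (zeta ^ 2 - zeta)) * zeta_sum

theorem emb_apply (x : Cy) : emb x = x.a + x.b * zeta + x.c * zeta ^ 2 + x.d * zeta ^ 3 := rfl

theorem cy_five : zeta ^ 5 = 1 := zeta_prim.pow_eq_one

theorem cy_conj : (starRingEnd ℂ) zeta = zeta ^ 4 := by
  have h1 : ‖zeta‖ = 1 := zeta_prim.norm'_eq_one (by norm_num)
  have h2 : zeta * (starRingEnd ℂ) zeta = 1 := by
    rw [Complex.mul_conj, Complex.normSq_eq_norm_sq, h1]
    simp
  linear_combination zeta ^ 4 * h2 - (starRingEnd ℂ) zeta * cy_five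

theorem cy_s : zeta + zeta ^ 4 = ((√5 - 1) / 2 : ℝ) := by
  have h1 : zeta = Complex.exp ((2 * (Real.pi / 5) : ℝ) * Complex.I) := by
    unfold zeta
    congr 1
    push_cast
    ring
  have h2 : √5 ^ 2 = 5 := Real.sq_sqrt (by norm_num)
  rw [← cy_conj, Complex.add_conj, h1, Complex.exp_ofReal_mul_I_re, Real.cos_two_mul,
    Real.cos_pi_div_five]
  congr 1
  linear_combination h2 / 4

theorem cy_real (a c : ℤ) : emb ⟨a, 0, c, c⟩ = (a - c * ((1 + √5) / 2) : ℝ) := by
  have h := cy_s
  rw [emb_apply]
  push_cast at h ⊢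
  linear_combination c * zeta_sum - c * h

theorem emb_bar (x : Cy) : emb (bar x) = (starRingEnd ℂ) (emb x) := by
  rw [emb_apply, emb_apply]
  simp only [bar, map_add, map_mul, map_pow, map_intCast, cy_conj]
  push_cast
  linear_combination -x.b * zeta_sum - x.c * zeta ^ 3 * cy_five -
    x.d * zeta ^ 2 * (zeta ^ 5 + 1) * cy_five

theorem emb_ph : emb ph = ((1 + √5) / 2 : ℝ) := by
  rw [ph, cy_real]
  congr 1
  push_cast
  ring

theorem emb_phi : emb phi = ((√5 - 1) / 2 : ℝ) := by
  rw [phi, cy_real]
  congr 1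
  push_cast
  ring

theorem emb_D2 : emb D2 = ((5 + √5) / 2 : ℝ) := by
  rw [D2, cy_real]
  congr 1
  push_cast
  ring

theorem emb_mul_bar (x : Cy) : emb (x * bar x) = (Complex.normSq (emb x) : ℝ) := by
  rw [map_mul, emb_bar, Complex.mul_conj]

/-- A test for positivity of real elements. -/
def posB (x : Cy) : Bool :=
  x.b == 0 && x.c == x.d &&
    ((decide (0 < 2 * x.a - x.c) && decide (5 * x.c ^ 2 < (2 * x.a - x.c) ^ 2)) ||
      (decide (x.c < 0) && decide ((2 * x.a - x.c) ^ 2 < 5 * x.c ^ 2)))

theorem pos_of_posB {x : Cy} (h : posB x = true) : 0 < (emb x).re := by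
  obtain ⟨a, b, c, d⟩ := x
  simp only [posB, Bool.and_eq_true, beq_iff_eq, Bool.or_eq_true, decide_eq_true_eq] at h
  obtain ⟨⟨rfl, rfl⟩, h⟩ := h
  rw [cy_real, Complex.ofReal_re]
  have h2 : √5 ^ 2 = 5 := Real.sq_sqrt (by norm_num)
  have h3 : 0 ≤ √5 := Real.sqrt_nonneg 5
  rcases h with ⟨h4, h5⟩ | ⟨h4, h5⟩
  · have h6 : (0 : ℝ) < 2 * a - c := by exact_mod_cast h4
    have h7 : (5 : ℝ) * c ^ 2 < (2 * a - c) ^ 2 := by exact_mod_cast h5
    have h8 : (c : ℝ) * √5 < 2 * a - c := lt_of_pow_lt_pow_left₀ 2 h6.le (by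
      rw [mul_pow, h2]
      linarith)
    linarith
  · have h6 : (c : ℝ) < 0 := by exact_mod_cast h4
    have h7 : ((2 : ℝ) * a - c) ^ 2 < 5 * c ^ 2 := by exact_mod_cast h5
    have h8 : -((2 : ℝ) * a - c) < -c * √5 :=
      lt_of_pow_lt_pow_left₀ 2 (mul_nonneg (by linarith) h3) (by
        rw [mul_pow, h2, neg_sq, neg_sq]
        linarith)
    linarith

end Cy

end RankGenus
end

-- merged part: Pool.Agent.Work.MP_c146e2_gt.LS
section
/-! Local state sum models on diagrams. -/

set_option autoImplicit false

namespace RankGenus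

/-- Each strand carries a letter; `pr` is the state seen by the strand to its right. -/
structure LS (σ Λ : Type) where
  pr : σ → Λ
  ok : Λ → σ → Bool
  rule : Kind → Λ → List σ → List (Cy × List σ)

/-- Pairing of a formal sum with a function. -/
def pair {β : Type} (L : List (Cy × β)) (f : β → Cy) : Cy := (L.map fun p => p.1 * f p.2).sum

def coef {β : Type} [DecidableEq β] (L : List (Cy × β)) (c : β) : Cy :=
  (L.map fun p => if p.2 = c then p.1 else 0).sum

def sameB {β : Type} [DecidableEq β] (u : Cy) (L L' : List (Cy × β)) : Bool :=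
  (L ++ L').all fun p => coef L p.2 == u * coef L' p.2

/-- All lists of length `n`. -/
def allL {σ : Type} (E : List σ) : ℕ → List (List σ)
  | 0 => [[]]
  | n + 1 => E.flatMap fun a => (allL E n).map (a :: ·)

section
variable {β γ : Type}

@[simp] theorem pair_nil (f : β → Cy) : pair [] f = 0 := rfl

@[simp] theorem pair_cons (p : Cy × β) (L : List (Cy × β)) (f : β → Cy) :
    pair (p :: L) f = p.1 * f p.2 + pair L f := by simp [pair]

theorem pair_append (L L' : List (Cy × β)) (f : β → Cy) :
    pair (L ++ L') f = pair L f + pair L' f := by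
  simp [pair]

theorem pair_map (L : List (Cy × β)) (φ : β → γ) (f : γ → Cy) :
    pair (L.map fun p => (p.1, φ p.2)) f = pair L fun b => f (φ b) := by
  simp [pair, Function.comp_def]

theorem pair_congr {L : List (Cy × β)} {f g : β → Cy} (h : ∀ p ∈ L, f p.2 = g p.2) :
    pair L f = pair L g := by
  unfold pair
  rw [List.map_congr_left fun p hp => by rw [h p hp]]

theorem pair_add (L : List (Cy × β)) (f g : β → Cy) :
    pair L (fun b => f b + g b) = pair L f + pair L g := by
  induction L with
  | nil => simp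
  | cons p L ih =>
    simp only [pair_cons, ih]
    ring

theorem pair_mul (L : List (Cy × β)) (r : Cy) (f : β → Cy) :
    pair L (fun b => r * f b) = r * pair L f := by
  induction L with
  | nil => simp
  | cons p L ih =>
    simp only [pair_cons, ih]
    ring

theorem pair_zero (L : List (Cy × β)) : pair L (fun _ => 0) = 0 := by
  simp [pair]

theorem pair_comm (L : List (Cy × β)) (M : List (Cy × γ)) (f : β → γ → Cy) :
    pair L (fun b => pair M (f b)) = pair M fun c => pair L fun b => f b c := by
  induction L with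
  | nil => simp [pair_zero]
  | cons p L ih => simp only [pair_cons, ih, pair_add, pair_mul]

theorem ls_scale (r : Cy) (L : List (Cy × β)) (f : β → Cy) :
    pair (L.map fun q => (r * q.1, q.2)) f = r * pair L f := by
  induction L with
  | nil => simp
  | cons p L ih =>
    simp only [List.map_cons, pair_cons, ih]
    ring

theorem pair_bind (L : List (Cy × β)) (M : β → List (Cy × γ)) (f : γ → Cy) :
    pair (L.flatMap fun p => (M p.2).map fun q => (p.1 * q.1, q.2)) f =
      pair L fun b => pair (M b) f := by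
  induction L with
  | nil => simp
  | cons p L ih => rw [List.flatMap_cons, pair_append, ih, ls_scale, pair_cons]

theorem ls_coef [DecidableEq β] (s : Finset β) (L : List (Cy × β)) (h : ∀ p ∈ L, p.2 ∈ s)
    (f : β → Cy) : pair L f = ∑ c ∈ s, coef L c * f c := by
  induction L with
  | nil => simp [coef]
  | cons p L ih =>
    have e : ∀ c, coef (p :: L) c = (if p.2 = c then p.1 else 0) + coef L c := fun c => by
      simp [coef]
    rw [pair_cons, ih fun q hq => h q (List.mem_cons_of_mem _ hq)]
    simp only [e, add_mul, Finset.sum_add_distrib, ite_mul, zero_mul, Finset.sum_ite_eq,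
      if_pos (h p List.mem_cons_self)]

theorem pair_of_sameB [DecidableEq β] {u : Cy} {L L' : List (Cy × β)} (h : sameB u L L' = true)
    (f : β → Cy) : pair L f = u * pair L' f := by
  have hs : ∀ p ∈ L ++ L', p.2 ∈ ((L ++ L').map Prod.snd).toFinset := fun p hp =>
    List.mem_toFinset.2 (List.mem_map_of_mem hp)
  rw [ls_coef _ L (fun p hp => hs p (List.mem_append_left _ hp)),
    ls_coef _ L' (fun p hp => hs p (List.mem_append_right _ hp)), Finset.mul_sum]
  refine Finset.sum_congr rfl fun c hc => ?_
  obtain ⟨p, hp, rfl⟩ := List.mem_map.1 (List.mem_toFinset.1 hc)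
  rw [beq_iff_eq.1 (List.all_eq_true.1 h p hp), mul_assoc]

theorem mem_allL {σ : Type} {E : List σ} (hE : ∀ a, a ∈ E) (c : List σ) :
    c ∈ allL E c.length := by
  induction c with
  | nil => simp [allL]
  | cons a t ih => exact List.mem_flatMap.2 ⟨a, hE a, List.mem_map_of_mem ih⟩

end

namespace LS
variable {σ Λ : Type} (S : LS σ Λ)

def last : Λ → List σ → Λ
  | l, [] => l
  | _, a :: t => last (S.pr a) t

def adm : Λ → List σ → Bool
  | _, [] => true
  | l, a :: t => S.ok l a && adm (S.pr a) t

def act (k : Kind) : ℕ → Λ → List σ → List (Cy × List σ)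
  | 0, l, c => if k.inn ≤ c.length then
      (S.rule k l (c.take k.inn)).map fun p => (p.1, p.2 ++ c.drop k.inn) else []
  | _ + 1, _, [] => []
  | i + 1, _, a :: t => (act k i (S.pr a) t).map fun p => (p.1, a :: p.2)

def step (g : Kind × ℕ) (l : Λ) (f : List σ → Cy) (c : List σ) : Cy := pair (S.act g.1 g.2 l c) f

def back : Word → Λ → (List σ → Cy) → List σ → Cy
  | [], _, f => f
  | g :: w, l, f => S.step g l (back w l f)

def paths : Word → Λ → List σ → List (Cy × List σ)
  | [], _, c => [(1, c)]
  | g :: w, l, c =>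
      (S.act g.1 g.2 l c).flatMap fun p => (paths w l p.2).map fun q => (p.1 * q.1, q.2)

structure WF : Prop where
  len : ∀ k l a, a.length = Kind.inn k → ∀ p ∈ S.rule k l a, p.2.length = k.out
  last : ∀ k l a, a.length = Kind.inn k → ∀ p ∈ S.rule k l a, S.last l p.2 = S.last l a
  adm : ∀ k l a, a.length = Kind.inn k → S.adm l a = true → ∀ p ∈ S.rule k l a,
    S.adm l p.2 = true

/-- A finite test for `WF`. -/
def wfB [DecidableEq Λ] (Ls : List Λ) (E : List σ) : Bool :=
  [Kind.cre, .ann, .ov, .un, .spl, .mrg].all fun k => Ls.all fun l => (allL E k.inn).all fun a =>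
    (S.rule k l a).all fun p => p.2.length == k.out && decide (S.last l p.2 = S.last l a) &&
      (!S.adm l a || S.adm l p.2)

/-- A finite test for a local identity. -/
def chk [DecidableEq σ] (Ls : List Λ) (E : List σ) (u : Cy) (m : ℕ) (w w' : Word) : Bool :=
  Ls.all fun l => (allL E m).all fun a =>
    !S.adm l a || sameB u (S.paths w l a) (S.paths w' l a)

variable {S}

theorem wf_of_wfB [DecidableEq Λ] {Ls : List Λ} {E : List σ} (hL : ∀ l, l ∈ Ls) (hE : ∀ a, a ∈ E)
    (h : S.wfB Ls E = true) : S.WF := by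
  have key : ∀ k l a, a.length = Kind.inn k → ∀ p ∈ S.rule k l a, (p.2.length = k.out ∧
      S.last l p.2 = S.last l a) ∧ (S.adm l a = false ∨ S.adm l p.2 = true) := by
    intro k l a ha p hp
    have h1 := List.all_eq_true.1 h k (by cases k <;> simp)
    have h2 := List.all_eq_true.1 (List.all_eq_true.1 (List.all_eq_true.1 h1 l (hL l)) a
      (ha ▸ mem_allL hE a)) p hp
    simpa using h2
  refine ⟨fun k l a ha p hp => (key k l a ha p hp).1.1, fun k l a ha p hp => (key k l a ha p hp).1.2,
    fun k l a ha h1 p hp => (key k l a ha p hp).2.resolve_left (by simp [h1])⟩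

theorem last_append (l : Λ) (a b : List σ) : S.last l (a ++ b) = S.last (S.last l a) b := by
  induction a generalizing l with
  | nil => rfl
  | cons x t ih => exact ih _

theorem adm_append (l : Λ) (a b : List σ) :
    S.adm l (a ++ b) = (S.adm l a && S.adm (S.last l a) b) := by
  induction a generalizing l with
  | nil => simp [adm, last]
  | cons x t ih => simp [adm, last, ih, Bool.and_assoc]

theorem back_append (w w' : Word) (l : Λ) (f : List σ → Cy) :
    S.back (w ++ w') l f = S.back w l (S.back w' l f) := by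
  induction w with
  | nil => rfl
  | cons g w ih => simp only [List.cons_append, back, ih]

theorem back_eq_pair (w : Word) (l : Λ) (f : List σ → Cy) (c : List σ) :
    S.back w l f c = pair (S.paths w l c) f := by
  induction w generalizing c with
  | nil => simp [back, paths]
  | cons g w ih =>
    rw [paths, pair_bind, back, step]
    exact pair_congr fun p _ => ih _

theorem back_add (w : Word) (l : Λ) (f g : List σ → Cy) (c : List σ) :
    S.back w l (fun x => f x + g x) c = S.back w l f c + S.back w l g c := by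
  simp only [back_eq_pair, pair_add]

theorem back_mul (w : Word) (l : Λ) (r : Cy) (f : List σ → Cy) (c : List σ) :
    S.back w l (fun x => r * f x) c = r * S.back w l f c := by
  simp only [back_eq_pair, pair_mul]

theorem back_of_chk [DecidableEq σ] {Ls : List Λ} {E : List σ} (hL : ∀ l, l ∈ Ls)
    (hE : ∀ a, a ∈ E) {u : Cy} {m : ℕ} {w w' : Word} (h : S.chk Ls E u m w w' = true) (l : Λ)
    (f : List σ → Cy) {a : List σ} (ha : a.length = m) (hadm : S.adm l a = true) :
    S.back w l f a = u * S.back w' l f a := by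
  have h1 := List.all_eq_true.1 (List.all_eq_true.1 h l (hL l)) a (ha ▸ mem_allL hE a)
  rw [hadm, Bool.not_true, Bool.false_or] at h1
  rw [back_eq_pair, back_eq_pair, pair_of_sameB h1]

end LS

end RankGenus
end

-- merged part: Pool.Agent.Work.MP_c146e2_gt.LSb
section
/-! Locality and invariance of local state sum models. -/

set_option autoImplicit false

namespace RankGenus

namespace LS
variable {σ Λ : Type} {S : LS σ Λ}

theorem act_left (k : Kind) (i : ℕ) (l : Λ) (P c : List σ) :
    S.act k (i + P.length) l (P ++ c) =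
      (S.act k i (S.last l P) c).map fun p => (p.1, P ++ p.2) := by
    induction P generalizing l with
    | nil => simp [last]
    | cons a P ih =>
      rw [List.length_cons, ← Nat.add_assoc, List.cons_append, act, ih, List.map_map]
      rfl

theorem lsb_split {i m : ℕ} {c : List σ} (h : i + m ≤ c.length) :
    ∃ P a t, c = P ++ (a ++ t) ∧ P.length = i ∧ a.length = m :=
  ⟨c.take i, (c.drop i).take m, (c.drop i).drop m, by
    rw [List.take_append_drop, List.take_append_drop], List.length_take_of_le (by omega),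
    List.length_take_of_le (by rw [List.length_drop]; omega)⟩

theorem lsb_act (k : Kind) (l : Λ) (P : List σ) {a : List σ} (ha : a.length = k.inn) (t : List σ) :
    S.act k P.length l (P ++ (a ++ t)) =
      (S.rule k (S.last l P) a).map fun p => (p.1, P ++ (p.2 ++ t)) := by
  have h := act_left (S := S) k 0 l P (a ++ t)
  rw [Nat.zero_add] at h
  rw [h, act, if_pos (by rw [List.length_append]; omega), List.take_left' ha, List.drop_left' ha,
    List.map_map]
  rfl

theorem act_right (k : Kind) (i : ℕ) (l : Λ) (c Q : List σ) (h : i + k.inn ≤ c.length) :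
    S.act k i l (c ++ Q) = (S.act k i l c).map fun p => (p.1, p.2 ++ Q) := by
    obtain ⟨P, a, t, rfl, rfl, ha⟩ := lsb_split h
    rw [List.append_assoc, List.append_assoc, lsb_act k l P ha, lsb_act k l P ha, List.map_map]
    simp only [Function.comp_def, List.append_assoc]

theorem act_short (k : Kind) (i : ℕ) (l : Λ) (c : List σ) (h : c.length < i + k.inn) :
    S.act k i l c = [] := by
    induction i generalizing l c with
    | zero => rw [act, if_neg (by omega)]
    | succ i ih =>
      cases c with
      | nil => rfl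
      | cons a t =>
        rw [List.length_cons] at h
        rw [act, ih _ _ (by omega), List.map_nil]

theorem WF.act (hS : S.WF) {k : Kind} {i : ℕ} {l : Λ} {c : List σ} {p : Cy × List σ}
    (hp : p ∈ S.act k i l c) : i + k.inn ≤ c.length ∧ p.2.length = c.length - k.inn + k.out ∧
      S.last l p.2 = S.last l c ∧ (S.adm l c = true → S.adm l p.2 = true) := by
    have h : i + k.inn ≤ c.length := by
      by_contra h
      rw [act_short k i l c (not_le.1 h)] at hp
      exact List.not_mem_nil hp
    refine ⟨h, ?_⟩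
    obtain ⟨P, a, t, rfl, rfl, ha⟩ := lsb_split h
    rw [lsb_act k l P ha, List.mem_map] at hp
    obtain ⟨q, hq, rfl⟩ := hp
    have h1 := hS.len _ _ _ ha q hq
    have h2 := hS.last _ _ _ ha q hq
    simp only [List.length_append, last_append, adm_append, h1, h2, ha, Bool.and_eq_true, true_and]
    exact ⟨by omega, fun h3 => ⟨h3.1, hS.adm _ _ _ ha h3.2.1 q hq, h3.2.2⟩⟩

theorem back_shift (w : Word) (l : Λ) (f : List σ → Cy) (P c : List σ) :
    S.back (shift P.length w) l f (P ++ c) = S.back w (S.last l P) (fun x => f (P ++ x)) c := by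
    induction w generalizing c with
    | nil => rfl
    | cons g w ih =>
      change pair (S.act g.1 (g.2 + P.length) l (P ++ c)) (S.back (shift P.length w) l f) =
        pair (S.act g.1 g.2 (S.last l P) c) _
      rw [act_left, pair_map]
      exact pair_congr fun p _ => ih _

theorem WF.back_suffix (hS : S.WF) {w : Word} {n' : ℕ} (l : Λ) (f : List σ → Cy) {c : List σ}
    (hw : width c.length w = some n') (Q : List σ) :
    S.back w l f (c ++ Q) = S.back w l (fun x => f (x ++ Q)) c := by
    induction w generalizing c with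
    | nil => rfl
    | cons g w ih =>
      obtain ⟨k, i⟩ := g
      rw [width] at hw
      split_ifs at hw with h
      change pair (S.act k i l (c ++ Q)) (S.back w l f) = pair (S.act k i l c) _
      rw [act_right k i l c Q h, pair_map _ (· ++ Q)]
      exact pair_congr fun p hp => ih ((hS.act hp).2.1 ▸ hw)

theorem WF.back_congr (hS : S.WF) {w : Word} {n' : ℕ} {l : Λ} {f g : List σ → Cy} {c : List σ}
    (hw : width c.length w = some n') (hc : S.adm l c = true)
    (h : ∀ x, x.length = n' → S.last l x = S.last l c → S.adm l x = true → f x = g x) :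
    S.back w l f c = S.back w l g c := by
    induction w generalizing c with
    | nil => exact h c (Option.some.inj hw) rfl hc
    | cons g w ih =>
      obtain ⟨k, i⟩ := g
      rw [width] at hw
      split_ifs at hw with h0
      refine pair_congr fun p hp => ?_
      obtain ⟨-, h1, h2, h3⟩ := hS.act hp
      exact ih (h1 ▸ hw) (h3 hc) fun x hx hl => h x hx (hl.trans h2)

theorem WF.step_comm (hS : S.WF) (k k' : Kind) (i j : ℕ) (l : Λ) (f : List σ → Cy) (c : List σ) :
    S.step (k, i) l (S.step (k', i + k.out + j) l f) c =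
      S.step (k', i + k.inn + j) l (S.step (k, i) l f) c := by
    unfold step
    by_cases h : i + k.inn ≤ c.length
    · obtain ⟨P, a, t, rfl, rfl, ha⟩ := lsb_split h
      have h1 : ∀ o : List σ, S.act k' (P.length + o.length + j) l (P ++ (o ++ t)) =
          (S.act k' j (S.last (S.last l P) o) t).map fun p => (p.1, P ++ (o ++ p.2)) := by
        intro o
        rw [← List.length_append, Nat.add_comm, ← List.append_assoc, act_left, last_append]
        simp only [List.append_assoc]
      simp only
      rw [lsb_act k l P ha, ← ha, h1, pair_map _ fun x => P ++ (x ++ t),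
        pair_map _ fun x => P ++ (a ++ x)]
      simp only [lsb_act k l P ha, fun b => pair_map (S.rule k (S.last l P) a) fun x => P ++ (x ++ b)]
      rw [← pair_comm]
      refine pair_congr fun p hp => ?_
      rw [← hS.len _ _ _ ha p hp, h1, hS.last _ _ _ ha p hp, pair_map _ fun x => P ++ (p.2 ++ x)]
    · rw [act_short _ _ _ c (not_le.1 h), act_short _ _ _ c (by simp only; omega)]
      rfl

theorem WF.equiv (hS : S.WF) (G : Cy → Prop) (h1 : G 1) (hmul : ∀ u v, G u → G v → G (u * v))
    (hinv : ∀ u, G u → ∃ v, G v ∧ v * u = 1)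
    (hb : ∀ b ∈ basic, ∃ u, G u ∧ ∀ l f a, a.length = b.1 → S.adm l a = true →
      S.back b.2.1 l f a = u * S.back b.2.2 l f a)
    {n : ℕ} {w w' : Word} (h : Equiv n w w') :
    ∃ u, G u ∧ ∀ l f a, a.length = n → S.adm l a = true →
      S.back w l f a = u * S.back w' l f a := by
    induction h with
    | rel w w' h =>
      cases h with
      | loc a b u v m j n' h2 h3 h4 =>
        obtain ⟨z, hz, h5⟩ := hb _ h2
        obtain ⟨r, h6, h7⟩ := basic_width _ h2
        refine ⟨z, hz, fun l f c hc hc' => ?_⟩
        simp only [back_append]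
        rw [← back_mul]
        refine hS.back_congr (hc ▸ h3) hc' fun x hx _ hx' => ?_
        obtain ⟨P, y, Q, rfl, rfl, rfl⟩ := lsb_split (hx ▸ h4)
        rw [adm_append, adm_append, Bool.and_eq_true, Bool.and_eq_true] at hx'
        rw [back_shift, back_shift, hS.back_suffix _ _ h6, hS.back_suffix _ _ h7]
        exact h5 _ _ _ rfl hx'.2.1
      | comm a b k k' i j =>
        refine ⟨1, h1, fun l f c _ _ => ?_⟩
        simp only [back_append, one_mul]
        congr 1
        exact funext (hS.step_comm k k' i j l _)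
    | refl w => exact ⟨1, h1, fun l f c _ _ => (one_mul _).symm⟩
    | symm w w' _ ih =>
      obtain ⟨u, hu, h2⟩ := ih
      obtain ⟨v, hv, h3⟩ := hinv u hu
      exact ⟨v, hv, fun l f c hc hc' => by rw [h2 l f c hc hc', ← mul_assoc, h3, one_mul]⟩
    | trans w w' w'' _ _ ih ih' =>
      obtain ⟨u, hu, h2⟩ := ih
      obtain ⟨v, hv, h3⟩ := ih'
      exact ⟨u * v, hmul u v hu hv, fun l f c hc hc' => by
        rw [h2 l f c hc hc', h3 l f c hc hc', mul_assoc]⟩

end LS

end RankGenus
end
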