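import Pool.Agent.Work.MP_c146e2_gt.RunB
import Mathlib
import Pool.Agent.Work.MP_c146e2_gt.Conn
import Pool.Agent.Work.MP_c146e2_gt.ConnC
import Pool.Agent.Work.MP_c146e2_gt.Num
import Pool.Agent.Work.MP_c146e2_gt.Inv
import Pool.Agent.Work.MP_c146e2_gt.Pos
import Pool.Agent.Work.MP_c146e2_gt.GenT

-- merged part: Pool.Agent.Work.MP_c146e2_gt.Tun
section
/-! Every knot has a system of unknotting tunnels. -/

set_option autoImplicit false

namespace RankGenus

open Kind

theorem Equiv.context {n m : ℕ} {w w' : Word} (h : Equiv m w w')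
    {a : Word} {j e : ℕ} (ha : width n a = some (j + m + e)) (b : Word) :
    Equiv n (a ++ shift j w ++ b) (a ++ shift j w' ++ b) := by
  induction h with
  | rel x y hxy =>
    refine Relation.EqvGen.rel _ _ ?_
    cases hxy with
    | loc a' b' l r m' j' n' hb hw hle =>
      have h1 : width n (a ++ shift j a') = some (j + n' + e) := by
        rw [width_append ha]
        exact width_add (width_shift hw j) e
      have h2 := Move.loc (n := n) (a ++ shift j a') (shift j b' ++ b) l r m' (j' + j) _ hb h1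
        (by omega)
      simpa only [shift_append, shift_shift, List.append_assoc] using h2
    | comm a' b' k k' i j' =>
      have h2 := Move.comm (n := n) (a ++ shift j a') (shift j b' ++ b) k k' (i + j) j'
      have e1 : shift j [(k, i), (k', i + k.out + j')] = [(k, i + j), (k', i + j + k.out + j')] := by
        simp only [shift, List.map_cons, List.map_nil]
        congr 3
        omega
      have e2 : shift j [(k', i + k.inn + j'), (k, i)] = [(k', i + j + k.inn + j'), (k, i + j)] := by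
        simp only [shift, List.map_cons, List.map_nil]
        congr 2
        omega
      simpa only [shift_append, e1, e2, List.append_assoc] using h2
  | refl x => exact Relation.EqvGen.refl _
  | symm x y _ ih => exact Relation.EqvGen.symm _ _ ih
  | trans x y z _ _ ih1 ih2 => exact Relation.EqvGen.trans _ _ _ ih1 ih2

theorem tun_refl (n : ℕ) (w : Word) : Equiv n w w := Relation.EqvGen.refl _

theorem tun_of_eq (n : ℕ) {w w' : Word} (h : w = w') : Equiv n w w' := h ▸ tun_refl n w

theorem tun_symm {n : ℕ} {w w' : Word} (h : Equiv n w w') : Equiv n w' w :=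
  Relation.EqvGen.symm _ _ h

theorem tun_trans {n : ℕ} {w w' w'' : Word} (h : Equiv n w w') (h' : Equiv n w' w'') :
    Equiv n w w'' :=
  Relation.EqvGen.trans _ _ _ h h'

theorem tun_app {n : ℕ} {w w' : Word} (h : Equiv n w w') (b : Word) :
    Equiv n (w ++ b) (w' ++ b) := by
  have h1 : width n [] = some (0 + n + 0) := by simp [width]
  simpa only [shift_zero, List.nil_append] using h.context h1 b

theorem tun_pre {n m : ℕ} {a w w' : Word} (ha : width n a = some m) (h : Equiv m w w') :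
    Equiv n (a ++ w) (a ++ w') := by
  have h1 : width n a = some (0 + m + 0) := by simpa using ha
  simpa only [shift_zero, List.append_nil] using h.context h1 []

theorem tun_loc {n n' m : ℕ} {a l r : Word} (j : ℕ) (hb : (m, l, r) ∈ basic)
    (ha : width n a = some n') (hj : j + m ≤ n') {l' r' : Word} (hl : shift j l = l')
    (hr : shift j r = r') (b : Word) : Equiv n (a ++ (l' ++ b)) (a ++ (r' ++ b)) := by
  rw [← hl, ← hr, ← List.append_assoc, ← List.append_assoc]
  exact Relation.EqvGen.rel _ _ (Move.loc a b l r m j n' hb ha hj)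

theorem tun_comm (n : ℕ) (a b : Word) (k k' : Kind) (i j : ℕ) {p p' : ℕ}
    (hp : p = i + k.out + j) (hp' : p' = i + k.inn + j) :
    Equiv n (a ++ (k, i) :: (k', p) :: b) (a ++ (k', p') :: (k, i) :: b) := by
  subst hp hp'
  have h := Move.comm (n := n) a b k k' i j
  simp only [List.append_assoc] at h
  exact Relation.EqvGen.rel _ _ h

def Sp (n : ℕ) : Word := List.replicate n (spl, 0)

def Bub (t : ℕ) : Word := (List.replicate t [(spl, 0), (mrg, 0)]).flatten

theorem tun_Sp_succ (n : ℕ) : Sp (n + 1) = Sp n ++ [(spl, 0)] := List.replicate_succ'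

theorem tun_width_spl {n : ℕ} {a : Word} (h : width 1 a = some (n + 1)) {i : ℕ} (hi : i ≤ n) :
    width 1 (a ++ [(spl, i)]) = some (n + 2) := by
  rw [width_append h]
  simp only [width, Kind.inn, Kind.out]
  rw [if_pos (by omega)]
  rfl

theorem tun_width_Sp (n : ℕ) : width 1 (Sp n) = some (n + 1) := by
  induction n with
  | zero => rfl
  | succ n ih => rw [tun_Sp_succ]; exact tun_width_spl ih (Nat.zero_le n)

theorem tun_Bub_add (s t : ℕ) : Bub (s + t) = Bub s ++ Bub t := by
  simp only [Bub, List.replicate_add, List.flatten_append]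

theorem tun_width_Bub (t : ℕ) : width 1 (Bub t) = some 1 := by
  induction t with
  | zero => rfl
  | succ t ih => rw [tun_Bub_add, width_append ih]; rfl

theorem Sp_spl (n i : ℕ) (h : i ≤ n) : Equiv 1 (Sp n ++ [(spl, i)]) (Sp (n + 1)) := by
  induction n generalizing i with
  | zero =>
    obtain rfl : i = 0 := by omega
    exact tun_refl _ _
  | succ n ih =>
    rcases i with _ | _ | i
    · exact tun_of_eq _ (tun_Sp_succ _).symm
    · have h1 := tun_loc (l := [(spl, 0), (spl, 0)]) (r := [(spl, 0), (spl, 1)]) (m := 1) 0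
        (by decide) (tun_width_Sp n) (by omega) rfl rfl []
      simp only [tun_Sp_succ, List.append_assoc]
      exact tun_symm h1
    · have h1 := tun_comm 1 (Sp n) [] spl spl 0 i (p := i + 1 + 1) (p' := i + 1)
        (by simp only [Kind.out]; omega) (by simp only [Kind.inn]; omega)
      have h2 := tun_app (ih (i + 1) (by omega)) [(spl, 0)]
      simp only [tun_Sp_succ, List.append_assoc] at h2 ⊢
      exact tun_trans h1 h2

theorem Sp_bub (n i : ℕ) (h : i ≤ n) :
    Equiv 1 (Sp n ++ [(spl, i), (mrg, i)]) ([(spl, 0), (mrg, 0)] ++ Sp n) := by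
  induction n generalizing i with
  | zero =>
    obtain rfl : i = 0 := by omega
    exact tun_refl _ _
  | succ n ih =>
    have h0 := tun_loc (l := [(spl, 0), (spl, 0)]) (r := [(spl, 0), (spl, 1)]) (m := 1) 0
      (by decide) (tun_width_Sp n) (by omega) rfl rfl
    rcases i with _ | _ | i
    · have h1 := tun_loc (l := [(mrg, 0), (spl, 0)]) (r := [(spl, 1), (mrg, 0)]) (m := 2) 0
        (by decide) (tun_width_Sp (n + 1)) (by omega) rfl rfl []
      have h2 := tun_app (ih 0 (by omega)) [(spl, 0)]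
      simp only [tun_Sp_succ, List.append_assoc] at h1 h2 ⊢
      exact tun_trans (h0 [(mrg, 0)]) (tun_trans (tun_symm h1) h2)
    · have h1 := tun_loc (l := [(mrg, 0), (spl, 0)]) (r := [(spl, 0), (mrg, 1)]) (m := 2) 0
        (by decide) (tun_width_Sp (n + 1)) (by omega) rfl rfl []
      have h2 := tun_app (ih 0 (by omega)) [(spl, 0)]
      simp only [tun_Sp_succ, List.append_assoc] at h1 h2 ⊢
      exact tun_trans (tun_symm (h0 [(mrg, 1)])) (tun_trans (tun_symm h1) h2)
    · have h1 := tun_comm 1 (Sp n) [(mrg, i + 1 + 1)] spl spl 0 i (p := i + 1 + 1) (p' := i + 1)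
        (by simp only [Kind.out]; omega) (by simp only [Kind.inn]; omega)
      have h2 := tun_comm 1 (Sp n ++ [(spl, i + 1)]) [] spl mrg 0 i (p := i + 1 + 1) (p' := i + 1)
        (by simp only [Kind.out]; omega) (by simp only [Kind.inn]; omega)
      have h3 := tun_app (ih (i + 1) (by omega)) [(spl, 0)]
      simp only [tun_Sp_succ, List.append_assoc] at h2 h3 ⊢
      exact tun_trans h1 (tun_trans h2 h3)

/-- A slice together with its tunnel. -/
def tunG : Kind × ℕ → Word
  | (cre, 0) => [(cre, 0), (spl, 2), (mrg, 1)]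
  | (cre, i + 1) => [(cre, i + 1), (spl, i), (mrg, i + 1)]
  | g => [g]

theorem tun_cross {k : Kind} (hb : (1, [(spl, 0), (k, 0)], [(spl, 0)]) ∈ basic) (n i : ℕ)
    (h : i ≤ n) : Equiv 1 (Sp (n + 1) ++ [(k, i)]) (Sp (n + 1)) := by
  have h1 := tun_app (tun_symm (Sp_spl n i h)) [(k, i)]
  have h2 := tun_loc (l' := [(spl, i), (k, i)]) (r' := [(spl, i)]) i hb (tun_width_Sp n)
    (by omega) (by simp [shift]) (by simp [shift]) []
  simp only [List.append_assoc] at h1
  exact tun_trans h1 (tun_trans h2 (Sp_spl n i h))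

theorem tun_cre0 (n : ℕ) : Equiv 1 (Sp n ++ [(cre, 0), (spl, 2), (mrg, 1)]) (Sp (n + 2)) := by
  have h1 := tun_comm 1 (Sp n) [(mrg, 1)] cre spl 0 0 (p := 2) (p' := 0) rfl rfl
  have h2 := tun_loc (l := [(cre, 0), (mrg, 1)]) (r := [(spl, 0)]) (m := 1) 0
    (by decide) (tun_width_Sp (n + 1)) (by omega) rfl rfl []
  simp only [tun_Sp_succ, List.append_assoc] at h2 ⊢
  exact tun_trans h1 h2

theorem tun_creS (n i : ℕ) (h : i ≤ n) :
    Equiv 1 (Sp n ++ [(cre, i + 1), (spl, i), (mrg, i + 1)]) (Sp (n + 2)) := by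
  have h1 := tun_comm 1 (Sp n) [(mrg, i + 1)] spl cre i 0 (p := i + 2) (p' := i + 1) rfl rfl
  have h2 := tun_loc (l := [(cre, 1), (mrg, 0)]) (r := [(spl, 0)]) (m := 1)
    (l' := [(cre, i + 2), (mrg, i + 1)]) (r' := [(spl, i + 1)]) (i + 1)
    (by decide) (tun_width_spl (tun_width_Sp n) h) (by omega)
    (by simp only [shift, List.map_cons, List.map_nil, Nat.zero_add, Nat.add_comm 1])
    (by simp [shift]) []
  have h3 := tun_app (Sp_spl n i h) [(spl, i + 1)]
  simp only [List.append_assoc] at h2 h3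
  exact tun_trans (tun_symm h1) (tun_trans h2 (tun_trans h3 (Sp_spl (n + 1) (i + 1) (by omega))))

theorem tun_ann0 (n : ℕ) : Equiv 1 (Sp (n + 2) ++ [(ann, 0)]) ([(spl, 0), (mrg, 0)] ++ Sp n) := by
  have h1 := tun_app (tun_symm (Sp_spl (n + 1) 1 (by omega))) [(ann, 0)]
  have h2 := tun_loc (l := [(spl, 1), (ann, 0)]) (r := [(mrg, 0)]) (m := 2) 0
    (by decide) (tun_width_Sp (n + 1)) (by omega) rfl rfl []
  have h3 := Sp_bub n 0 (Nat.zero_le n)
  rw [List.append_assoc] at h1
  refine tun_trans h1 (tun_trans h2 ?_)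
  rw [tun_Sp_succ, List.append_assoc]
  exact h3

theorem tun_annS (n i : ℕ) (h : i ≤ n) :
    Equiv 1 (Sp (n + 2) ++ [(ann, i + 1)]) ([(spl, 0), (mrg, 0)] ++ Sp n) := by
  have h1 := tun_app (tun_symm (Sp_spl (n + 1) i (by omega))) [(ann, i + 1)]
  have h2 := tun_app (tun_symm (Sp_spl n i h)) [(spl, i), (ann, i + 1)]
  have h3 := tun_loc (l := [(spl, 0), (ann, 1)]) (r := [(mrg, 0)]) (m := 2)
    (l' := [(spl, i), (ann, i + 1)]) (r' := [(mrg, i)]) i
    (by decide) (tun_width_spl (tun_width_Sp n) h) (by omega)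
    (by simp only [shift, List.map_cons, List.map_nil, Nat.zero_add, Nat.add_comm 1])
    (by simp [shift]) []
  simp only [List.append_assoc] at h1 h2 h3
  exact tun_trans h1 (tun_trans h2 (tun_trans h3 (Sp_bub n i h)))

theorem Sp_tun {k : Kind} (hk : k ≠ spl ∧ k ≠ mrg) (n i n' : ℕ) (h : i + k.inn ≤ n + 1)
    (hn : n + 1 - k.inn + k.out = n' + 1) :
    ∃ t, Equiv 1 (Sp n ++ tunG (k, i)) (Bub t ++ Sp n') := by
  cases k with
  | cre =>
    simp only [Kind.inn, Kind.out] at h hn
    obtain rfl : n' = n + 2 := by omega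
    rcases i with _ | i
    · exact ⟨0, tun_cre0 n⟩
    · exact ⟨0, tun_creS n i (by omega)⟩
  | ann =>
    simp only [Kind.inn, Kind.out] at h hn
    obtain rfl : n = n' + 2 := by omega
    rcases i with _ | i
    · exact ⟨1, tun_ann0 n'⟩
    · exact ⟨1, tun_annS n' i (by omega)⟩
  | ov =>
    simp only [Kind.inn, Kind.out] at h hn
    obtain ⟨m, rfl⟩ : ∃ m, n = m + 1 := ⟨n - 1, by omega⟩
    obtain rfl : n' = m + 1 := by omega
    exact ⟨0, tun_cross (by decide) m i (by omega)⟩
  | un =>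
    simp only [Kind.inn, Kind.out] at h hn
    obtain ⟨m, rfl⟩ : ∃ m, n = m + 1 := ⟨n - 1, by omega⟩
    obtain rfl : n' = m + 1 := by omega
    exact ⟨0, tun_cross (by decide) m i (by omega)⟩
  | spl => exact absurd rfl hk.1
  | mrg => exact absurd rfl hk.2

theorem tun_step {k : Kind} (hk : k ≠ spl ∧ k ≠ mrg) (n i n' : ℕ) (h : i + k.inn ≤ n + 1)
    (hn : n + 1 - k.inn + k.out = n' + 1) {w : Word}
    (ih : ∃ t, Equiv 1 (Sp n' ++ w.flatMap tunG) (Bub t)) :
    ∃ t, Equiv 1 (Sp n ++ ((k, i) :: w).flatMap tunG) (Bub t) := by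
  obtain ⟨t, ht⟩ := Sp_tun hk n i n' h hn
  obtain ⟨t', ht'⟩ := ih
  refine ⟨t + t', ?_⟩
  have h1 := tun_app ht (w.flatMap tunG)
  have h2 := tun_pre (tun_width_Bub t) ht'
  rw [List.flatMap_cons, tun_Bub_add]
  simp only [List.append_assoc] at h1
  exact tun_trans h1 h2

theorem Sp_word {Lb cb : List Bool} {w : Word} (h : Run boolSys Lb w cb [false]) :
    ∀ n, Lb.length = n + 1 → ∃ t, Equiv 1 (Sp n ++ w.flatMap tunG) (Bub t) := by
  generalize hM : [false] = M at h
  induction h with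
  | nil L =>
    intro n hn
    subst hM
    obtain rfl : n = 0 := by simpa using hn.symm
    exact ⟨0, tun_refl _ _⟩
  | cre P Q x h ih =>
    intro n hn
    simp only [List.length_append, List.length_cons] at hn ih
    refine tun_step ⟨by decide, by decide⟩ n _ (n + 2) ?_ ?_ (ih hM _ (by omega))
    · simp only [Kind.inn]; omega
    · simp only [Kind.inn, Kind.out]; omega
  | ann P Q x h ih =>
    intro n hn
    have hc := h.count.2
    rw [← hM] at hc
    simp only [List.length_append, List.length_cons, List.length_nil] at hn ih hc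
    refine tun_step ⟨by decide, by decide⟩ n _ (n - 2) ?_ ?_ (ih hM _ (by omega))
    · simp only [Kind.inn]; omega
    · simp only [Kind.inn, Kind.out]; omega
  | ov P Q a b h ih =>
    intro n hn
    simp only [List.length_append, List.length_cons] at hn ih
    refine tun_step ⟨by decide, by decide⟩ n _ n ?_ ?_ (ih hM _ (by omega))
    · simp only [Kind.inn]; omega
    · simp only [Kind.inn, Kind.out]; omega
  | un P Q a b h ih =>
    intro n hn
    simp only [List.length_append, List.length_cons] at hn ih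
    refine tun_step ⟨by decide, by decide⟩ n _ n ?_ ?_ (ih hM _ (by omega))
    · simp only [Kind.inn]; omega
    · simp only [Kind.inn, Kind.out]; omega

theorem tun_sub (p : ℕ) (Q a b : List Bool) (k : Kind) (k' : Option Kind) {Γ K : Word}
    (hm : (k, a, b, k') ∈ marks) {m m' : List Bool} (h1 : m = List.replicate p true ++ a ++ Q)
    (h2 : m' = List.replicate p true ++ b ++ Q) (h : Sub m' Γ K) :
    Sub m ((k, p) :: Γ) ((k'.toList.map fun x => (x, p)) ++ K) := by
  subst h1 h2
  have h3 := Sub.step (List.replicate p true) Q a b k k' hm h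
  simpa only [List.length_replicate, List.count_replicate_self] using h3

theorem tun_rep (p s q : ℕ) {r : ℕ} (h : r = p + s + q) :
    List.replicate r true = List.replicate p true ++ List.replicate s true ++
      List.replicate q true := by
  rw [h, List.replicate_add, List.replicate_add]

theorem tun_sub_cre (p q : ℕ) {Γ K : Word} {r r' : ℕ} (hr : r = p + q + 1) (hr' : r' = p + q + 3)
    (h : Sub (List.replicate r' true) Γ K) :
    Sub (List.replicate r true) (tunG (cre, p) ++ Γ) ((cre, p) :: K) := by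
  rcases p with _ | p
  · refine tun_sub 0 (List.replicate (q + 1) true) [] [true, true] cre (some cre) (by decide)
      (tun_rep 0 0 (q + 1) (by omega)) rfl ?_
    refine tun_sub 2 (List.replicate q true) [true] [false, true] spl none (by decide) rfl rfl ?_
    refine tun_sub 1 (List.replicate (q + 1) true) [true, false] [true] mrg none (by decide) rfl
      (tun_rep 1 1 (q + 1) (by omega)) h
  · refine tun_sub (p + 1) (List.replicate (q + 1) true) [] [true, true] cre (some cre) (by decide)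
      (tun_rep (p + 1) 0 (q + 1) (by omega)) (tun_rep (p + 1) 2 (q + 1) rfl) ?_
    refine tun_sub p (List.replicate (q + 3) true) [true] [true, false] spl none (by decide)
      (tun_rep p 1 (q + 3) (by omega)) rfl ?_
    refine tun_sub (p + 1) (List.replicate (q + 2) true) [false, true] [true] mrg none (by decide)
      ?_ (tun_rep (p + 1) 1 (q + 2) (by omega)) h
    rw [List.replicate_succ' (n := p), List.replicate_succ (n := q + 2)]
    simp only [List.append_assoc, List.cons_append, List.nil_append]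

theorem sub_word {Lb cb : List Bool} {w : Word} (h : Run boolSys Lb w cb [false]) :
    Sub (List.replicate (Lb.length + 1) true) (w.flatMap tunG ++ [(ann, 0)]) (w ++ [(ann, 0)]) := by
  generalize hM : [false] = M at h
  induction h with
  | nil L =>
    subst hM
    exact tun_sub 0 [] [true, true] [] ann (some ann) (by decide) rfl rfl Sub.nil
  | cre P Q x h ih =>
    rw [List.flatMap_cons, List.append_assoc]
    refine tun_sub_cre P.length Q.length ?_ ?_ (ih hM)
    · rw [List.length_append]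
    · simp only [List.length_append, List.length_cons]; omega
  | ann P Q x h ih =>
    refine tun_sub P.length (List.replicate (Q.length + 1) true) [true, true] [] ann (some ann)
      (by decide) (tun_rep _ 2 _ ?_) (tun_rep _ 0 _ ?_) (ih hM)
    · simp only [List.length_append, List.length_cons]; omega
    · simp only [List.length_append]; omega
  | ov P Q a b h ih =>
    refine tun_sub P.length (List.replicate (Q.length + 1) true) [true, true] [true, true] ov
      (some ov) (by decide) (tun_rep _ 2 _ ?_) (tun_rep _ 2 _ ?_) (ih hM)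
    · simp only [List.length_append, List.length_cons]; omega
    · simp only [List.length_append, List.length_cons]; omega
  | un P Q a b h ih =>
    refine tun_sub P.length (List.replicate (Q.length + 1) true) [true, true] [true, true] un
      (some un) (by decide) (tun_rep _ 2 _ ?_) (tun_rep _ 2 _ ?_) (ih hM)
    · simp only [List.length_append, List.length_cons]; omega
    · simp only [List.length_append, List.length_cons]; omega

theorem IsKnot.exists_splitting {T : Word} (hT : IsKnot T) : ∃ g, HasSplitting T g := by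
  obtain ⟨cs, h⟩ := hT.1
  obtain ⟨t, ht⟩ := Sp_word h 0 rfl
  refine ⟨t + 1, t, close (T.flatMap tunG), close T, rfl, ?_, tun_refl _ _, ?_⟩
  · exact tun_sub 0 [] [] [true, true] cre (some cre) (by decide) rfl rfl (sub_word h)
  · have h1 : RankGenus.width 0 [(cre, 0)] = some (0 + 1 + 1) := rfl
    have h2 := ht.context h1 [(ann, 0)]
    rw [shift_zero, shift_zero] at h2
    exact h2

end RankGenus
end

-- merged part: Pool.Agent.Work.MP_c146e2_gt.RunInv
section
/-! Invariance of labellings under the moves. -/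

set_option autoImplicit false

namespace RankGenus

open Kind

structure Sys.Good {α : Type} (S : Sys α) : Prop where
  dd : ∀ x, S.dual (S.dual x) = x
  uo : ∀ a b, S.u (S.o a b) a = b
  ou : ∀ a b, S.o b (S.u a b) = a
  dU : ∀ a b, S.dual (S.u a b) = S.u (S.dual a) b
  ud : ∀ a b, S.u b (S.dual a) = S.o a b
  self : ∀ a, S.o a (S.dual a) = S.dual a
  distO : ∀ a b c, S.o (S.o a b) (S.o a c) = S.o a (S.o b c)
  distU : ∀ a b c, S.u (S.u a c) (S.u b c) = S.u (S.u a b) c

variable {α : Type} {S : Sys α}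

/-- Some labelling exists. -/
def runinvE (S : Sys α) (L : List α) (w : Word) (M : List α) : Prop := ∃ cs, Run S L w cs M

section
variable {L M : List α} {w : Word} {a b c : α}

theorem runinv_nil : runinvE S L [] M ↔ M = L := by
  simp [runinvE, Run.nil_iff]

theorem runinv_cre (P Q : List α) {p : ℕ} (hp : P.length = p) :
    runinvE S (P ++ Q) ((cre, p) :: w) M ↔ ∃ x, runinvE S (P ++ x :: S.dual x :: Q) w M := by
  simp only [runinvE, Run.cre_iff P Q hp]
  constructor
  · rintro ⟨_, x, cs, -, h⟩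
    exact ⟨x, cs, h⟩
  · rintro ⟨x, cs, h⟩
    exact ⟨_, x, cs, rfl, h⟩

theorem runinv_ann (P Q : List α) {p : ℕ} (hp : P.length = p) :
    runinvE S (P ++ a :: b :: Q) ((ann, p) :: w) M ↔ b = S.dual a ∧ runinvE S (P ++ Q) w M := by
  simp only [runinvE, Run.ann_iff P Q a b hp, exists_and_left]

theorem runinv_cre0 : runinvE S L ((cre, 0) :: w) M ↔ ∃ x, runinvE S (x :: S.dual x :: L) w M :=
  runinv_cre [] L rfl

theorem runinv_cre1 :
    runinvE S (a :: L) ((cre, 1) :: w) M ↔ ∃ x, runinvE S (a :: x :: S.dual x :: L) w M :=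
  runinv_cre [a] L rfl

theorem runinv_ann0 :
    runinvE S (a :: b :: L) ((ann, 0) :: w) M ↔ b = S.dual a ∧ runinvE S L w M :=
  runinv_ann [] L rfl

theorem runinv_ann1 :
    runinvE S (c :: a :: b :: L) ((ann, 1) :: w) M ↔ b = S.dual a ∧ runinvE S (c :: L) w M :=
  runinv_ann [c] L rfl

theorem runinv_ov0 :
    runinvE S (a :: b :: L) ((ov, 0) :: w) M ↔ runinvE S (S.o a b :: a :: L) w M :=
  exists_congr fun _ => Run.ov_iff [] L a b rfl

theorem runinv_ov1 :
    runinvE S (c :: a :: b :: L) ((ov, 1) :: w) M ↔ runinvE S (c :: S.o a b :: a :: L) w M :=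
  exists_congr fun _ => Run.ov_iff [c] L a b rfl

theorem runinv_un0 :
    runinvE S (a :: b :: L) ((un, 0) :: w) M ↔ runinvE S (b :: S.u a b :: L) w M :=
  exists_congr fun _ => Run.un_iff [] L a b rfl

theorem runinv_un1 :
    runinvE S (c :: a :: b :: L) ((un, 1) :: w) M ↔ runinvE S (c :: b :: S.u a b :: L) w M :=
  exists_congr fun _ => Run.un_iff [c] L a b rfl

theorem runinv_spl {p : ℕ} : runinvE S L ((spl, p) :: w) M ↔ False :=
  iff_false_intro fun ⟨_, h⟩ => Run.not_spl h

theorem runinv_mrg {p : ℕ} : runinvE S L ((mrg, p) :: w) M ↔ False :=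
  iff_false_intro fun ⟨_, h⟩ => Run.not_mrg h

end

theorem Sys.Good.runinv_uu (hS : S.Good) (a : α) : S.u a a = a := by
  have h := hS.uo a (S.dual a)
  rw [hS.self, ← hS.dU] at h
  rw [← hS.dd (S.u a a), h, hS.dd]

theorem Sys.Good.runinv_oo (hS : S.Good) (a : α) : S.o a a = a := by
  have h := hS.ou a a
  rwa [hS.runinv_uu] at h

theorem runinv_len1 {L : List α} (h : L.length = 1) : ∃ a, L = [a] := List.length_eq_one_iff.1 h

theorem runinv_len2 {L : List α} (h : L.length = 2) : ∃ a b, L = [a, b] := List.length_eq_two.1 h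

theorem runinv_len3 {L : List α} (h : L.length = 3) : ∃ a b c, L = [a, b, c] :=
  List.length_eq_three.1 h

theorem Sys.Good.runinv_basic (hS : S.Good) : ∀ b ∈ basic, ∀ L M : List α, L.length = b.1 →
    (runinvE S L b.2.1 M ↔ runinvE S L b.2.2 M) := by
  intro b hb L M hL
  simp only [RankGenus.basic, List.mem_cons, List.not_mem_nil, or_false] at hb
  rcases hb with rfl | rfl | rfl | rfl | rfl | rfl | rfl | rfl | rfl | rfl | rfl | rfl | rfl | rfl |
    rfl | rfl | rfl | rfl | rfl | rfl | rfl | rfl | rfl | rfl | rfl | rfl | rfl | rfl | rfl | rfl |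
    rfl | rfl | rfl | rfl
  all_goals
    first
    | obtain rfl := List.length_eq_zero_iff.1 hL
    | obtain ⟨a, rfl⟩ := runinv_len1 hL
    | obtain ⟨a, b, rfl⟩ := runinv_len2 hL
    | obtain ⟨a, b, c, rfl⟩ := runinv_len3 hL
  all_goals
    simp only [runinv_nil, runinv_cre0, runinv_cre1, runinv_ann0, runinv_ann1, runinv_ov0,
      runinv_ov1, runinv_un0, runinv_un1, runinv_spl, runinv_mrg, exists_false, hS.dd, hS.uo,
      hS.ou, hS.distO, hS.distU, hS.self, hS.ud, hS.runinv_oo]
  · exact ⟨fun ⟨x, h, e⟩ => by rw [e, h, hS.dd], fun e => ⟨_, rfl, by rw [e, hS.dd]⟩⟩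
  · exact ⟨fun ⟨x, h, e⟩ => by rw [e, h], fun e => ⟨_, rfl, e⟩⟩
  · refine and_congr_left fun _ => ⟨fun h => ?_, fun h => ?_⟩
    · rw [hS.dU, ← h, hS.uo]
    · rw [h, hS.dU, hS.ou]
  · refine and_congr_right fun h => ?_
    rw [h, hS.ud]
  · refine exists_congr fun x => ?_
    rw [← hS.ud, hS.dd]
  · constructor
    · rintro ⟨x, rfl⟩
      exact ⟨S.u x a, by rw [hS.ou, hS.dU]⟩
    · rintro ⟨y, rfl⟩
      exact ⟨S.o a y, by rw [← hS.dU, hS.uo]⟩
  · refine and_congr_left fun _ => ⟨fun h => ?_, fun h => ?_⟩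
    · have h' : S.o a b = S.o a (S.dual a) := by
        rw [hS.self, ← hS.dd (S.o a b), ← h]
      rw [← hS.uo a b, h', hS.uo]
    · rw [h, hS.self, hS.dd]
  · refine and_congr_left fun _ => ⟨fun h => ?_, fun h => ?_⟩
    · have h' := hS.ou a b
      rw [h, hS.self] at h'
      rw [← h', hS.dd]
    · rw [h, hS.ud, hS.runinv_oo, hS.dd]
  · exact ⟨fun ⟨x, e⟩ => ⟨S.dual x, by rw [e, hS.dd]⟩, fun ⟨x, e⟩ => ⟨S.dual x, by rw [e, hS.dd]⟩⟩
  · exact ⟨fun ⟨x, e⟩ => ⟨S.dual x, by rw [e, hS.dd]⟩, fun ⟨x, e⟩ => ⟨S.dual x, by rw [e, hS.dd]⟩⟩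

/-- Labels above and below one local picture. -/
def runinvLoc (S : Sys α) : Kind → List α → List α → Prop
  | cre, A, B => ∃ x, A = [] ∧ B = [x, S.dual x]
  | ann, A, B => ∃ x, A = [x, S.dual x] ∧ B = []
  | ov, A, B => ∃ a b, A = [a, b] ∧ B = [S.o a b, a]
  | un, A, B => ∃ a b, A = [a, b] ∧ B = [b, S.u a b]
  | _, _, _ => False

theorem runinv_loc_len {k : Kind} {A B : List α} (h : runinvLoc S k A B) :
    A.length = k.inn ∧ B.length = k.out := by
  cases k
  · obtain ⟨x, rfl, rfl⟩ := h; exact ⟨rfl, rfl⟩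
  · obtain ⟨x, rfl, rfl⟩ := h; exact ⟨rfl, rfl⟩
  · obtain ⟨a, b, rfl, rfl⟩ := h; exact ⟨rfl, rfl⟩
  · obtain ⟨a, b, rfl, rfl⟩ := h; exact ⟨rfl, rfl⟩
  · exact h.elim
  · exact h.elim

theorem runinv_cons {L M : List α} {k : Kind} {i : ℕ} {w : Word} :
    runinvE S L ((k, i) :: w) M ↔ ∃ P A B Q, P.length = i ∧ L = P ++ A ++ Q ∧ runinvLoc S k A B ∧
      runinvE S (P ++ B ++ Q) w M := by
  constructor
  · rintro ⟨cs, h⟩
    generalize e : (k, i) :: w = w' at h
    cases h with
    | nil => cases e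
    | cre P Q x h =>
      cases e
      exact ⟨P, [], [x, S.dual x], Q, rfl, by simp, ⟨x, rfl, rfl⟩, _, by simpa using h⟩
    | ann P Q x h =>
      cases e
      exact ⟨P, [x, S.dual x], [], Q, rfl, by simp, ⟨x, rfl, rfl⟩, _, by simpa using h⟩
    | ov P Q a b h =>
      cases e
      exact ⟨P, [a, b], _, Q, rfl, by simp, ⟨a, b, rfl, rfl⟩, _, by simpa using h⟩
    | un P Q a b h =>
      cases e
      exact ⟨P, [a, b], _, Q, rfl, by simp, ⟨a, b, rfl, rfl⟩, _, by simpa using h⟩
  · rintro ⟨P, A, B, Q, rfl, rfl, hl, cs, h⟩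
    cases k
    · obtain ⟨x, rfl, rfl⟩ := hl
      exact ⟨_, by simpa using Run.cre P Q x (by simpa using h)⟩
    · obtain ⟨x, rfl, rfl⟩ := hl
      exact ⟨_, by simpa using Run.ann P Q x (by simpa using h)⟩
    · obtain ⟨a, b, rfl, rfl⟩ := hl
      exact ⟨_, by simpa using Run.ov P Q a b (by simpa using h)⟩
    · obtain ⟨a, b, rfl, rfl⟩ := hl
      exact ⟨_, by simpa using Run.un P Q a b (by simpa using h)⟩
    · exact hl.elim
    · exact hl.elim

theorem runinv_cut {X Q P Y : List α} (h : X ++ Q = P ++ Y) (hl : X.length ≤ P.length) :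
    ∃ R, P = X ++ R ∧ Q = R ++ Y := by
  rcases List.append_eq_append_iff.1 h with h | ⟨R, rfl, rfl⟩
  · exact h
  · have : R = [] := List.length_eq_zero_iff.1 (by simp at hl; simp [hl])
    subst this
    exact ⟨[], by simp, by simp⟩

theorem runinv_append {L M : List α} {w w' : Word} :
    runinvE S L (w ++ w') M ↔ ∃ N, runinvE S L w N ∧ runinvE S N w' M := by
  constructor
  · rintro ⟨cs, h⟩
    obtain ⟨N, c1, c2, -, h1, h2⟩ := h.split
    exact ⟨N, ⟨c1, h1⟩, c2, h2⟩
  · rintro ⟨N, ⟨c1, h1⟩, c2, h2⟩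
    exact ⟨_, h1.append h2⟩

theorem runinv_mid {n m j n' s : ℕ} {a b l r : Word} {L M : List α} (hL : L.length = n)
    (ha : width n a = some n') (hj : j + m ≤ n') (hl : width m l = some s)
    (h : ∀ X Y : List α, X.length = m → runinvE S X l Y → runinvE S X r Y)
    (h1 : runinvE S L (a ++ shift j l ++ b) M) : runinvE S L (a ++ shift j r ++ b) M := by
  rw [List.append_assoc, runinv_append] at h1 ⊢
  obtain ⟨N, ⟨c0, h0⟩, cs, h2⟩ := h1
  refine ⟨N, ⟨c0, h0⟩, ?_⟩
  have hN : N.length = n' := by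
    have := h0.width_eq
    rw [hL, ha] at this
    exact (Option.some.inj this).symm
  obtain ⟨P, X, Q, rfl, hP, hX⟩ : ∃ P X Q, N = P ++ X ++ Q ∧ P.length = j ∧ X.length = m :=
    ⟨N.take j, (N.drop j).take m, (N.drop j).drop m, by
      rw [List.append_assoc, List.take_append_drop, List.take_append_drop],
      by simp; omega, by simp; omega⟩
  obtain ⟨Y, c1, c2, -, h3, h4⟩ := Run.of_mid P Q hP (hX ▸ hl) h2
  obtain ⟨c3, h5⟩ := h X Y hX ⟨c1, h3⟩
  exact ⟨_, ((h5.shift P hP).suffix Q).append h4⟩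

theorem Sys.Good.basic (hS : S.Good) : ∀ b ∈ basic, ∀ L M : List α, L.length = b.1 →
    ((∃ cs, Run S L b.2.1 cs M) ↔ ∃ cs, Run S L b.2.2 cs M) := hS.runinv_basic

theorem run_comm (k k' : Kind) (i j : ℕ) (L M : List α) :
    (∃ cs, Run S L [(k, i), (k', i + k.out + j)] cs M) ↔
      ∃ cs, Run S L [(k', i + k.inn + j), (k, i)] cs M := by
  change runinvE S L _ M ↔ runinvE S L _ M
  simp only [runinv_cons, runinv_nil]
  constructor
  · rintro ⟨P, A, B, Q, hP, rfl, hl, P', A', B', Q', hP', e, hl', rfl⟩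
    obtain ⟨hA, hB⟩ := runinv_loc_len hl
    rw [List.append_assoc P' A'] at e
    obtain ⟨R, rfl, rfl⟩ := runinv_cut e (by simp only [List.length_append]; omega)
    simp only [List.length_append] at hP'
    exact ⟨P ++ A ++ R, A', B', Q', by simp only [List.length_append]; omega, by simp, hl',
      P, A, B, R ++ B' ++ Q', hP, by simp, hl, by simp⟩
  · rintro ⟨P', A', B', Q', hP', rfl, hl', P, A, B, Q, hP, e, hl, rfl⟩
    obtain ⟨hA, hB⟩ := runinv_loc_len hl
    rw [List.append_assoc P' B'] at e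
    obtain ⟨R, rfl, rfl⟩ := runinv_cut e.symm (by simp only [List.length_append]; omega)
    simp only [List.length_append] at hP'
    exact ⟨P, A, B, R ++ A' ++ Q', hP, by simp, hl,
      P ++ B ++ R, A', B', Q', by simp only [List.length_append]; omega, by simp, hl', by simp⟩

theorem Sys.Good.equiv (hS : S.Good) {n : ℕ} {w w' : Word} (h : Equiv n w w') :
    ∀ L M : List α, L.length = n → ((∃ cs, Run S L w cs M) ↔ ∃ cs, Run S L w' cs M) := by
  intro L M hL
  change runinvE S L w M ↔ runinvE S L w' M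
  induction h with
  | refl => rfl
  | symm _ _ _ ih => exact ih.symm
  | trans _ _ _ _ _ ih ih' => exact ih.trans ih'
  | rel _ _ h =>
    cases h with
    | loc a b l r m j n' hb ha hj =>
      obtain ⟨s, h1, h2⟩ := basic_width _ hb
      exact ⟨runinv_mid hL ha hj h1 fun X Y hX => (hS.runinv_basic _ hb X Y hX).1,
        runinv_mid hL ha hj h2 fun X Y hX => (hS.runinv_basic _ hb X Y hX).2⟩
    | comm a b k k' i j =>
      simp only [runinv_append]
      exact exists_congr fun N => and_congr_left fun _ => exists_congr fun N' =>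
        and_congr_right fun _ => run_comm k k' i j N' N

/-- Wirtinger labels with holonomy in an `H`-set. -/
def actSys (H X : Type) [Group H] [MulAction H X] : Sys (H × X) :=
  ⟨fun a => (a.1⁻¹, a.2), fun a b => (a.1 * b.1 * a.1⁻¹, a.1 • b.2),
    fun a b => (b.1⁻¹ * a.1 * b.1, b.1⁻¹ • a.2)⟩

theorem actSys_closed (H X : Type) [Group H] [MulAction H X] :
    (actSys H X).Closed fun a => a.1 • a.2 = a.2 := by
  refine ⟨fun a ha => ?_, fun a b _ hb => ?_, fun a b ha _ => ?_⟩
  · exact inv_smul_eq_iff.2 ha.symm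
  · simp only [actSys, mul_smul, inv_smul_smul, hb]
  · simp only [actSys, mul_smul, smul_inv_smul, ha]

/-- Restriction of a system to a closed set of labels. -/
def Sys.sub (S : Sys α) {P : α → Prop} (hP : S.Closed P) : Sys {x // P x} :=
  ⟨fun a => ⟨S.dual a.1, hP.dual _ a.2⟩, fun a b => ⟨S.o a.1 b.1, hP.o _ _ a.2 b.2⟩,
    fun a b => ⟨S.u a.1 b.1, hP.u _ _ a.2 b.2⟩⟩

theorem actSys_good (H X : Type) [Group H] [MulAction H X] :
    ((actSys H X).sub (actSys_closed H X)).Good := by
  refine ⟨fun a => ?_, fun a b => ?_, fun a b => ?_, fun a b => ?_, fun a b => ?_, fun a => ?_,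
    fun a b c => ?_, fun a b c => ?_⟩
  all_goals refine Subtype.ext (Prod.ext ?_ ?_)
  all_goals simp only [Sys.sub, actSys, mul_smul, inv_smul_smul, smul_inv_smul, inv_inv,
    mul_inv_rev, a.2]
  all_goals group

/-- Labellings in which every loop fixes the holonomy of its strand are invariant. -/
theorem act_equiv {H X : Type} [Group H] [MulAction H X] {w w' : Word} (h : Equiv 1 w w')
    {a b : H × X} {cs : List (H × X)} (hr : Run (actSys H X) [a] w' cs [b])
    (ha : a.1 • a.2 = a.2) (hc : ∀ c ∈ cs, c.1 • c.2 = c.2) :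
    ∃ cs', Run (actSys H X) [a] w cs' [b] := by
  classical
  have hP := actSys_closed H X
  have hb : b.1 • b.2 = b.2 := hr.all hP (by simpa using ha) hc b (by simp)
  let f : H × X → {x : H × X // x.1 • x.2 = x.2} := fun x =>
    if h : x.1 • x.2 = x.2 then ⟨x, h⟩ else ⟨a, ha⟩
  have hf : ∀ x (hx : x.1 • x.2 = x.2), f x = ⟨x, hx⟩ := fun x hx => dif_pos hx
  have h1 := Run.map (S' := (actSys H X).sub hP) hP f
    (fun x hx => by rw [hf _ hx, hf _ (hP.dual x hx)]; rfl)
    (fun x y hx hy => by rw [hf _ hx, hf _ hy, hf _ (hP.o x y hx hy)]; rfl)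
    (fun x y hx hy => by rw [hf _ hx, hf _ hy, hf _ (hP.u x y hx hy)]; rfl)
    hr (by simpa using ha) hc
  obtain ⟨cs', h2⟩ := ((actSys_good H X).equiv h _ _ rfl).2 ⟨_, h1⟩
  have h3 := Run.map (S' := actSys H X) (Sys.closed_true _) Subtype.val (fun _ _ => rfl)
    (fun _ _ _ _ => rfl) (fun _ _ _ _ => rfl) h2 (fun _ _ => trivial) (fun _ _ => trivial)
  simp only [List.map_cons, List.map_nil, hf a ha, hf b hb] at h3
  exact ⟨_, h3⟩

end RankGenus
end

-- merged part: Pool.Agent.Work.MP_c146e2_gt.Amal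
section
/-! In an amalgam over the meridian the product of two longitudes is not a square. -/

set_option autoImplicit false

namespace RankGenus

open Monoid

variable {M : Bool → Type} [∀ i, Group (M i)]

/-- Lists of nontrivial letters from alternating factors. -/
def Red (l : List (Σ i, M i)) : Prop :=
  (∀ x ∈ l, x.2 ≠ 1) ∧ l.IsChain fun x y => x.1 ≠ y.1

def lprod (l : List (Σ i, M i)) : CoprodI M := (l.map fun x => CoprodI.of x.2).prod

theorem exists_red (x : CoprodI M) : ∃ l, Red l ∧ lprod l = x := by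
  classical
  exact ⟨(CoprodI.Word.equiv x).toList, ⟨(CoprodI.Word.equiv x).ne_one,
    (CoprodI.Word.equiv x).chain_ne⟩, CoprodI.Word.equiv.left_inv x⟩

theorem Red.inj {l l' : List (Σ i, M i)} (h : Red l) (h' : Red l') (e : lprod l = lprod l') :
    l = l' := by
  classical
  exact congrArg CoprodI.Word.toList
    (CoprodI.Word.equiv.symm.injective (a₁ := ⟨l, h.1, h.2⟩) (a₂ := ⟨l', h'.1, h'.2⟩) e)

theorem amal_append (l l' : List (Σ i, M i)) : lprod (l ++ l') = lprod l * lprod l' := by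
  simp [lprod]

theorem amal_cons (x : Σ i, M i) (l : List (Σ i, M i)) :
    lprod (x :: l) = CoprodI.of x.2 * lprod l := by
  simp [lprod]

/-- Cancellation in the middle of a product. -/
theorem Red.mid : ∀ (l2 l1 : List (Σ i, M i)), Red l1 → Red l2 → l1.length = l2.length →
    l1.getLast?.map Sigma.fst = l2.head?.map Sigma.fst →
    ∃ l, Red l ∧ lprod l = lprod l1 * lprod l2 ∧ (l = [] ∨ Odd l.length) := by
  intro l2
  induction l2 with
  | nil =>
    intro l1 h1 _ h3 _
    obtain rfl := List.length_eq_zero_iff.1 h3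
    exact ⟨[], h1, by simp [lprod], Or.inl rfl⟩
  | cons y l2 ih =>
    intro l1 h1 h2 h3 h4
    obtain rfl | ⟨l1, x, rfl⟩ := List.eq_nil_or_concat l1
    · simp at h3
    rw [List.concat_eq_append] at h1 h3 h4 ⊢
    obtain ⟨i, a⟩ := x
    obtain ⟨j, b⟩ := y
    obtain rfl : i = j := by simpa using h4
    have h5 : l1.length = l2.length := by simpa using h3
    obtain ⟨h6, -, h7⟩ := List.isChain_append.1 h1.2
    obtain ⟨h8, h9⟩ := List.isChain_cons.1 h2.2
    have h10 : ∀ x ∈ l1, x.2 ≠ 1 := fun x hx => h1.1 x (List.mem_append_left _ hx)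
    have h11 : ∀ x ∈ l2, x.2 ≠ 1 := fun x hx => h2.1 x (List.mem_cons_of_mem _ hx)
    have h12 : lprod (l1 ++ [⟨i, a⟩]) * lprod (⟨i, b⟩ :: l2) =
        lprod l1 * (CoprodI.of (a * b) * lprod l2) := by
      simp [lprod, mul_assoc]
    rw [h12]
    by_cases hab : a * b = 1
    · rw [hab, map_one, one_mul]
      refine ih l1 ⟨h10, h6⟩ ⟨h11, h9⟩ h5 ?_
      rcases l2 with _ | ⟨y, l2⟩
      · rw [List.length_eq_zero_iff.1 h5]
        rfl
      · obtain rfl | ⟨l1, x, rfl⟩ := List.eq_nil_or_concat l1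
        · simp at h5
        have h13 : x.1 ≠ i := h7 x (by simp) _ rfl
        have h14 : i ≠ y.1 := h8 y rfl
        simpa using (Bool.eq_not_iff.2 h13).trans (Bool.eq_not_iff.2 h14.symm).symm
    · refine ⟨l1 ++ ⟨i, a * b⟩ :: l2, ⟨fun x hx => ?_, List.isChain_append.2
        ⟨h6, List.isChain_cons.2 ⟨h8, h9⟩, fun x hx y hy => ?_⟩⟩, by rw [amal_append, amal_cons],
        Or.inr ⟨l1.length, by simp [← h5, two_mul, add_assoc]⟩⟩
      · rcases List.mem_append.1 hx with hx | hx
        · exact h10 x hx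
        · rcases List.mem_cons.1 hx with rfl | hx
          exacts [hab, h11 x hx]
      · obtain rfl : ⟨i, a * b⟩ = y := by simpa using hy
        exact h7 x hx ⟨i, a⟩ rfl

/-- No twisted square has length two. -/
theorem twisted_ne (β : ∀ i, M i ≃* M i) (F : CoprodI M →* CoprodI M)
    (hF : ∀ i (m : M i), F (CoprodI.of m) = CoprodI.of (β i m)) (x : CoprodI M)
    {a : M false} {b : M true} (ha : a ≠ 1) (hb : b ≠ 1) :
    x * F x ≠ CoprodI.of a * CoprodI.of b := by
  intro h
  obtain ⟨l, hl, rfl⟩ := exists_red x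
  have h1 : Red (l.map fun x => ⟨x.1, β x.1 x.2⟩) := ⟨fun x hx => by
    obtain ⟨y, hy, rfl⟩ := List.mem_map.1 hx
    exact (β y.1).map_ne_one_iff.2 (hl.1 y hy), List.isChain_map _ |>.2 hl.2⟩
  have h2 : F (lprod l) = lprod (l.map fun x => ⟨x.1, β x.1 x.2⟩) := by
    simp [lprod, map_list_prod, Function.comp_def, hF]
  have h3 : Red (M := M) [⟨false, a⟩, ⟨true, b⟩] := ⟨by simp [ha, hb], by simp⟩
  have h4 : CoprodI.of a * CoprodI.of b = lprod (M := M) [⟨false, a⟩, ⟨true, b⟩] := by simp [lprod]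
  rw [h2, h4] at h
  by_cases h5 : l.getLast?.map Sigma.fst =
      (l.map fun x => (⟨x.1, β x.1 x.2⟩ : Σ i, M i)).head?.map Sigma.fst
  · obtain ⟨l', h6, h7, h8⟩ := Red.mid _ l hl h1 (by simp) h5
    rw [h6.inj h3 (h7.trans h)] at h8
    simp at h8
    exact absurd h8 (by decide)
  · have h6 : Red (l ++ l.map fun x => ⟨x.1, β x.1 x.2⟩) := ⟨fun x hx =>
      (List.mem_append.1 hx).elim (hl.1 x) (h1.1 x), List.isChain_append.2 ⟨hl.2, h1.2,
        fun x hx y hy hxy => h5 (by rw [Option.mem_def.1 hx, Option.mem_def.1 hy]; simpa)⟩⟩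
    have h7 := congrArg List.length (h6.inj h3 ((amal_append _ _).trans h))
    obtain ⟨x, rfl⟩ := List.length_eq_one_iff.1 (show l.length = 1 by simp at h7; omega)
    exact h5 rfl

/-- conjugation of each factor by a power of its meridian -/
def amal_G (μ : ∀ i, M i) (n : Multiplicative ℤ) : CoprodI M →* CoprodI M :=
  CoprodI.lift fun i => CoprodI.of.comp (MulAut.conj (μ i ^ n.toAdd)).toMonoidHom

theorem amal_of (μ : ∀ i, M i) (n : Multiplicative ℤ) (i : Bool) (m : M i) :
    amal_G μ n (CoprodI.of m) = CoprodI.of (MulAut.conj (μ i ^ n.toAdd) m) :=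
  CoprodI.lift_of _ _

theorem amal_mul (μ : ∀ i, M i) (n m : Multiplicative ℤ) :
    (amal_G μ n).comp (amal_G μ m) = amal_G μ (n * m) := by
  ext i x
  simp only [MonoidHom.comp_apply, amal_of, toAdd_mul, zpow_add, map_mul, MulAut.mul_apply]

theorem amal_one (μ : ∀ i, M i) : amal_G μ 1 = MonoidHom.id _ := by
  ext i x
  simp [amal_of]

/-- the action of the integers -/
def amal_act (μ : ∀ i, M i) : Multiplicative ℤ →* MulAut (CoprodI M) :=
  MonoidHom.mk' (fun n => (amal_G μ n).toMulEquiv (amal_G μ n⁻¹)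
    (by rw [amal_mul, inv_mul_cancel, amal_one]) (by rw [amal_mul, mul_inv_cancel, amal_one]))
    fun n m => MulEquiv.ext fun x => (DFunLike.congr_fun (amal_mul μ n m) x).symm

theorem amal_act_of (μ : ∀ i, M i) (n : Multiplicative ℤ) (i : Bool) (m : M i) :
    amal_act μ n (CoprodI.of m) = CoprodI.of (MulAut.conj (μ i ^ n.toAdd) m) := amal_of μ n i m

/-- the maps to the amalgam -/
def amal_phi (μ : ∀ i, M i) (i : Bool) :
    M i × Multiplicative ℤ →* CoprodI M ⋊[amal_act μ] Multiplicative ℤ :=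
  MonoidHom.mk' (fun p => ⟨CoprodI.of (p.1 * (μ i ^ p.2.toAdd)⁻¹), p.2⟩) fun p q => by
    refine SemidirectProduct.ext ?_ rfl
    rw [SemidirectProduct.mul_left, amal_act_of, ← map_mul, MulAut.conj_apply, Prod.fst_mul,
      Prod.snd_mul, toAdd_mul]
    group

theorem amal_mu (μ : ∀ i, M i) (i : Bool) : amal_phi μ i (μ i, Multiplicative.ofAdd 1) =
    SemidirectProduct.inr (Multiplicative.ofAdd 1) :=
  SemidirectProduct.ext (by simp [amal_phi]) rfl

theorem amal_gen (μ : ∀ i, M i) (l1 : M false) (l2 : M true)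
    (h1 : l1 ∉ Subgroup.zpowers (μ false)) (h2 : l2 ∉ Subgroup.zpowers (μ true)) :
    ∃ (H : Type) (_ : Group H) (φ1 : M false × Multiplicative ℤ →* H)
      (φ2 : M true × Multiplicative ℤ →* H),
      φ1 (μ false, Multiplicative.ofAdd 1) = φ2 (μ true, Multiplicative.ofAdd 1) ∧
      ∀ (r1 r2 : Multiplicative ℤ) (j k : ℤ) (t : H),
        φ1 (μ false, Multiplicative.ofAdd 1) ^ j * (φ1 (l1, r1) * φ2 (l2, r2)) *
          φ1 (μ false, Multiplicative.ofAdd 1) ^ k ≠ t * t := by
  refine ⟨_, _, amal_phi μ false, amal_phi μ true, by rw [amal_mu, amal_mu],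
    fun r1 r2 j k t h => ?_⟩
  have h3 := congrArg SemidirectProduct.left h
  rw [amal_mu, ← map_zpow SemidirectProduct.inr, ← map_zpow SemidirectProduct.inr] at h3
  simp only [SemidirectProduct.mul_left, SemidirectProduct.left_inr, map_one, mul_one, one_mul,
    amal_phi, MonoidHom.mk'_apply, map_mul (amal_act μ _), amal_act_of] at h3
  refine twisted_ne (fun i => MulAut.conj (μ i ^ t.right.toAdd)) (amal_G μ t.right) (amal_of μ _)
    t.left ?_ ?_ h3.symm
  · rw [MulEquiv.map_ne_one_iff, Ne, mul_inv_eq_one]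
    exact fun h => h1 ⟨_, h.symm⟩
  · rw [MulEquiv.map_ne_one_iff, MulEquiv.map_ne_one_iff, Ne, mul_inv_eq_one]
    exact fun h => h2 ⟨_, h.symm⟩

theorem amal (H1 H2 : Type) [Group H1] [Group H2] (μ1 l1 : H1) (μ2 l2 : H2)
    (h1 : l1 ∉ Subgroup.zpowers μ1) (h2 : l2 ∉ Subgroup.zpowers μ2) :
    ∃ (H : Type) (_ : Group H) (φ1 : H1 × Multiplicative ℤ →* H)
      (φ2 : H2 × Multiplicative ℤ →* H),
      φ1 (μ1, Multiplicative.ofAdd 1) = φ2 (μ2, Multiplicative.ofAdd 1) ∧
      ∀ (r1 r2 : Multiplicative ℤ) (j k : ℤ) (t : H),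
        φ1 (μ1, Multiplicative.ofAdd 1) ^ j * (φ1 (l1, r1) * φ2 (l2, r2)) *
          φ1 (μ1, Multiplicative.ofAdd 1) ^ k ≠ t * t := by
  exact (@amal_gen (fun b => Bool.rec H1 H2 b) (fun b => Bool.rec ‹Group H1› ‹Group H2› b)
    (fun b => Bool.rec μ1 μ2 b) l1 l2 h1 h2 :)

end RankGenus
end

-- merged part: Pool.Agent.Work.MP_c146e2_gt.PrimeA
section
/-! Two-cables are prime. -/

set_option autoImplicit false

namespace RankGenus

open Kind

theorem actSys_compat (H X : Type) [Group H] [MulAction H X] : (actSys H X).Compat := by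
  refine ⟨fun x => ?_, fun a b => ?_, fun a b => ?_⟩
  · simp [actSys]
  · simp [actSys, mul_assoc]
  · simp [actSys, mul_assoc]

theorem primea_foldr {H X : Type} [Group H] [MulAction H X] (A : List (H × X)) (b : H × X) :
    A.foldr (actSys H X).o b =
      ((A.map Prod.fst).prod * b.1 * (A.map Prod.fst).prod⁻¹, (A.map Prod.fst).prod • b.2) := by
  induction A with
  | nil => simp
  | cons a A ih =>
    rw [List.foldr_cons, ih]
    simp [actSys, mul_assoc, mul_smul]

theorem primea_foldl {H X : Type} [Group H] [MulAction H X] (B : List (H × X)) (a : H × X) :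
    B.foldl (actSys H X).u a =
      ((B.map Prod.fst).prod⁻¹ * a.1 * (B.map Prod.fst).prod, (B.map Prod.fst).prod⁻¹ • a.2) := by
  induction B generalizing a with
  | nil => simp
  | cons b B ih =>
    rw [List.foldl_cons, ih]
    simp [actSys, mul_assoc, mul_smul]

theorem act_o {H X : Type} [Group H] [MulAction H X] (A B : List (H × X)) :
    (bundSys (actSys H X)).o A B = B.map fun b =>
      ((A.map Prod.fst).prod * b.1 * (A.map Prod.fst).prod⁻¹, (A.map Prod.fst).prod • b.2) := by
  show (B.map fun b => A.foldr (actSys H X).o b) = _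
  simp only [primea_foldr]

theorem act_u {H X : Type} [Group H] [MulAction H X] (A B : List (H × X)) :
    (bundSys (actSys H X)).u A B = A.map fun a =>
      ((B.map Prod.fst).prod⁻¹ * a.1 * (B.map Prod.fst).prod, (B.map Prod.fst).prod⁻¹ • a.2) := by
  show (A.map fun a => B.foldl (actSys H X).u a) = _
  simp only [primea_foldl]

/-- Conjugation of a label. -/
def primeaCj {H X : Type} [Group H] [MulAction H X] (g : H) (b : H × X) : H × X :=
  (g * b.1 * g⁻¹, g • b.2)

theorem primea_cj_cj {H X : Type} [Group H] [MulAction H X] (g g' : H) (b : H × X) :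
    primeaCj g (primeaCj g' b) = primeaCj (g * g') b := by
  simp [primeaCj, mul_assoc, mul_smul]

theorem primea_cj_one {H X : Type} [Group H] [MulAction H X] (b : H × X) :
    primeaCj (1 : H) b = b := by
  simp [primeaCj]

theorem primea_map_iff {H X : Type} [Group H] [MulAction H X] (L B : List (H × X)) (p : H) :
    (∃ g : H, B.map (primeaCj p) = L.map (primeaCj g)) ↔ ∃ g : H, B = L.map (primeaCj g) := by
  constructor
  · rintro ⟨g, hg⟩
    refine ⟨p⁻¹ * g, ?_⟩
    have h2 := congrArg (List.map (primeaCj p⁻¹)) hg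
    rw [List.map_map, List.map_map] at h2
    have e1 : (primeaCj p⁻¹ ∘ primeaCj p : H × X → H × X) = id := by
      funext b
      simp [primea_cj_cj, primea_cj_one]
    have e2 : (primeaCj p⁻¹ ∘ primeaCj g : H × X → H × X) = primeaCj (p⁻¹ * g) := by
      funext b
      simp [primea_cj_cj]
    rw [e1, e2, List.map_id] at h2
    exact h2
  · rintro ⟨g, rfl⟩
    refine ⟨p * g, ?_⟩
    rw [List.map_map]
    congr 1
    funext b
    simp [primea_cj_cj]

/-- The cabling slope has a square root. -/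
theorem root_cab {T : Word} (hT : IsKnot T) {H X : Type} [Group H] [MulAction H X] {a b : H × X}
    {cs : List (H × X)} (h : Run (actSys H X) [a] (cab T) cs [b]) :
    ∃ l : H, b.2 = (l * a.1⁻¹ * l)⁻¹ • a.2 := by
  obtain ⟨y, a', y', ccs, hr, -, -, hd, hM⟩ := hT.of_cab h
  have hy : y = a' := by
    have := congrArg (actSys H X).dual hd
    rwa [(actSys_compat H X).dd, (actSys_compat H X).dd] at this
  have key := hT.orient (actSys_compat H X).bund (Sys.closed_true _)
    (fun B => ∃ g : H, B = [a, y].map (primeaCj g))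
    (fun A B _ _ => by
      rw [act_o]
      exact primea_map_iff [a, y] B (A.map Prod.fst).prod)
    (fun A B _ _ => by
      rw [act_u]
      have := primea_map_iff [a, y] A (B.map Prod.fst).prod⁻¹
      have e : (fun a : H × X => ((B.map Prod.fst).prod⁻¹ * a.1 * (B.map Prod.fst).prod,
          (B.map Prod.fst).prod⁻¹ • a.2)) = primeaCj (B.map Prod.fst).prod⁻¹ := by
        funext c
        simp [primeaCj]
      rw [e]
      exact this)
    hr trivial (fun _ _ => trivial) ⟨1, by simp [primea_cj_one]⟩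
  obtain ⟨g, hg⟩ := key.1
  simp only [List.map_cons, List.map_nil, List.cons.injEq, and_true] at hg hM
  obtain ⟨ha', hy'⟩ := hg
  refine ⟨g⁻¹, ?_⟩
  rw [hM, hy', hy, ha']
  simp [actSys, primeaCj, mul_assoc, mul_smul]

/-- Labellings of a knotted long knot with a meridian of infinite order. -/
theorem knotted_run {T : Word} (hT : IsKnot T) (h : ¬ Unknotted T) :
    ∃ (H : Type) (_ : Group H) (μ l : H) (r : Multiplicative ℤ)
      (cs : List ((H × Multiplicative ℤ) × (H × Multiplicative ℤ))),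
      l ∉ Subgroup.zpowers μ ∧ Run (holSys (H × Multiplicative ℤ))
        [((μ, Multiplicative.ofAdd 1), 1)] T cs [((μ, Multiplicative.ofAdd 1), (l, r))] := by
  unfold Unknotted at h
  push Not at h
  obtain ⟨H, inst, μ, μ', l, cs, hr, hl⟩ := h
  have hμ : μ' = μ := hr.hol_fst
  subst hμ
  obtain ⟨r, cs2, hr2, -⟩ := hT.lin
  have hz := hr.zip hr2 rfl
  have hm := Run.map (S' := holSys (H × Multiplicative ℤ)) (Sys.closed_true _)
    (fun c : (H × H) × (ℤ × ℤ) =>
      ((c.1.1, Multiplicative.ofAdd c.2.1), (c.1.2, Multiplicative.ofAdd c.2.2)))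
    (fun x _ => by simp [Sys.prod, holSys, linSys])
    (fun a b _ _ => by simp [Sys.prod, holSys, linSys, sub_eq_add_neg])
    (fun a b _ _ => by simp [Sys.prod, holSys, linSys])
    hz (fun _ _ => trivial) (fun _ _ => trivial)
  exact ⟨H, inst, μ', l, Multiplicative.ofAdd r, _, hl, hm⟩

theorem hol_map {H H' : Type} [Group H] [Group H'] (φ : H →* H') (g : H') {w : Word}
    {L cs M : List (H × H)} (h : Run (holSys H) L w cs M) :
    Run (holSys H') (L.map fun a => (φ a.1, g * φ a.2)) w (cs.map fun a => (φ a.1, g * φ a.2))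
      (M.map fun a => (φ a.1, g * φ a.2)) :=
  Run.map (S' := holSys H') (Sys.closed_true _) (fun a : H × H => (φ a.1, g * φ a.2))
    (fun x _ => by simp [holSys])
    (fun a b _ _ => by simp [holSys, mul_assoc])
    (fun a b _ _ => by simp [holSys, mul_assoc])
    h (fun _ _ => trivial) (fun _ _ => trivial)

/-- Passing to cosets of the meridian. -/
theorem hol_to_act {T : Word} (hT : IsKnot T) {H : Type} [Group H] {μ l : H} {cs : List (H × H)}
    (h : Run (holSys H) [(μ, 1)] T cs [(μ, l)]) :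
    ∃ cs' : List (H × (H ⧸ Subgroup.zpowers μ)),
      Run (actSys H (H ⧸ Subgroup.zpowers μ)) [(μ, ((1 : H) : H ⧸ Subgroup.zpowers μ))] T cs'
        [(μ, ((l⁻¹ : H) : H ⧸ Subgroup.zpowers μ))] ∧ ∀ c ∈ cs', c.1 • c.2 = c.2 := by
  have hu := hT.use (Sys.closed_true (holSys H))
    (fun c : H × H => c.2 * c.1 * c.2⁻¹ ∈ Subgroup.zpowers μ)
    (fun x _ => by
      have e : ((holSys H).dual x).2 * ((holSys H).dual x).1 * ((holSys H).dual x).2⁻¹ =
          (x.2 * x.1 * x.2⁻¹)⁻¹ := by simp [holSys, mul_assoc]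
      rw [e]
      exact Subgroup.inv_mem_iff _)
    (fun a b _ _ => by
      have e : ((holSys H).o a b).2 * ((holSys H).o a b).1 * ((holSys H).o a b).2⁻¹ =
          b.2 * b.1 * b.2⁻¹ := by simp [holSys, mul_assoc]
      rw [e])
    (fun a b _ _ => by
      have e : ((holSys H).u a b).2 * ((holSys H).u a b).1 * ((holSys H).u a b).2⁻¹ =
          a.2 * a.1 * a.2⁻¹ := by simp [holSys, mul_assoc]
      rw [e])
    h trivial (fun _ _ => trivial) (by simp)
  have hm := Run.map (S' := actSys H (H ⧸ Subgroup.zpowers μ)) (Sys.closed_true _)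
    (fun c : H × H => (c.1, ((c.2⁻¹ : H) : H ⧸ Subgroup.zpowers μ)))
    (fun x _ => by simp [holSys, actSys])
    (fun a b _ _ => by simp [holSys, actSys])
    (fun a b _ _ => by simp [holSys, actSys])
    h (fun _ _ => trivial) (fun _ _ => trivial)
  refine ⟨_, by simpa using hm, ?_⟩
  intro c hc
  obtain ⟨d, hd, rfl⟩ := List.mem_map.1 hc
  have h1 := hu.1 d hd
  show ((d.1 * d.2⁻¹ : H) : H ⧸ Subgroup.zpowers μ) = ((d.2⁻¹ : H) : H ⧸ Subgroup.zpowers μ)
  rw [QuotientGroup.eq]
  have e : (d.1 * d.2⁻¹)⁻¹ * d.2⁻¹ = (d.2 * d.1 * d.2⁻¹)⁻¹ := by simp [mul_assoc]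
  rw [e]
  exact Subgroup.inv_mem _ h1

theorem cab_prime {T : Word} (hT : IsKnot T) {T₁ T₂ : Word} (h1 : IsKnot T₁) (h2 : IsKnot T₂)
    (h : Equiv 1 (cab T) (T₁ ++ T₂)) : Unknotted T₁ ∨ Unknotted T₂ := by
  by_contra hcon
  obtain ⟨H1, i1, μ1, l1, r1, cs1, hl1, run1⟩ := knotted_run h1 fun e => hcon (Or.inl e)
  obtain ⟨H2, i2, μ2, l2, r2, cs2, hl2, run2⟩ := knotted_run h2 fun e => hcon (Or.inr e)
  obtain ⟨H, iH, φ1, φ2, hμ, hne⟩ := amal H1 H2 μ1 l1 μ2 l2 hl1 hl2
  have m1 := hol_map φ1 1 run1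
  have m2 := hol_map φ2 (φ1 (l1, r1)) run2
  simp only [List.map_cons, List.map_nil, map_one, mul_one, one_mul] at m1 m2
  rw [← hμ] at m2
  have m3 := m1.append m2
  obtain ⟨cs', r3, hc⟩ := hol_to_act (h1.append h2) m3
  obtain ⟨cs'', r4⟩ := act_equiv h r3 (by
    show ((φ1 (μ1, Multiplicative.ofAdd 1) * 1 : H) :
      H ⧸ Subgroup.zpowers (φ1 (μ1, Multiplicative.ofAdd 1))) = ((1 : H) : H ⧸ _)
    rw [QuotientGroup.eq]
    simp) hc
  obtain ⟨l, hl⟩ := root_cab hT r4
  set μ := φ1 (μ1, Multiplicative.ofAdd 1) with hμdef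
  set L := φ1 (l1, r1) * φ2 (l2, r2) with hL
  have hl' : ((L⁻¹ : H) : H ⧸ Subgroup.zpowers μ) =
      (((l * μ⁻¹ * l)⁻¹ * 1 : H) : H ⧸ Subgroup.zpowers μ) := hl
  rw [QuotientGroup.eq] at hl'
  obtain ⟨m, hm⟩ := Subgroup.mem_zpowers_iff.1 hl'
  apply hne r1 r2 (-m) (-1) (l * μ⁻¹)
  have e : L = μ ^ m * (l * μ⁻¹ * l) := by
    rw [hm]
    simp [mul_assoc]
  rw [← hL, e]
  simp [mul_assoc]

end RankGenus
end

-- merged part: Pool.Agent.Work.MP_c146e2_gt.PrimeB
section
/-! The example is knotted. -/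

set_option autoImplicit false

namespace RankGenus

open Kind

theorem primeb_pow {T : Word} {r : ℤ} {cs : List (ℤ × ℤ)}
    (h : Run (linSys ℤ) [(1, 0)] T cs [(1, r)]) (hc : ∀ c ∈ cs, c.1 = 1 ∨ c.1 = -1) (N : ℕ) :
    ∃ ds, Run (linSys ℤ) [(1, 0)] (List.replicate N T).flatten ds [(1, N * r)] ∧
      ∀ c ∈ ds, c.1 = 1 ∨ c.1 = -1 := by
  induction N with
  | zero => exact ⟨[], by simpa using Run.nil _, by simp⟩
  | succ N ih =>
    obtain ⟨ds, h1, h2⟩ := ih
    have h3 := h1.map (S' := linSys ℤ) (Sys.closed_true _) (fun c => (c.1, c.2 + r))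
      (fun _ _ => rfl) (fun _ _ _ _ => Prod.ext rfl (sub_add_eq_add_sub _ _ _))
      (fun _ _ _ _ => Prod.ext rfl (add_right_comm _ _ _)) (fun _ _ => trivial) fun _ _ => trivial
    simp only [List.map_cons, List.map_nil, zero_add] at h3
    refine ⟨_, by simpa [List.replicate_succ, add_mul] using h.append h3, fun c hc' => ?_⟩
    rcases List.mem_append.1 hc' with e | e
    · exact hc c e
    · obtain ⟨d, hd, rfl⟩ := List.mem_map.1 e
      exact h2 d hd

theorem lin_T0 : ∃ (r : ℤ) (cs : List (ℤ × ℤ)),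
    Run (linSys ℤ) [(1, 0)] T0 cs [(1, 12 * r - 1)] ∧ ∀ c ∈ cs, c.1 = 1 ∨ c.1 = -1 := by
  obtain ⟨r, cs, h, hc⟩ := isKnot_T1.lin
  obtain ⟨ds, h1, h2⟩ := primeb_pow h hc 12
  have h3 : Run (linSys ℤ) [(1, 12 * r)] kink [(1, 12 * r)] [(1, 12 * r - 1)] :=
    Run.cre [_] [] (1, 12 * r) (Run.ov [] [_] _ _ (Run.ann [_] [] (1, 12 * r) (Run.nil _)))
  refine ⟨r, _, h1.append h3, fun c hc => ?_⟩
  rcases List.mem_append.1 hc with e | e
  · exact h2 c e
  · exact Or.inl (by rw [List.mem_singleton.1 e])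

/-- A labelling of the two-cable with values in the centraliser of `x * y`. -/
theorem hol_cab {T : Word} {r : ℤ} {cs : List (ℤ × ℤ)}
    (h : Run (linSys ℤ) [(1, 0)] T cs [(1, r)]) (hc : ∀ c ∈ cs, c.1 = 1 ∨ c.1 = -1)
    {H : Type} [Group H] (x y : H) (hy : y = ((x * y) ^ r)⁻¹ * x * (x * y) ^ r) :
    ∃ μ' cs', Run (holSys H) [(x, 1)] (cab T) cs' [(μ', (x * y) ^ r * (x * y) ^ r * y⁻¹)] := by
  obtain ⟨Y, hY⟩ : ∃ Y, x * y = Y := ⟨_, rfl⟩
  rw [hY] at hy ⊢
  have h0 : y = x⁻¹ * Y := eq_inv_mul_of_mul_eq hY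
  have hP : (linSys ℤ).Closed fun c => c.1 = 1 ∨ c.1 = -1 :=
    ⟨fun c h => h.symm.imp (fun e => by simp [linSys, e]) fun e => by simp [linSys, e],
      fun _ _ _ h => h, fun _ _ h _ => h⟩
  have h1 := h.map (S' := bundSys (holSys H)) hP
    (fun c => if c.1 = 1 then
      [((Y ^ c.2)⁻¹ * x * Y ^ c.2, Y ^ c.2), ((Y ^ c.2)⁻¹ * y * Y ^ c.2, Y ^ r * Y ^ c.2)] else
      [(((Y ^ c.2)⁻¹ * y * Y ^ c.2)⁻¹, Y ^ r * Y ^ c.2), (((Y ^ c.2)⁻¹ * x * Y ^ c.2)⁻¹, Y ^ c.2)])
    (by
      rintro ⟨e, s⟩ (rfl | rfl) <;> simp [bundSys, holSys, linSys])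
    (by
      rintro ⟨e, s⟩ ⟨e', t⟩ (rfl | rfl) (rfl | rfl) <;>
        simp only [bundSys, holSys, linSys, h0, Int.reduceNeg, Int.reduceEq, if_true, if_false,
          List.map_cons, List.map_nil, List.foldr_cons, List.foldr_nil, List.cons.injEq,
          Prod.mk.injEq, and_true] <;> refine ⟨⟨?_, ?_⟩, ?_, ?_⟩ <;> group)
    (by
      rintro ⟨e, s⟩ ⟨e', t⟩ (rfl | rfl) (rfl | rfl) <;>
        simp only [bundSys, holSys, linSys, h0, Int.reduceNeg, Int.reduceEq, if_true, if_false,
          List.map_cons, List.map_nil, List.foldl_cons, List.foldl_nil, List.cons.injEq,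
          Prod.mk.injEq, and_true] <;> refine ⟨⟨?_, ?_⟩, ?_, ?_⟩ <;> group)
    (by simp) hc
  simp only [List.map_cons, List.map_nil, if_true, zpow_zero, inv_one, one_mul, mul_one,
    ← hy] at h1
  refine ⟨_, _, cab_of h1 fun B hB => ?_⟩
  obtain ⟨c, -, rfl⟩ := List.mem_map.1 hB
  split_ifs <;> rfl

theorem knotted_cab_T0 : ¬ Unknotted (cab T0) := by
  intro hU
  obtain ⟨r, cs, h, hc⟩ := lin_T0
  let y : Matrix.SpecialLinearGroup (Fin 2) ℤ := ⟨!![1, 0; -1, 1], by decide⟩
  have h1 : (ModularGroup.T * y) ^ 12 = 1 := by decide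
  have h2 : (ModularGroup.T * y) ^ (12 * r - 1) = (ModularGroup.T * y)⁻¹ := by
    rw [zpow_sub_one, zpow_mul, zpow_ofNat, h1, one_zpow, one_mul]
  obtain ⟨μ, ds, h3⟩ := hol_cab h hc ModularGroup.T y (by rw [h2]; decide)
  obtain ⟨n, hn⟩ := hU _ _ _ _ _ h3
  have h4 := congrArg (fun A : Matrix.SpecialLinearGroup (Fin 2) ℤ => A.1 0 0) hn
  simp only [ModularGroup.coe_T_zpow, h2] at h4
  exact absurd (show (1 : ℤ) = _ from h4) (by decide)

end RankGenus
end

-- merged part: Pool.Agent.Work.MP_c146e2_gt.Prime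
section
/-! The example is prime. -/

set_option autoImplicit false

namespace RankGenus

theorem isPrime_cab_T0 : IsPrime (cab T0) :=
  ⟨isKnot_T0.cab, knotted_cab_T0, fun _ _ h1 h2 h => cab_prime isKnot_T0 h1 h2 h⟩

end RankGenus
end

-- merged part: Pool.Agent.Work.MP_c146e2_gt.Main
section
/-! A prime knot with rank smaller than Heegaard genus. -/

set_option autoImplicit false

namespace RankGenus

open Cy

theorem lt_of_splitting {g : ℕ} (h : HasSplitting (cab T0) g) : 38 < g := by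
  obtain ⟨t, Γ, K, rfl, hs, hK, hΓ⟩ := h
  have h1 := sub_le hs
  rw [evU_equiv hK, evD_equiv hΓ, evD_std] at h1
  have h2 := big.trans_le h1
  rw [map_pow, map_pow, emb_D2, ← Complex.ofReal_pow, ← Complex.ofReal_pow, Complex.ofReal_re,
    Complex.ofReal_re] at h2
  have h3 : (1 : ℝ) < (5 + √5) / 2 := by
    have := Real.sqrt_nonneg 5
    linarith
  exact (pow_lt_pow_iff_right₀ h3).1 h2

theorem main : ∃ (K : Word) (n : ℕ), IsPrime K ∧
    (∃ f : Fin n → knotGroup K, Subgroup.closure (Set.range f) = ⊤) ∧ n < genus K :=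
  ⟨cab T0, 38, isPrime_cab_T0, (gen_T0.cab isKnot_T0).rank isKnot_T0.cab,
    lt_of_splitting (Nat.sInf_mem isKnot_T0.cab.exists_splitting)⟩

end RankGenus
end
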