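import Pool.Agent.Work.MP_c146e2_gt.Tab

/-! The doubled state sum of a graph dominates the bracket of a link contained in it. -/

set_option autoImplicit false

namespace RankGenus

open Cy Kind

def r2 (h h' : List B2 → Cy) (d : List B3) : Cy := h (xs d) * bar (h' (ys d))

def choices (k : Kind) : List (List Bool × List Bool) :=
  (allL eB k.inn).flatMap fun ci => (allL eB k.out).map fun co => (ci, co)

theorem posa_sum_ind (n : ℕ) : ∀ (c : List Bool) (F : List Bool → Cy), c.length = n →
    ((allL eB n).map fun x => if c = x then F x else 0).sum = F c := by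
  induction n with
  | zero =>
    intro c F hc
    rw [List.length_eq_zero_iff] at hc
    subst hc
    simp [allL]
  | succ n ih =>
    intro c F hc
    cases c with
    | nil => simp at hc
    | cons b t =>
      have ht : t.length = n := by simpa using hc
      have h1 := ih t (fun x => F (b :: x)) ht
      cases b
      · simpa [allL, eB, Function.comp_def] using h1
      · simpa [allL, eB, Function.comp_def] using h1

theorem posa_part (n : ℕ) (H : List B2 → Cy) (G : List Bool → Cy) :
    ∀ P : List (Cy × List B2), (∀ p ∈ P, p.2.length = n) →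
    ((allL eB n).map fun co => pair (P.filter fun p => cols p.2 = co) H * G co).sum =
      (P.map fun p => p.1 * H p.2 * G (cols p.2)).sum := by
  intro P
  induction P with
  | nil => intro _; simp
  | cons p P ih =>
    intro hP
    have h1 := ih fun q hq => hP q (List.mem_cons_of_mem _ hq)
    have h2 := posa_sum_ind n (cols p.2) (fun co => p.1 * H p.2 * G co)
      (by simpa [cols] using hP p List.mem_cons_self)
    rw [List.map_cons, List.sum_cons, ← h1, ← h2, ← List.sum_map_add]
    congr 1
    apply List.map_congr_left
    intro co _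
    by_cases h : cols p.2 = co
    · rw [List.filter_cons_of_pos (by simpa using h), pair_cons, if_pos h]
      ring
    · rw [List.filter_cons_of_neg (by simpa using h), if_neg h, zero_add]

theorem posa_rc_len (k : Kind) (l : Bool) (a : List B2) (ha : a.length = k.inn) :
    ∀ p ∈ rc k l a, p.2.length = k.out := by
  have key : ∀ k ∈ [cre, ann, ov, un, spl, mrg], ∀ l ∈ eB, ∀ a ∈ allL eB2 k.inn,
      ∀ p ∈ rc k l a, p.2.length = k.out := by decide +kernel
  refine key k (by cases k <;> simp) l (mem_eB l) a ?_
  rw [← ha]
  exact mem_allL mem_eB2 a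

theorem posa_zip : ∀ p q : List B2, cols q = cols p → xs (zip3 p q) = p ∧ ys (zip3 p q) = q := by
  intro p
  induction p with
  | nil =>
    intro q h
    cases q with
    | nil => simp [xs, ys, zip3]
    | cons b q => simp [cols] at h
  | cons a p ih =>
    intro q h
    cases q with
    | nil => simp [cols] at h
    | cons b q =>
      simp only [cols, List.map_cons, List.cons.injEq] at h
      have h2 := ih q h.2
      simp only [xs, ys, zip3, List.zipWith_cons_cons, List.map_cons, List.cons.injEq] at h2 ⊢
      exact ⟨⟨trivial, h2.1⟩, Prod.ext h.1.symm rfl, h2.2⟩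

theorem posa_bar_pair (Q : List (Cy × List B2)) (H : List B2 → Cy) :
    bar (pair Q H) = (Q.map fun q => bar q.1 * bar (H q.2)).sum := by
  induction Q with
  | nil => simp [bar_zero]
  | cons q Q ih => rw [pair_cons, bar_add, bar_mul, ih, List.map_cons, List.sum_cons]

theorem posa_pair_flatMap {β γ : Type} (P : List β) (M : β → List (Cy × γ)) (f : γ → Cy) :
    pair (P.flatMap M) f = (P.map fun p => pair (M p) f).sum := by
  induction P with
  | nil => simp
  | cons p P ih => rw [List.flatMap_cons, pair_append, ih, List.map_cons, List.sum_cons]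

theorem posa_sum_flatMap {β γ : Type} (P : List β) (M : β → List γ) (f : γ → Cy) :
    ((P.flatMap M).map f).sum = (P.map fun p => ((M p).map f).sum).sum := by
  induction P with
  | nil => simp
  | cons p P ih =>
    rw [List.flatMap_cons, List.map_append, List.sum_append, ih, List.map_cons, List.sum_cons]

theorem posa_core (k : Kind) (l : B2) (H H' : List B2 → Cy) (a : List B3)
    (ha : a.length = k.inn) :
    pair (sysD.rule k l a) (r2 H H') = ((choices k).map fun c => wt k c.1 c.2 *
      (pair ((sysC c.1 c.2).rule k l.1 (xs a)) H *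
        bar (pair ((sysC c.1 c.2).rule k l.2 (ys a)) H'))).sum := by
  have hx : cols (xs a) = a.map Prod.fst := by simp [cols, xs]
  have hy : cols (ys a) = a.map Prod.fst := by simp [cols, ys]
  have hR : ((choices k).map fun c => wt k c.1 c.2 *
      (pair ((sysC c.1 c.2).rule k l.1 (xs a)) H *
        bar (pair ((sysC c.1 c.2).rule k l.2 (ys a)) H'))).sum =
      ((allL eB k.out).map fun co => pair ((rc k l.1 (xs a)).filter fun p => cols p.2 = co) H *
        (wt k (a.map Prod.fst) co *
          bar (pair ((rc k l.2 (ys a)).filter fun p => cols p.2 = co) H'))).sum := by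
    rw [choices, posa_sum_flatMap]
    rw [← posa_sum_ind k.inn (a.map Prod.fst) (fun ci => ((allL eB k.out).map fun co =>
      pair ((rc k l.1 (xs a)).filter fun p => cols p.2 = co) H * (wt k ci co *
        bar (pair ((rc k l.2 (ys a)).filter fun p => cols p.2 = co) H'))).sum) (by simpa using ha)]
    congr 1
    apply List.map_congr_left
    intro ci _
    rw [List.map_map]
    by_cases h : a.map Prod.fst = ci
    · rw [if_pos h]
      congr 1
      apply List.map_congr_left
      intro co _
      simp only [Function.comp, sysC, hx, hy, if_pos h]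
      ring
    · rw [if_neg h]
      apply List.sum_eq_zero
      intro x hx'
      obtain ⟨co, -, rfl⟩ := List.mem_map.1 hx'
      simp only [Function.comp, sysC, hx, hy, if_neg h, pair_nil, zero_mul, mul_zero]
  rw [hR, posa_part k.out H _ _ (posa_rc_len k l.1 (xs a) (by simpa [xs] using ha))]
  show pair (List.flatMap _ _) _ = _
  rw [posa_pair_flatMap]
  congr 1
  apply List.map_congr_left
  intro p _
  rw [posa_bar_pair, pair, List.map_map, ← List.sum_map_mul_left, ← List.sum_map_mul_left]
  congr 1
  apply List.map_congr_left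
  intro q hq
  have hc : cols q.2 = cols p.2 := by simpa using (List.mem_filter.1 hq).2
  have hz := posa_zip p.2 q.2 hc
  simp only [Function.comp, r2, hz.1, hz.2]
  ring

theorem stepD_r2 (k : Kind) (i : ℕ) (l : B2) (h h' : List B2 → Cy) (d : List B3) :
    sysD.step (k, i) l (r2 h h') d = ((choices k).map fun c => wt k c.1 c.2 *
      r2 ((sysC c.1 c.2).step (k, i) l.1 h) ((sysC c.1 c.2).step (k, i) l.2 h') d).sum := by
  induction i generalizing l h h' d with
  | zero =>
    have hlx : (xs d).length = d.length := by simp [xs]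
    have hly : (ys d).length = d.length := by simp [ys]
    by_cases hd : k.inn ≤ d.length
    · have hc := posa_core k l (fun x => h (x ++ xs (d.drop k.inn)))
        (fun y => h' (y ++ ys (d.drop k.inn))) (d.take k.inn) (by simpa using hd)
      have e1 : sysD.step (k, 0) l (r2 h h') d = pair (sysD.rule k l (d.take k.inn))
          (r2 (fun x => h (x ++ xs (d.drop k.inn))) fun y => h' (y ++ ys (d.drop k.inn))) := by
        simp only [LS.step, LS.act, if_pos hd]
        rw [pair_map (sysD.rule k l (d.take k.inn)) fun x => x ++ d.drop k.inn]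
        congr 1
        funext x
        simp only [r2, xs, ys, List.map_append]
      rw [e1, hc]
      congr 1
      apply List.map_congr_left
      intro c _
      simp only [r2, LS.step, LS.act, hlx, hly, if_pos hd]
      rw [pair_map ((sysC c.1 c.2).rule k l.1 ((xs d).take k.inn)) fun x => x ++ (xs d).drop k.inn,
        pair_map ((sysC c.1 c.2).rule k l.2 ((ys d).take k.inn)) fun x => x ++ (ys d).drop k.inn]
      simp only [xs, ys, List.map_take, List.map_drop]
    · simp only [r2, LS.step, LS.act, hlx, hly, if_neg hd, pair_nil, zero_mul, mul_zero]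
      simp
  | succ i ih =>
    cases d with
    | nil =>
      simp only [r2, LS.step, LS.act, xs, ys, List.map_nil, pair_nil, zero_mul, mul_zero]
      simp
    | cons a t =>
      have h1 := ih a.2 (fun x => h ((a.1, a.2.1) :: x)) (fun y => h' ((a.1, a.2.2) :: y)) t
      have e1 : sysD.step (k, i + 1) l (r2 h h') (a :: t) = sysD.step (k, i) a.2
          (r2 (fun x => h ((a.1, a.2.1) :: x)) fun y => h' ((a.1, a.2.2) :: y)) t := by
        simp only [LS.step, LS.act]
        rw [pair_map (sysD.act k i (sysD.pr a) t) fun x => a :: x]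
        rfl
      rw [e1, h1]
      congr 1
      apply List.map_congr_left
      intro c _
      simp only [r2, LS.step, LS.act, xs, ys, List.map_cons]
      rw [pair_map _ fun x => (a.1, a.2.1) :: x, pair_map _ fun x => (a.1, a.2.2) :: x]
      rfl

def PosW (w : Cy) : Prop := ∃ r : ℝ, 0 ≤ r ∧ emb w = r

theorem posW_wt (k : Kind) (a b : List Bool) : PosW (wt k a b) := by
  have h5 : (1 : ℝ) ≤ √5 := Real.one_le_sqrt.2 (by norm_num)
  have hph : PosW ph := ⟨_, by positivity, emb_ph⟩
  have hphi : PosW phi := ⟨_, by linarith, emb_phi⟩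
  have h1 : PosW 1 := ⟨1, zero_le_one, by simp⟩
  unfold wt
  split <;> assumption

theorem posa_mul {u v : Cy} (hu : PosW u) (hv : PosW v) : PosW (u * v) := by
  obtain ⟨r, hr, e⟩ := hu
  obtain ⟨s, hs, e'⟩ := hv
  exact ⟨r * s, mul_nonneg hr hs, by rw [map_mul, e, e', Complex.ofReal_mul]⟩

/-- Positive combinations of rank one functions. -/
def Pos (F : List B3 → Cy) : Prop :=
  ∃ L : List (Cy × (List B2 → Cy)), (∀ p ∈ L, PosW p.1) ∧
    ∀ d, sysD.adm (false, false) d = true → F d = pair L fun h => r2 h h d

theorem Pos.add {F G : List B3 → Cy} (hF : Pos F) (hG : Pos G) : Pos fun d => F d + G d := by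
  obtain ⟨L, hL, eL⟩ := hF
  obtain ⟨M, hM, eM⟩ := hG
  refine ⟨L ++ M, fun p hp => ?_, fun d hd => ?_⟩
  · rcases List.mem_append.1 hp with hp | hp
    · exact hL p hp
    · exact hM p hp
  · rw [pair_append, ← eL d hd, ← eM d hd]

theorem Pos.congr {F G : List B3 → Cy} (hF : Pos F)
    (h : ∀ d, sysD.adm (false, false) d = true → G d = F d) : Pos G := by
  obtain ⟨L, hL, eL⟩ := hF
  exact ⟨L, hL, fun d hd => (h d hd).trans (eL d hd)⟩

theorem Pos.step {F : List B3 → Cy} (hF : Pos F) (g : Kind × ℕ) :
    Pos (sysD.step g (false, false) F) := by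
  obtain ⟨L, hL, eL⟩ := hF
  obtain ⟨k, i⟩ := g
  refine ⟨L.flatMap fun p => ((choices k).map fun c =>
    (wt k c.1 c.2, (sysC c.1 c.2).step (k, i) false p.2)).map fun q => (p.1 * q.1, q.2),
    fun q hq => ?_, fun d hd => ?_⟩
  · obtain ⟨p, hp, hq⟩ := List.mem_flatMap.1 hq
    obtain ⟨x, hx, rfl⟩ := List.mem_map.1 hq
    obtain ⟨c, -, rfl⟩ := List.mem_map.1 hx
    exact posa_mul (hL p hp) (posW_wt k c.1 c.2)
  · rw [pair_bind L fun h => (choices k).map fun c =>
      (wt k c.1 c.2, (sysC c.1 c.2).step (k, i) false h)]
    have e1 : sysD.step (k, i) (false, false) F d =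
        pair (sysD.act k i (false, false) d) fun x => pair L fun h => r2 h h x :=
      pair_congr fun p hp => eL p.2 ((wfD.act hp).2.2.2 hd)
    rw [e1, pair_comm]
    apply pair_congr
    intro p _
    have e2 := stepD_r2 k i (false, false) p.2 p.2 d
    rw [LS.step] at e2
    rw [show (fun b => r2 p.2 p.2 b) = r2 p.2 p.2 from rfl, e2, pair, List.map_map]
    rfl

theorem Pos.nil {F : List B3 → Cy} (hF : Pos F) : 0 ≤ (emb (F [])).re := by
  obtain ⟨L, hL, eL⟩ := hF
  rw [eL [] rfl]
  clear eL
  induction L with
  | nil => simp
  | cons p L ih =>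
    obtain ⟨r, hr, e⟩ := hL p List.mem_cons_self
    have h1 := ih fun q hq => hL q (List.mem_cons_of_mem _ hq)
    have h2 : emb (r2 p.2 p.2 []) = (Complex.normSq (emb (p.2 [])) : ℝ) := emb_mul_bar _
    rw [pair_cons, map_add, map_mul, e, h2, Complex.add_re, ← Complex.ofReal_mul,
      Complex.ofReal_re]
    exact add_nonneg (mul_nonneg hr (Complex.normSq_nonneg _)) h1

/-- A function of the marked strands only. -/
def lift (m : List Bool) (g : List Bool → Cy) (c : List B2) : Cy :=
  if cols c = m then g ((c.filter Prod.fst).map Prod.snd) else 0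

end RankGenus
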